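import Mathlib
import Pool.Graph.R_seed8.Helper112.LS
import Pool.Graph.R_seed8.Y855.A10

/-!
Project AP (helper482, `MP_991e92_nt`): Artin primes of polynomial size for all but a bounded number of
primes.  Statements of the tasks.
-/

set_option autoImplicit false

namespace Pool.Agent.H482.AP

open Finset

open Pool.Agent.Helper112 (ee)

/-- the reduced residues modulo `f` -/
def red (f : ℕ) : Finset ℕ := (range f).filter (fun a => a.Coprime f)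

/-- the sum over the reduced fractions with denominator `f` -/
noncomputable def AS (N : ℕ) (b : ℕ → ℂ) (f : ℕ) : ℝ :=
  ∑ a ∈ red f, ‖∑ n ∈ Icc 1 N, b n * ee (n * a / f)‖ ^ 2

/-- the weight of the sieve with two classes -/
noncomputable def g (m : ℕ) : ℝ := ∏ p ∈ m.primeFactors, 2 / ((p : ℝ) - 2)

/-- task TWO: the Chinese remainder theorem for reduced fractions -/
def S_TWO : Prop := ∀ F : ℝ → ℝ, (∀ t, F (t + 1) = F t) → ∀ m n : ℕ, 1 ≤ m → 1 ≤ n → m.Coprime n →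
  ∑ a ∈ red (m * n), F ((a : ℝ) / ((m * n : ℕ) : ℝ)) =
    ∑ c ∈ red m, ∑ d ∈ red n, F ((c : ℝ) / m + (d : ℝ) / n)

/-- task MON: Montgomery's inequality for one prime and the two classes `0`, `1` -/
def S_MON : Prop := ∀ (p N : ℕ) (b : ℕ → ℂ), p.Prime → 3 ≤ p →
  (∀ n ∈ Icc 1 N, (n % p = 0 ∨ n % p = 1) → b n = 0) →
  2 / ((p : ℝ) - 2) * ‖∑ n ∈ Icc 1 N, b n‖ ^ 2 ≤ AS N b p

/-- task LEG: the quadratic Gauss sum -/
def S_LEG : Prop := ∀ (p N : ℕ) (b : ℕ → ℂ), p.Prime → 3 ≤ p →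
  ‖∑ n ∈ Icc 1 N, b n * ((jacobiSym n p : ℤ) : ℂ)‖ ^ 2 ≤ AS N b p

/-- task IND -/
def S_IND : Prop := ∀ (D m N : ℕ) (b : ℕ → ℂ), Squarefree D → Odd D → Squarefree m → Odd m →
  D.Coprime m →
  (∀ p ∈ m.primeFactors, ∀ n ∈ Icc 1 N, (n % p = 0 ∨ n % p = 1) → b n = 0) →
  g m * ‖∑ n ∈ Icc 1 N, b n * ((jacobiSym n D : ℤ) : ℂ)‖ ^ 2 ≤ AS N b (D * m)

open Classical in
/-- task GSU: lower bound for the sum of the weights -/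
def S_GSU : Prop := ∀ q s R : ℕ, 1 ≤ q → 1 ≤ s → s * s ≤ R →
  ((Nat.totient (2 * q) : ℝ) / ((2 * q : ℕ) : ℝ) * Real.log s) ^ 2 ≤
    ∑ m ∈ (Icc 1 R).filter (fun m => Squarefree m ∧ Nat.Coprime (2 * q) m), g m

open Classical in
/-- task LSA: the large sieve for real characters and a set sifted by two classes -/
def S_LSA : Prop := ∀ (N Q R : ℕ) (S : Finset ℕ) (a : ℕ → ℂ),
  (∀ D ∈ S, Squarefree D ∧ Odd D ∧ D ≤ Q) →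
  (∀ p : ℕ, p.Prime → 3 ≤ p → p ≤ R → ∀ n ∈ Icc 1 N, (n % p = 0 ∨ n % p = 1) → a n = 0) →
  (∑ m ∈ (Icc 1 R).filter (fun m => Squarefree m ∧ Nat.Coprime (2 * ∏ D ∈ S, D) m), g m) *
    ∑ D ∈ S, ‖∑ n ∈ Icc 1 N, a n * ((jacobiSym n D : ℤ) : ℂ)‖ ^ 2 ≤
      6 * (N + ((Q * R : ℕ) : ℝ) ^ 2) * ∑ n ∈ Icc 1 N, ‖a n‖ ^ 2

open Pool.Agent.Y855 (TT MI Bad)

/-- task HBP: bases which are power residues of large order -/
def S_HBP : Prop := ∀ k m₀ : ℕ, 1 ≤ k → ∃ x₀ : ℕ, 3 ≤ x₀ ∧ ∀ x : ℕ, x₀ ≤ x → ∀ z : ℕ, 2 ≤ z →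
  x ≤ z ^ (2 * k) → ∀ H : ℕ, 1 ≤ H → H ≤ x → ∀ M : Finset ℤ, (∀ n ∈ M, n ≠ 0 ∧ n.natAbs ≤ H) → MI M →
  M.card ≤ m₀ →
  ∑ n ∈ M, ((Bad n x z H).card : ℝ) ≤
    8 * (k : ℝ) ^ 2 * ((TT x z).card : ℝ) + (x : ℝ) ^ (1 - 1 / (8 * (k : ℝ)))

end Pool.Agent.H482.AP
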