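import Mathlib
import Pool.Agent.H482.AP.Stm
import Pool.Agent.H482.MR.M9

/-! Simultaneous primitive roots and quadratic symbols. -/

set_option autoImplicit false

namespace Pool.Agent.H482.AP

open Finset

open Pool.Agent.Y855 (TT MI Bad)
open Pool.Agent.H482.MR (Tf mem_TT BadP root_iff recip_one recip_three jac_pm)

/-- the sign of the reciprocity law -/
def sg (c q : ℕ) : ℤ := if c = 3 ∧ q % 4 = 3 then -1 else 1

theorem sg_abs (c q : ℕ) : |((sg c q : ℤ) : ℝ)| = 1 := by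
  unfold sg
  split_ifs <;> simp

theorem jac_sg {c p q : ℕ} (hp : p.Prime) (hq : q.Prime) (hp2 : 2 < p) (hq2 : 2 < q)
    (hc : c = 1 ∨ c = 3) (hpc : p % 4 = c) : jacobiSym q p = sg c q * jacobiSym p q := by
  have hqo : q % 2 = 1 := by
    rcases hq.eq_two_or_odd with h | h
    · omega
    · exact h
  have hq4 : q % 4 = 1 ∨ q % 4 = 3 := by omega
  unfold sg
  rcases hc with rfl | rfl
  · rw [if_neg (by omega), one_mul, recip_one hp hq hp2 hq2 (Or.inl hpc)]
  · rcases hq4 with h | h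
    · rw [if_neg (by omega), one_mul, recip_one hp hq hp2 hq2 (Or.inr h)]
    · rw [if_pos ⟨rfl, h⟩, recip_three h hpc]
      ring

theorem jac_prod (B : Finset ℕ) (hB : ∀ q ∈ B, q.Prime) (a : ℤ) :
    jacobiSym a (∏ q ∈ B, q) = ∏ q ∈ B, jacobiSym a q := by
  induction B using Finset.induction_on with
  | empty => simp
  | insert r B hr ih =>
    have h1 : NeZero r := ⟨(hB r (mem_insert_self _ _)).ne_zero⟩
    have h2 : NeZero (∏ q ∈ B, q) := ⟨by
      rw [prod_ne_zero_iff]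
      intro q hq
      exact (hB q (mem_insert_of_mem hq)).ne_zero⟩
    rw [prod_insert hr, prod_insert hr, jacobiSym.mul_right,
      ih (fun q hq => hB q (mem_insert_of_mem hq))]

/-- the indicator function of the primes modulo which all elements of `A` are nonresidues -/
theorem ind_prod (A : Finset ℕ) (J : ℕ → ℤ) (hJ : ∀ q ∈ A, J q = 1 ∨ J q = -1) :
    (if ∀ q ∈ A, J q = -1 then (1 : ℝ) else 0) = ∏ q ∈ A, ((1 - (J q : ℝ)) / 2) := by
  split_ifs with h
  · symm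
    apply prod_eq_one
    intro q hq
    rw [h q hq]
    norm_num
  · push Not at h
    obtain ⟨q, hq, hne⟩ := h
    symm
    apply prod_eq_zero hq
    rcases hJ q hq with h1 | h1
    · rw [h1]; norm_num
    · exact absurd h1 hne

theorem count_main (A : Finset ℕ) (hA : ∀ q ∈ A, q.Prime ∧ 2 < q) (T' : Finset ℕ) (c : ℕ)
    (hc : c = 1 ∨ c = 3) (hT : ∀ p ∈ T', p.Prime ∧ 2 < p ∧ p % 4 = c ∧ ∀ q ∈ A, q ≠ p)
    (X : ℝ) (hX0 : 0 ≤ X) (hX : ∀ B ⊆ A, B.Nonempty →
      |∑ p ∈ T', ((jacobiSym p (∏ q ∈ B, q) : ℤ) : ℝ)| ≤ X) :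
    |((T'.filter (fun p : ℕ => ∀ q ∈ A, jacobiSym q p = -1)).card : ℝ) -
      (1 / 2) ^ A.card * (T'.card : ℝ)| ≤ X := by
  classical
  have e1 : ((T'.filter (fun p : ℕ => ∀ q ∈ A, jacobiSym q p = -1)).card : ℝ) =
      (1 / 2) ^ A.card * ∑ B ∈ A.powerset, (∏ q ∈ B, (-((sg c q : ℤ) : ℝ))) *
        ∑ p ∈ T', ((jacobiSym p (∏ q ∈ B, q) : ℤ) : ℝ) := by
    rw [card_filter]
    push_cast
    have h1 : ∀ p ∈ T', (if ∀ q ∈ A, jacobiSym q p = -1 then (1 : ℝ) else 0) =
        (1 / 2) ^ A.card * ∑ B ∈ A.powerset, (∏ q ∈ B, (-((sg c q : ℤ) : ℝ))) *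
          ((jacobiSym p (∏ q ∈ B, q) : ℤ) : ℝ) := by
      intro p hp
      obtain ⟨h2, h3, h4, h5⟩ := hT p hp
      rw [ind_prod A (fun q => jacobiSym q p) (fun q hq => jac_pm h2 (hA q hq).1 (h5 q hq))]
      have h6 : ∀ q ∈ A, ((1 : ℝ) - ((jacobiSym q p : ℤ) : ℝ)) / 2 =
          (1 / 2) * (1 + -((sg c q : ℤ) : ℝ) * ((jacobiSym p q : ℤ) : ℝ)) := by
        intro q hq
        rw [jac_sg h2 (hA q hq).1 h3 (hA q hq).2 hc h4]
        push_cast
        ring
      rw [prod_congr rfl h6, prod_mul_distrib, prod_const, prod_one_add]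
      congr 1
      apply sum_congr rfl
      intro B hB
      rw [prod_mul_distrib, jac_prod B (fun q hq => (hA q (mem_powerset.1 hB hq)).1)]
      push_cast
      rfl
    rw [sum_congr rfl h1, ← mul_sum]
    congr 1
    rw [sum_comm]
    apply sum_congr rfl
    intro B _
    rw [mul_sum]
  have e2 : ∑ B ∈ A.powerset, (∏ q ∈ B, (-((sg c q : ℤ) : ℝ))) *
        ∑ p ∈ T', ((jacobiSym p (∏ q ∈ B, q) : ℤ) : ℝ) =
      (T'.card : ℝ) + ∑ B ∈ A.powerset.erase ∅, (∏ q ∈ B, (-((sg c q : ℤ) : ℝ))) *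
        ∑ p ∈ T', ((jacobiSym p (∏ q ∈ B, q) : ℤ) : ℝ) := by
    rw [← add_sum_erase _ _ (empty_mem_powerset A)]
    simp
  rw [e1, e2, mul_add, add_sub_cancel_left, abs_mul, abs_of_nonneg (by positivity : (0 : ℝ) ≤ (1 / 2) ^ A.card)]
  have h7 : |∑ B ∈ A.powerset.erase ∅, (∏ q ∈ B, (-((sg c q : ℤ) : ℝ))) *
        ∑ p ∈ T', ((jacobiSym p (∏ q ∈ B, q) : ℤ) : ℝ)| ≤ 2 ^ A.card * X := by
    refine (abs_sum_le_sum_abs _ _).trans ?_
    calc ∑ B ∈ A.powerset.erase ∅, |(∏ q ∈ B, (-((sg c q : ℤ) : ℝ))) *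
            ∑ p ∈ T', ((jacobiSym p (∏ q ∈ B, q) : ℤ) : ℝ)|
        ≤ ∑ _B ∈ A.powerset.erase ∅, X := by
          apply sum_le_sum
          intro B hB
          rw [mem_erase, mem_powerset] at hB
          rw [abs_mul, abs_prod, prod_eq_one, one_mul]
          · exact hX B hB.2 (nonempty_iff_ne_empty.2 hB.1)
          · intro q _
            rw [abs_neg, sg_abs]
      _ ≤ 2 ^ A.card * X := by
          rw [sum_const, nsmul_eq_mul]
          apply mul_le_mul_of_nonneg_right _ hX0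
          have h8 : (A.powerset.erase ∅).card ≤ 2 ^ A.card := by
            rw [← card_powerset]
            exact card_le_card (erase_subset _ _)
          exact_mod_cast h8
  calc (1 / 2) ^ A.card * |∑ B ∈ A.powerset.erase ∅, (∏ q ∈ B, (-((sg c q : ℤ) : ℝ))) *
        ∑ p ∈ T', ((jacobiSym p (∏ q ∈ B, q) : ℤ) : ℝ)|
      ≤ (1 / 2) ^ A.card * (2 ^ A.card * X) := mul_le_mul_of_nonneg_left h7 (by positivity)
    _ = X := by rw [← mul_assoc, ← mul_pow]; norm_num

open Classical in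
theorem root_count (A : Finset ℕ) (hA : ∀ q ∈ A, q.Prime ∧ 2 < q) (x z H c : ℕ)
    (hAH : ∀ q ∈ A, q ≤ H) (hH2 : 2 ≤ H) :
    |(((Tf x z c).filter (fun p : ℕ => ∀ q ∈ A, orderOf ((q : ℕ) : ZMod p) = p - 1)).card : ℝ) -
      ((((Tf x z c).filter (fun p => H < p)).filter
        (fun p : ℕ => ∀ q ∈ A, jacobiSym q p = -1)).card : ℝ)| ≤
      H + ∑ q ∈ A, ((Bad ((q : ℕ) : ℤ) x z H).card : ℝ) := by
  set T := Tf x z c with hT
  set U := A.biUnion (fun q => Bad ((q : ℕ) : ℤ) x z H) with hU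
  set V := T.filter (fun p => p ≤ H) with hV
  have hVc : V.card ≤ H := by
    have h1 : V ⊆ Icc 1 H := by
      intro p hp
      rw [hV, mem_filter, hT] at hp
      unfold Tf at hp
      rw [mem_filter, mem_TT] at hp
      exact mem_Icc.2 ⟨hp.1.1.1.1, hp.2⟩
    have h2 := card_le_card h1
    rwa [Nat.card_Icc, Nat.add_sub_cancel] at h2
  have hUc : (U.card : ℝ) ≤ ∑ q ∈ A, ((Bad ((q : ℕ) : ℤ) x z H).card : ℝ) := by
    have h1 : U.card ≤ ∑ q ∈ A, (Bad ((q : ℕ) : ℤ) x z H).card := card_biUnion_le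
    exact_mod_cast h1
  have hkey : ∀ p ∈ T, H < p → p ∉ U → ∀ q ∈ A,
      (orderOf ((q : ℕ) : ZMod p) = p - 1 ↔ jacobiSym q p = -1) := by
    intro p hp hpH hpU q hq
    have hp' := hp
    rw [hT] at hp'
    unfold Tf at hp'
    rw [mem_filter] at hp'
    have hpp := (mem_TT.1 hp'.1).2.1
    apply root_iff (hA q hq).1 hpp (by omega)
    rintro (h | ⟨l, h1, h2, h3, h4⟩)
    · have := hAH q hq
      omega
    · apply hpU
      rw [hU, mem_biUnion]
      refine ⟨q, hq, ?_⟩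
      unfold Bad
      rw [mem_filter]
      refine ⟨hp'.1, hpH, l, h1, h2, h3, ?_⟩
      rw [Int.cast_natCast]
      exact h4
  have c1 : (T.filter (fun p : ℕ => ∀ q ∈ A, orderOf ((q : ℕ) : ZMod p) = p - 1)).card ≤
      ((T.filter (fun p => H < p)).filter (fun p : ℕ => ∀ q ∈ A, jacobiSym q p = -1)).card +
        V.card + U.card := by
    refine (card_le_card ?_).trans ((card_union_le _ _).trans (Nat.add_le_add_right
      (card_union_le ((T.filter (fun p => H < p)).filter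
        (fun p : ℕ => ∀ q ∈ A, jacobiSym q p = -1)) V) U.card))
    intro p hp
    rw [mem_filter] at hp
    rw [mem_union, mem_union]
    by_cases h1 : p ∈ U
    · exact Or.inr h1
    · by_cases h2 : H < p
      · left; left
        rw [mem_filter, mem_filter]
        exact ⟨⟨hp.1, h2⟩, fun q hq => (hkey p hp.1 h2 h1 q hq).1 (hp.2 q hq)⟩
      · left; right
        rw [hV, mem_filter]
        exact ⟨hp.1, by omega⟩
  have c2 : ((T.filter (fun p => H < p)).filter (fun p : ℕ => ∀ q ∈ A, jacobiSym q p = -1)).card ≤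
      (T.filter (fun p : ℕ => ∀ q ∈ A, orderOf ((q : ℕ) : ZMod p) = p - 1)).card + U.card := by
    refine (card_le_card ?_).trans (card_union_le _ _)
    intro p hp
    rw [mem_filter, mem_filter] at hp
    rw [mem_union]
    by_cases h1 : p ∈ U
    · exact Or.inr h1
    · left
      rw [mem_filter]
      exact ⟨hp.1.1, fun q hq => (hkey p hp.1.1 hp.1.2 h1 q hq).2 (hp.2 q hq)⟩
  have c1' : ((T.filter (fun p : ℕ => ∀ q ∈ A, orderOf ((q : ℕ) : ZMod p) = p - 1)).card : ℝ) ≤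
      (((T.filter (fun p => H < p)).filter (fun p : ℕ => ∀ q ∈ A, jacobiSym q p = -1)).card : ℝ) +
        V.card + U.card := by exact_mod_cast c1
  have c2' : (((T.filter (fun p => H < p)).filter
      (fun p : ℕ => ∀ q ∈ A, jacobiSym q p = -1)).card : ℝ) ≤
      ((T.filter (fun p : ℕ => ∀ q ∈ A, orderOf ((q : ℕ) : ZMod p) = p - 1)).card : ℝ) + U.card := by
    exact_mod_cast c2
  have hVc' : (V.card : ℝ) ≤ H := by exact_mod_cast hVc
  have hV0 : (0 : ℝ) ≤ V.card := Nat.cast_nonneg _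
  rw [abs_le]
  constructor <;> linarith

end Pool.Agent.H482.AP
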