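import Mathlib
import Pool.Agent.H482.AP.Stm
import Pool.Agent.H482.MR.M9

/-! Few moduli with a large real character sum over a sifted set of primes. -/

set_option autoImplicit false

namespace Pool.Agent.H482.AP

open Finset

theorem one_sub_sum {ι : Type*} (s : Finset ι) (f : ι → ℝ) (h0 : ∀ i ∈ s, 0 ≤ f i)
    (h1 : ∀ i ∈ s, f i ≤ 1) : 1 - ∑ i ∈ s, f i ≤ ∏ i ∈ s, (1 - f i) := by
  classical
  induction s using Finset.induction_on with
  | empty => simp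
  | insert a s ha ih =>
    rw [sum_insert ha, prod_insert ha]
    have h2 := ih (fun i hi => h0 i (mem_insert_of_mem hi)) (fun i hi => h1 i (mem_insert_of_mem hi))
    have h3 := h0 a (mem_insert_self _ _)
    have h4 := h1 a (mem_insert_self _ _)
    have h5 : 0 ≤ ∑ i ∈ s, f i := sum_nonneg fun i hi => h0 i (mem_insert_of_mem hi)
    nlinarith [mul_le_mul_of_nonneg_left h2 (by linarith : 0 ≤ 1 - f a), mul_nonneg h3 h5]

/-- the density of the integers prime to `2 q` if `q` has few prime factors, all of them large -/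
theorem dens (q t Y : ℕ) (hq : q ≠ 0) (hc : q.primeFactors.card ≤ t) (hY : ∀ p ∈ q.primeFactors, Y < p)
    (htY : 2 * t ≤ Y) (hY2 : 2 ≤ Y) :
    (1 : ℝ) / 4 ≤ (Nat.totient (2 * q) : ℝ) / ((2 * q : ℕ) : ℝ) := by
  have h2q : 2 * q ≠ 0 := by omega
  have h1 := Nat.totient_eq_mul_prod_factors (2 * q)
  have h2 : (Nat.totient (2 * q) : ℝ) = ((2 * q : ℕ) : ℝ) *
      ∏ p ∈ (2 * q).primeFactors, (1 - ((p : ℝ))⁻¹) := by
    have h3 : ((Nat.totient (2 * q) : ℚ) : ℝ) = (((2 * q : ℕ) * ∏ p ∈ (2 * q).primeFactors,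
      (1 - ((p : ℚ))⁻¹) : ℚ) : ℝ) := by rw [h1]
    push_cast at h3
    push_cast
    exact h3
  have hq0 : (0 : ℝ) < ((2 * q : ℕ) : ℝ) := by exact_mod_cast Nat.pos_of_ne_zero h2q
  rw [h2, mul_div_cancel_left₀ _ hq0.ne']
  have h4 : (2 * q).primeFactors = insert 2 q.primeFactors := by
    rw [Nat.primeFactors_mul (by norm_num) hq, Nat.prime_two.primeFactors]
    rfl
  have h5 : 2 ∉ q.primeFactors := fun h => by
    have := hY 2 h
    omega
  rw [h4, prod_insert h5]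
  have h6 := one_sub_sum q.primeFactors (fun p => ((p : ℝ))⁻¹) (fun p _ => by positivity) (by
    intro p hp
    have : (1 : ℝ) ≤ p := by exact_mod_cast (Nat.prime_of_mem_primeFactors hp).one_le
    exact inv_le_one_of_one_le₀ this)
  have hY0 : (0 : ℝ) < Y := by exact_mod_cast (by omega : 0 < Y)
  have h7 : ∑ p ∈ q.primeFactors, ((p : ℝ))⁻¹ ≤ 1 / 2 := by
    calc ∑ p ∈ q.primeFactors, ((p : ℝ))⁻¹ ≤ ∑ _p ∈ q.primeFactors, ((Y : ℝ))⁻¹ := by
          apply sum_le_sum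
          intro p hp
          have : (Y : ℝ) ≤ p := by exact_mod_cast (hY p hp).le
          exact inv_anti₀ hY0 this
      _ = (q.primeFactors.card : ℝ) * ((Y : ℝ))⁻¹ := by rw [sum_const, nsmul_eq_mul]
      _ ≤ 1 / 2 := by
          have h8 : (q.primeFactors.card : ℝ) ≤ t := by exact_mod_cast hc
          have h9 : 2 * (t : ℝ) ≤ Y := by exact_mod_cast htY
          rw [← div_eq_mul_inv, div_le_iff₀ hY0]
          linarith
  norm_num
  linarith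

/-- the primes dividing a product of integers with few prime factors -/
theorem prod_factors (S : Finset ℕ) (r Y : ℕ) (hS : ∀ D ∈ S, D ≠ 0 ∧ D.primeFactors.card ≤ r ∧
    ∀ p ∈ D.primeFactors, Y < p) :
    (∏ D ∈ S, D) ≠ 0 ∧ (∏ D ∈ S, D).primeFactors.card ≤ r * S.card ∧
      ∀ p ∈ (∏ D ∈ S, D).primeFactors, Y < p := by
  classical
  have h0 : (∏ D ∈ S, D) ≠ 0 := prod_ne_zero_iff.2 fun D hD => (hS D hD).1
  have h1 : (∏ D ∈ S, D).primeFactors ⊆ S.biUnion (fun D => D.primeFactors) := by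
    intro p hp
    rw [Nat.mem_primeFactors] at hp
    obtain ⟨D, hD, hpD⟩ := (Prime.dvd_finset_prod_iff hp.1.prime _).1 hp.2.1
    rw [mem_biUnion]
    exact ⟨D, hD, Nat.mem_primeFactors.2 ⟨hp.1, hpD, (hS D hD).1⟩⟩
  refine ⟨h0, ?_, ?_⟩
  · refine (card_le_card h1).trans (card_biUnion_le.trans ?_)
    calc ∑ D ∈ S, D.primeFactors.card ≤ ∑ _D ∈ S, r := sum_le_sum fun D hD => (hS D hD).2.1
      _ = r * S.card := by rw [sum_const, smul_eq_mul, mul_comm]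
  · intro p hp
    have h2 := h1 hp
    rw [mem_biUnion] at h2
    obtain ⟨D, hD, hpD⟩ := h2
    exact (hS D hD).2.2 p hpD

/-- few moduli with a large character sum -/
theorem few_D (hLSA : S_LSA) (hGSU : S_GSU) (x Q R s M₀ Y r : ℕ) (T' : Finset ℕ) (t ε : ℝ)
    (hT1 : T' ⊆ Icc 1 x) (hT2 : ∀ n ∈ T', ∀ l : ℕ, l.Prime → 3 ≤ l → l ≤ R → n % l ≠ 0 ∧ n % l ≠ 1)
    (hQR : (Q * R) ^ 2 ≤ x) (hs : 1 ≤ s) (hsR : s * s ≤ R) (S : Finset ℕ)
    (hS : ∀ D ∈ S, Squarefree D ∧ Odd D ∧ D ≤ Q ∧ D.primeFactors.card ≤ r ∧ ∀ p ∈ D.primeFactors, Y < p)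
    (hSM : S.card ≤ M₀) (hY : 2 * (r * M₀) ≤ Y) (hY2 : 2 ≤ Y) (hTt : (T'.card : ℝ) ≤ t) (ht : 0 ≤ t)
    (hε : 0 ≤ ε)
    (hbig : ∀ D ∈ S, ε * t ≤ |∑ p ∈ T', ((jacobiSym p D : ℤ) : ℝ)|) :
    (1 / 4 * Real.log s) ^ 2 * (S.card * (ε * t) ^ 2) ≤ 12 * x * t := by
  classical
  set a : ℕ → ℂ := fun n => if n ∈ T' then 1 else 0 with ha
  have h1 := hLSA x Q R S a (fun D hD => ⟨(hS D hD).1, (hS D hD).2.1, (hS D hD).2.2.1⟩) (by
    intro p hp hp3 hpR n _ hn01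
    simp only [ha]
    rw [if_neg]
    intro hn
    have := hT2 n hn p hp hp3 hpR
    tauto)
  obtain ⟨hq0, hqc, hqY⟩ := prod_factors S r Y (fun D hD => ⟨(hS D hD).1.ne_zero, (hS D hD).2.2.2⟩)
  have hq1 : 1 ≤ ∏ D ∈ S, D := Nat.pos_of_ne_zero hq0
  have h2 := hGSU (∏ D ∈ S, D) s R hq1 hs hsR
  have hd := dens (∏ D ∈ S, D) (r * M₀) Y hq0 (hqc.trans (Nat.mul_le_mul_left r hSM)) hqY hY hY2
  have hlogs : 0 ≤ Real.log s := Real.log_natCast_nonneg s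
  have h3 : (1 / 4 * Real.log s) ^ 2 ≤ ∑ m ∈ (Icc 1 R).filter
      (fun m => Squarefree m ∧ Nat.Coprime (2 * ∏ D ∈ S, D) m), g m := by
    refine le_trans ?_ h2
    apply pow_le_pow_left₀ (by positivity)
    exact mul_le_mul_of_nonneg_right hd hlogs
  have hsum : ∀ D : ℕ, ∑ n ∈ Icc 1 x, a n * ((jacobiSym n D : ℤ) : ℂ) =
      ((∑ p ∈ T', ((jacobiSym p D : ℤ) : ℝ) : ℝ) : ℂ) := by
    intro D
    simp only [ha, ite_mul, one_mul, zero_mul]
    rw [← sum_filter, filter_mem_eq_inter, inter_eq_right.2 hT1]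
    push_cast
    rfl
  have h4 : (S.card : ℝ) * (ε * t) ^ 2 ≤
      ∑ D ∈ S, ‖∑ n ∈ Icc 1 x, a n * ((jacobiSym n D : ℤ) : ℂ)‖ ^ 2 := by
    rw [← nsmul_eq_mul, ← sum_const]
    apply sum_le_sum
    intro D hD
    rw [hsum, Complex.norm_real, Real.norm_eq_abs]
    exact pow_le_pow_left₀ (mul_nonneg hε ht) (hbig D hD) 2
  have h5 : ∑ n ∈ Icc 1 x, ‖a n‖ ^ 2 = T'.card := by
    have : ∀ n ∈ Icc 1 x, ‖a n‖ ^ 2 = if n ∈ T' then (1 : ℝ) else 0 := by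
      intro n _
      simp only [ha]
      split_ifs <;> simp
    rw [sum_congr rfl this, ← sum_filter, filter_mem_eq_inter, inter_eq_right.2 hT1]
    simp
  rw [h5] at h1
  have h6 : (((Q * R : ℕ) : ℝ)) ^ 2 ≤ x := by exact_mod_cast hQR
  have h0 : 0 ≤ (S.card : ℝ) * (ε * t) ^ 2 := by positivity
  calc (1 / 4 * Real.log s) ^ 2 * (S.card * (ε * t) ^ 2)
      ≤ (∑ m ∈ (Icc 1 R).filter (fun m => Squarefree m ∧ Nat.Coprime (2 * ∏ D ∈ S, D) m), g m) *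
        ∑ D ∈ S, ‖∑ n ∈ Icc 1 x, a n * ((jacobiSym n D : ℤ) : ℂ)‖ ^ 2 :=
        mul_le_mul h3 h4 h0 (le_trans (by positivity) h3)
    _ ≤ 6 * (x + ((Q * R : ℕ) : ℝ) ^ 2) * T'.card := h1
    _ ≤ 12 * x * t := by
        have h7 : 6 * ((x : ℝ) + ((Q * R : ℕ) : ℝ) ^ 2) ≤ 12 * x := by linarith
        exact mul_le_mul h7 hTt (Nat.cast_nonneg _) (by positivity)

end Pool.Agent.H482.AP
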