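import Pool.Agent.H482.AP.Stm
import Pool.Agent.H482.WT.Tot

set_option autoImplicit false

/-!
# Task GSU of project AP (helper51): lower bound for the sum of the weights
-/

namespace Pool.Agent.H482.AP

open Finset

namespace GSU

/-- `1 / (p - 1)` -/
noncomputable def f (p : ℕ) : ℝ := 1 / ((p : ℝ) - 1)

theorem f_nonneg {p : ℕ} (hp : p.Prime) : 0 ≤ f p := by
  unfold f
  have : (1 : ℝ) ≤ p := by exact_mod_cast hp.one_le
  exact div_nonneg zero_le_one (by linarith)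

theorem tot_prod (k : ℕ) (hk : Squarefree k) :
    1 / (k.totient : ℝ) = ∏ p ∈ k.primeFactors, f p := by
  have h1 := Nat.totient_mul_prod_primeFactors k
  rw [Nat.prod_primeFactors_of_squarefree hk, mul_comm] at h1
  have h2 : k.totient = ∏ p ∈ k.primeFactors, (p - 1) :=
    Nat.eq_of_mul_eq_mul_left (Nat.pos_of_ne_zero hk.ne_zero) h1
  rw [h2, Nat.cast_prod]
  unfold f
  rw [prod_div_distrib, prod_const_one]
  congr 1
  apply prod_congr rfl
  intro p hp
  have := (Nat.prime_of_mem_primeFactors hp).one_le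
  push_cast [Nat.cast_sub this]
  rfl

/-- the double sum over subsets -/
theorem dbl (P : Finset ℕ) : ∏ p ∈ P, (f p * (1 + f p) + f p) =
    ∑ x ∈ P.powerset.sigma (fun A => A.powerset),
      (∏ p ∈ x.1, f p) * (∏ p ∈ x.2, f p) * ∏ p ∈ P \ x.1, f p := by
  rw [prod_add, sum_sigma]
  apply sum_congr rfl
  intro A _
  rw [prod_mul_distrib, prod_one_add, mul_sum, sum_mul]

theorem pf_lcm {a b : ℕ} (ha : a ≠ 0) (hb : b ≠ 0) :
    (Nat.lcm a b).primeFactors = a.primeFactors ∪ b.primeFactors := by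
  ext p
  rw [mem_union, Nat.mem_primeFactors, Nat.mem_primeFactors, Nat.mem_primeFactors]
  constructor
  · rintro ⟨h1, h2, -⟩
    have h3 : p ∣ a * b := h2.trans (Nat.lcm_dvd_mul a b)
    rcases (Nat.Prime.dvd_mul h1).1 h3 with h | h
    · exact Or.inl ⟨h1, h, ha⟩
    · exact Or.inr ⟨h1, h, hb⟩
  · rintro (⟨h1, h2, -⟩ | ⟨h1, h2, -⟩)
    · exact ⟨h1, h2.trans (Nat.dvd_lcm_left a b), Nat.lcm_ne_zero ha hb⟩
    · exact ⟨h1, h2.trans (Nat.dvd_lcm_right a b), Nat.lcm_ne_zero ha hb⟩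

theorem fibre (K : Finset ℕ) (hK : ∀ k ∈ K, Squarefree k) (m : ℕ) :
    ∑ x ∈ (K ×ˢ K).filter (fun x => Nat.lcm x.1 x.2 = m),
      (∏ p ∈ x.1.primeFactors, f p) * ∏ p ∈ x.2.primeFactors, f p ≤
    ∏ p ∈ m.primeFactors, (f p * (1 + f p) + f p) := by
  classical
  rw [dbl]
  have hl : ∀ x ∈ (K ×ˢ K).filter (fun x => Nat.lcm x.1 x.2 = m),
      Squarefree x.1 ∧ Squarefree x.2 ∧ m.primeFactors = x.1.primeFactors ∪ x.2.primeFactors := by
    intro x hx
    rw [mem_filter, mem_product] at hx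
    refine ⟨hK _ hx.1.1, hK _ hx.1.2, ?_⟩
    rw [← hx.2]
    exact pf_lcm (hK _ hx.1.1).ne_zero (hK _ hx.1.2).ne_zero
  let e : ℕ × ℕ → (_ : Finset ℕ) × Finset ℕ :=
    fun x => ⟨x.1.primeFactors, x.1.primeFactors ∩ x.2.primeFactors⟩
  have hval : ∀ x ∈ (K ×ˢ K).filter (fun x => Nat.lcm x.1 x.2 = m),
      x.2.primeFactors = (m.primeFactors \ x.1.primeFactors) ∪
        (x.1.primeFactors ∩ x.2.primeFactors) := by
    intro x hx
    rw [(hl x hx).2.2]
    ext p
    simp only [mem_union, mem_sdiff, mem_inter]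
    tauto
  have hinj : Set.InjOn e ((K ×ˢ K).filter (fun x => Nat.lcm x.1 x.2 = m) : Set (ℕ × ℕ)) := by
    intro x hx y hy hxy
    have hx' := mem_coe.1 hx
    have hy' := mem_coe.1 hy
    simp only [e, Sigma.mk.injEq] at hxy
    obtain ⟨h1, h2⟩ := hxy
    have h2' := eq_of_heq h2
    have h3 : x.2.primeFactors = y.2.primeFactors := by
      rw [hval x hx', hval y hy', h2', h1]
    apply Prod.ext
    · rw [← Nat.prod_primeFactors_of_squarefree (hl x hx').1, h1,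
        Nat.prod_primeFactors_of_squarefree (hl y hy').1]
    · rw [← Nat.prod_primeFactors_of_squarefree (hl x hx').2.1, h3,
        Nat.prod_primeFactors_of_squarefree (hl y hy').2.1]
  have h1 : ∑ x ∈ (K ×ˢ K).filter (fun x => Nat.lcm x.1 x.2 = m),
      (∏ p ∈ x.1.primeFactors, f p) * ∏ p ∈ x.2.primeFactors, f p =
      ∑ y ∈ ((K ×ˢ K).filter (fun x => Nat.lcm x.1 x.2 = m)).image e,
        (∏ p ∈ y.1, f p) * (∏ p ∈ y.2, f p) * ∏ p ∈ m.primeFactors \ y.1, f p := by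
    rw [sum_image hinj]
    apply sum_congr rfl
    intro x hx
    simp only [e]
    rw [mul_assoc]
    congr 1
    nth_rewrite 1 [hval x hx]
    rw [prod_union, mul_comm]
    rw [disjoint_left]
    intro p hp hp'
    rw [mem_sdiff] at hp
    rw [mem_inter] at hp'
    exact hp.2 hp'.1
  rw [h1]
  apply sum_le_sum_of_subset_of_nonneg
  · intro y hy
    rw [mem_image] at hy
    obtain ⟨x, hx, rfl⟩ := hy
    simp only [e, mem_sigma, mem_powerset]
    refine ⟨?_, inter_subset_left⟩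
    rw [(hl x hx).2.2]
    exact subset_union_left
  · intro y hy _
    rw [mem_sigma, mem_powerset, mem_powerset] at hy
    refine mul_nonneg (mul_nonneg ?_ ?_) ?_
    · exact prod_nonneg fun p hp => f_nonneg (Nat.prime_of_mem_primeFactors (hy.1 hp))
    · exact prod_nonneg fun p hp => f_nonneg (Nat.prime_of_mem_primeFactors (hy.1 (hy.2 hp)))
    · exact prod_nonneg fun p hp =>
        f_nonneg (Nat.prime_of_mem_primeFactors ((mem_sdiff.1 hp).1))

theorem le_g (m : ℕ) (hm : ∀ p ∈ m.primeFactors, 3 ≤ p) :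
    ∏ p ∈ m.primeFactors, (f p * (1 + f p) + f p) ≤ g m := by
  unfold g
  apply prod_le_prod
  · intro p hp
    have := f_nonneg (Nat.prime_of_mem_primeFactors hp)
    positivity
  · intro p hp
    have h3 : (3 : ℝ) ≤ p := by exact_mod_cast hm p hp
    unfold f
    have h1 : (0 : ℝ) < (p : ℝ) - 1 := by linarith
    have h2 : (0 : ℝ) < (p : ℝ) - 2 := by linarith
    have e : 1 / ((p : ℝ) - 1) * (1 + 1 / ((p : ℝ) - 1)) + 1 / ((p : ℝ) - 1) =
        (2 * p - 1) / ((p : ℝ) - 1) ^ 2 := by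
      field_simp
      ring
    rw [e, div_le_div_iff₀ (by positivity) h2]
    nlinarith

theorem sqf_lcm {a b : ℕ} (ha : Squarefree a) (hb : Squarefree b) : Squarefree (Nat.lcm a b) := by
  have h0 : Nat.lcm a b ≠ 0 := Nat.lcm_ne_zero ha.ne_zero hb.ne_zero
  rw [Nat.squarefree_iff_factorization_le_one h0]
  intro p
  rw [Nat.factorization_lcm ha.ne_zero hb.ne_zero, Finsupp.sup_apply]
  exact sup_le (ha.natFactorization_le_one p) (hb.natFactorization_le_one p)

end GSU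

open GSU in
theorem gsu : S_GSU := by
  classical
  intro q s R hq hs hR
  obtain ⟨K, hK⟩ : ∃ K, K = (Icc 1 s).filter (fun k => Squarefree k ∧ Nat.Coprime (2 * q) k) :=
    ⟨_, rfl⟩
  have hKm : ∀ k ∈ K, 1 ≤ k ∧ k ≤ s ∧ Squarefree k ∧ Nat.Coprime (2 * q) k := by
    intro k hk
    rw [hK, mem_filter, mem_Icc] at hk
    exact ⟨hk.1.1, hk.1.2, hk.2⟩
  have h2q : (0 : ℝ) < ((2 * q : ℕ) : ℝ) := by exact_mod_cast (by omega : 0 < 2 * q)
  have hphi : (0 : ℝ) < ((Nat.totient (2 * q) : ℕ) : ℝ) := by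
    exact_mod_cast Nat.totient_pos.2 (by omega)
  have h1 : (Nat.totient (2 * q) : ℝ) / ((2 * q : ℕ) : ℝ) * Real.log s ≤
      ∑ k ∈ K, ∏ p ∈ k.primeFactors, f p := by
    have h2 := Pool.Agent.H482.WT.tot (2 * q) s (by omega) hs
    have h3 : ∑ k ∈ (Icc 1 s).filter (fun k => Squarefree k ∧ Nat.Coprime (2 * q) k),
        ((2 * q : ℕ) : ℝ) / (Nat.totient (2 * q * k) : ℝ) =
        ((2 * q : ℕ) : ℝ) / (Nat.totient (2 * q) : ℝ) * ∑ k ∈ K, ∏ p ∈ k.primeFactors, f p := by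
      rw [← hK, mul_sum]
      apply sum_congr rfl
      intro k hk
      obtain ⟨h4, h5, h6, h7⟩ := hKm k hk
      rw [Nat.totient_mul h7, ← tot_prod k h6, Nat.cast_mul (Nat.totient (2 * q)) (Nat.totient k),
        div_mul_div_comm, mul_one]
    rw [h3] at h2
    calc (Nat.totient (2 * q) : ℝ) / ((2 * q : ℕ) : ℝ) * Real.log s ≤
        (Nat.totient (2 * q) : ℝ) / ((2 * q : ℕ) : ℝ) * (((2 * q : ℕ) : ℝ) /
          (Nat.totient (2 * q) : ℝ) * ∑ k ∈ K, ∏ p ∈ k.primeFactors, f p) :=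
          mul_le_mul_of_nonneg_left h2 (by positivity)
      _ = _ := by
          field_simp
  have h0 : 0 ≤ (Nat.totient (2 * q) : ℝ) / ((2 * q : ℕ) : ℝ) * Real.log s :=
    mul_nonneg (by positivity) (Real.log_nonneg (by exact_mod_cast hs))
  refine (pow_le_pow_left₀ h0 h1 2).trans ?_
  rw [sq, sum_mul_sum, ← sum_product']
  have hmaps : ∀ x ∈ K ×ˢ K, Nat.lcm x.1 x.2 ∈
      (Icc 1 R).filter (fun m => Squarefree m ∧ Nat.Coprime (2 * q) m) := by
    intro x hx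
    rw [mem_product] at hx
    obtain ⟨a1, a2, a3, a4⟩ := hKm _ hx.1
    obtain ⟨b1, b2, b3, b4⟩ := hKm _ hx.2
    rw [mem_filter, mem_Icc]
    refine ⟨⟨Nat.lcm_pos (by omega) (by omega), ?_⟩, sqf_lcm a3 b3, ?_⟩
    · have h2 : Nat.lcm x.1 x.2 ≤ x.1 * x.2 :=
        Nat.le_of_dvd (Nat.mul_pos (by omega) (by omega)) (Nat.lcm_dvd_mul _ _)
      exact (h2.trans (Nat.mul_le_mul a2 b2)).trans hR
    · exact Nat.Coprime.coprime_dvd_right (Nat.lcm_dvd_mul _ _) (Nat.Coprime.mul_right a4 b4)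
  rw [← sum_fiberwise_of_maps_to hmaps]
  apply sum_le_sum
  intro m hm
  rw [mem_filter, mem_Icc] at hm
  refine (fibre K (fun k hk => (hKm k hk).2.2.1) m).trans (le_g m ?_)
  intro p hp
  have hpp := Nat.prime_of_mem_primeFactors hp
  have h2 : p ≠ 2 := by
    rintro rfl
    have h3 : (2 : ℕ) ∣ m := Nat.dvd_of_mem_primeFactors hp
    have h4 : (2 : ℕ) ∣ Nat.gcd (2 * q) m := Nat.dvd_gcd (Nat.dvd_mul_right 2 q) h3
    rw [hm.2.2] at h4
    omega
  have := hpp.two_le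
  omega

end Pool.Agent.H482.AP
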