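import Mathlib
import Pool.Agent.H482.AP.Stm

set_option autoImplicit false

namespace Pool.Agent.H482.AP

open Finset

open Pool.Agent.Y855 (TT MI Bad Exc LF)

namespace HBPx

theorem exc_bound (k m₀ : ℕ) (hk : 1 ≤ k) (x r : ℕ) (hx : 1 ≤ x) (hr : 2 ≤ r) (hr4 : r ≤ 4 * k)
    (M : Finset ℤ) (h0 : ∀ n ∈ M, n ≠ 0) (hM : MI M) (H : ℕ) (hH1 : 1 ≤ H) (hHx : H ≤ x)
    (hH : ∀ n ∈ M, n.natAbs ≤ H) (hMc : M.card ≤ m₀) :
    ((Exc x r M).card : ℝ) ≤
      12 * k * (5 * ((m₀ : ℝ) + 1)) ^ (4 * k) * ((Nat.log 2 x : ℝ) + 1) *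
        (x : ℝ) ^ (1 - 1 / (4 * (k : ℝ))) := by
  have hx1 : (1 : ℝ) ≤ x := by exact_mod_cast hx
  have hx0 : (0 : ℝ) < x := by linarith
  have hr0 : (0 : ℝ) < r := by exact_mod_cast (by omega : 0 < r)
  have hr2 : (2 : ℝ) ≤ r := by exact_mod_cast hr
  have hk0 : (0 : ℝ) < k := by exact_mod_cast (by omega : 0 < k)
  have hr4' : (r : ℝ) ≤ 4 * k := by exact_mod_cast hr4
  set θ : ℝ := ((r : ℝ) - 2) / ((r : ℝ) * r) with hθ
  have hθ0 : 0 ≤ θ := div_nonneg (by linarith) (by positivity)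
  set y : ℝ := (x : ℝ) ^ θ with hy
  have hy1 : 1 ≤ y := Real.one_le_rpow hx1 hθ0
  have hy0 : 0 < y := by linarith
  set A : ℕ := ⌊y⌋₊ + 1 with hA
  have hyA : y < A := by rw [hA]; push_cast; exact Nat.lt_floor_add_one y
  have hA2 : (A : ℝ) ≤ 2 * y := by
    rw [hA]; push_cast
    have := Nat.floor_le (by linarith : 0 ≤ y)
    linarith
  have hA1 : (1 : ℝ) ≤ A := by linarith
  have hcond : x ^ (r - 2) < A ^ (r * r) := by
    have h1 : ((x : ℝ)) ^ (r - 2) = y ^ (r * r) := by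
      rw [hy, ← Real.rpow_natCast, ← Real.rpow_natCast, ← Real.rpow_mul hx0.le]
      congr 1
      push_cast [Nat.cast_sub hr]
      rw [hθ]
      field_simp
    have h2 : y ^ (r * r) < (A : ℝ) ^ (r * r) :=
      pow_lt_pow_left₀ hyA (by linarith) (by positivity)
    rw [← h1] at h2
    exact_mod_cast h2
  have h1 := Pool.Agent.Y855.Exc_card x r hx hr M h0 hM H A hH1 hH hcond
  have h2 : ((Exc x r M).card : ℝ) ≤
      (M.card : ℝ) ^ r * ((2 * (A : ℝ) + 1) ^ r * (1 + ((Nat.log 2 H : ℝ) + 1) * (r * A))) := by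
    exact_mod_cast h1
  have h3 : (M.card : ℝ) ≤ (m₀ : ℝ) + 1 := by
    have : (M.card : ℝ) ≤ m₀ := by exact_mod_cast hMc
    linarith
  set l : ℝ := (Nat.log 2 x : ℝ) + 1 with hl
  have hl1 : 1 ≤ l := by
    have : (0 : ℝ) ≤ (Nat.log 2 x : ℝ) := Nat.cast_nonneg _
    linarith
  have h4 : (Nat.log 2 H : ℝ) + 1 ≤ l := by
    have : Nat.log 2 H ≤ Nat.log 2 x := Nat.log_mono_right hHx
    have : (Nat.log 2 H : ℝ) ≤ (Nat.log 2 x : ℝ) := by exact_mod_cast this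
    linarith
  have h5 : (2 * (A : ℝ) + 1) ≤ 5 * y := by linarith
  have h6 : 1 + ((Nat.log 2 H : ℝ) + 1) * (r * A) ≤ 3 * r * l * y := by
    have h7 : ((Nat.log 2 H : ℝ) + 1) * (r * A) ≤ l * (r * (2 * y)) := by
      apply mul_le_mul h4 _ (by positivity) (by positivity)
      exact mul_le_mul_of_nonneg_left hA2 hr0.le
    have h8 : (1 : ℝ) ≤ r * l * y := by
      have h9 : (1 : ℝ) ≤ r * l := by nlinarith
      nlinarith
    nlinarith
  have h7 : (M.card : ℝ) ^ r * ((2 * (A : ℝ) + 1) ^ r * (1 + ((Nat.log 2 H : ℝ) + 1) * (r * A))) ≤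
      ((m₀ : ℝ) + 1) ^ r * ((5 * y) ^ r * (3 * r * l * y)) := by
    gcongr
  have h8 : ((m₀ : ℝ) + 1) ^ r * ((5 * y) ^ r * (3 * r * l * y)) =
      3 * r * (5 * ((m₀ : ℝ) + 1)) ^ r * l * y ^ (r + 1) := by
    rw [mul_pow, mul_pow, pow_succ]
    ring
  have h9 : y ^ (r + 1) ≤ (x : ℝ) ^ (1 - 1 / (4 * (k : ℝ))) := by
    rw [hy, ← Real.rpow_natCast, ← Real.rpow_mul hx0.le]
    refine Real.rpow_le_rpow_of_exponent_le hx1 ?_
    have e1 : θ * ((r + 1 : ℕ) : ℝ) = 1 - 1 / r - 2 / (r * r) := by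
      rw [hθ]
      push_cast
      field_simp
      ring
    rw [e1]
    have e2 : 1 / (4 * (k : ℝ)) ≤ 1 / r := one_div_le_one_div_of_le hr0 hr4'
    have e3 : 0 ≤ 2 / ((r : ℝ) * r) := by positivity
    linarith
  have h10 : (5 * ((m₀ : ℝ) + 1)) ^ r ≤ (5 * ((m₀ : ℝ) + 1)) ^ (4 * k) := by
    refine pow_le_pow_right₀ ?_ hr4
    have : (0 : ℝ) ≤ m₀ := Nat.cast_nonneg _
    linarith
  calc ((Exc x r M).card : ℝ) ≤ 3 * r * (5 * ((m₀ : ℝ) + 1)) ^ r * l * y ^ (r + 1) := by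
        rw [← h8]; exact h2.trans h7
    _ ≤ 3 * (4 * k) * (5 * ((m₀ : ℝ) + 1)) ^ (4 * k) * l *
        (x : ℝ) ^ (1 - 1 / (4 * (k : ℝ))) := by
      gcongr
    _ = _ := by ring

/-- the number of the large prime factors of `p - 1` -/
theorem LF_card {x z p K : ℕ} (hz : 2 ≤ z) (hp : p ∈ TT x z) (hx : x ≤ z ^ K) :
    (LF z p).card ≤ K := by
  unfold TT at hp
  rw [mem_filter, mem_Icc] at hp
  obtain ⟨⟨_, hpx⟩, hpp, -⟩ := hp
  have h2 := hpp.two_le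
  have hp1 : p - 1 ≠ 0 := by omega
  have h1 : ∏ l ∈ LF z p, l ∣ p - 1 := by
    refine dvd_trans ?_ (Nat.prod_primeFactors_dvd (p - 1))
    exact Finset.prod_dvd_prod_of_subset _ _ _ (Finset.filter_subset _ _)
  have h3 : ∏ l ∈ LF z p, l ≤ p - 1 := Nat.le_of_dvd (by omega) h1
  have h4 : z ^ (LF z p).card ≤ ∏ l ∈ LF z p, l := by
    rw [← Finset.prod_const]
    refine Finset.prod_le_prod' fun l hl => ?_
    unfold LF at hl
    rw [mem_filter] at hl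
    exact hl.2.le
  have h5 : z ^ (LF z p).card < z ^ K := by omega
  exact ((Nat.pow_lt_pow_iff_right (by omega)).1 h5).le

theorem first_part (k x z : ℕ) (hz : 2 ≤ z) (hx : 1 ≤ x) (hxz : x ≤ z ^ (2 * k)) :
    ∑ p ∈ TT x z, ∑ l ∈ LF z p, 2 * Real.log x / Real.log l ≤
      8 * (k : ℝ) ^ 2 * ((TT x z).card : ℝ) := by
  have hz0 : (0 : ℝ) < z := by exact_mod_cast (by omega : 0 < z)
  have hlz : 0 < Real.log z := Real.log_pos (by exact_mod_cast (by omega : 1 < z))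
  have hx0 : (0 : ℝ) < x := by exact_mod_cast (by omega : 0 < x)
  have hlx : Real.log x ≤ 2 * k * Real.log z := by
    have h1 : (x : ℝ) ≤ (z : ℝ) ^ (2 * k) := by exact_mod_cast hxz
    have h2 := Real.log_le_log hx0 h1
    rw [Real.log_pow] at h2
    push_cast at h2
    exact h2
  have h1 : ∀ p ∈ TT x z, ∑ l ∈ LF z p, 2 * Real.log x / Real.log l ≤ 8 * (k : ℝ) ^ 2 := by
    intro p hp
    have h2 : ∀ l ∈ LF z p, 2 * Real.log x / Real.log l ≤ 4 * k := by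
      intro l hl
      unfold LF at hl
      rw [mem_filter] at hl
      have h3 : Real.log z ≤ Real.log l :=
        Real.log_le_log hz0 (by exact_mod_cast hl.2.le)
      rw [div_le_iff₀ (hlz.trans_le h3)]
      have h4 : (4 * (k : ℝ)) * Real.log z ≤ 4 * k * Real.log l :=
        mul_le_mul_of_nonneg_left h3 (by positivity)
      linarith
    have h3 := Finset.sum_le_card_nsmul _ _ _ h2
    rw [nsmul_eq_mul] at h3
    have h4 : ((LF z p).card : ℝ) ≤ 2 * k := by exact_mod_cast LF_card hz hp hxz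
    calc ∑ l ∈ LF z p, 2 * Real.log x / Real.log l ≤ ((LF z p).card : ℝ) * (4 * k) := h3
      _ ≤ (2 * k) * (4 * k) := mul_le_mul_of_nonneg_right h4 (by positivity)
      _ = 8 * (k : ℝ) ^ 2 := by ring
  have h2 := Finset.sum_le_card_nsmul _ _ _ h1
  rw [nsmul_eq_mul] at h2
  linarith

theorem log_part (k x : ℕ) (hk : 1 ≤ k) (hx : 1 ≤ x) :
    (Nat.log 2 x : ℝ) + 1 ≤ (32 * k + 1) * (x : ℝ) ^ (1 / (16 * (k : ℝ))) := by
  have hk0 : (0 : ℝ) < k := by exact_mod_cast (by omega : 0 < k)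
  have hx1 : (1 : ℝ) ≤ x := by exact_mod_cast hx
  have h1 : (Nat.log 2 x : ℝ) ≤ 2 * Real.log x := by
    have h2 := Real.natLog_le_logb x 2
    rw [Real.logb] at h2
    have h3 : (0.6931471803 : ℝ) < Real.log 2 := Real.log_two_gt_d9
    have h4 : 0 ≤ Real.log x := Real.log_nonneg hx1
    refine h2.trans ?_
    push_cast
    rw [div_le_iff₀ (by linarith)]
    nlinarith
  have h2 := Real.log_natCast_le_rpow_div x (ε := 1 / (16 * (k : ℝ))) (by positivity)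
  rw [div_div_eq_mul_div, div_one] at h2
  have h3 : 1 ≤ (x : ℝ) ^ (1 / (16 * (k : ℝ))) := Real.one_le_rpow hx1 (by positivity)
  nlinarith

end HBPx

open HBPx in
theorem hbp : S_HBP := by
  intro k m₀ hk
  set C : ℕ := m₀ * (4 * k * (12 * k * (5 * (m₀ + 1)) ^ (4 * k))) * (32 * k + 1) with hC
  refine ⟨max 3 (C ^ (16 * k)), le_max_left _ _, ?_⟩
  intro x hx z hz hxz H hH1 hHx M hM hMI hMc
  have hx3 : 3 ≤ x := (le_max_left _ _).trans hx
  have hxC : C ^ (16 * k) ≤ x := (le_max_right _ _).trans hx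
  have hk0 : (0 : ℝ) < k := by exact_mod_cast (by omega : 0 < k)
  have hx1 : (1 : ℝ) ≤ x := by exact_mod_cast (by omega : 1 ≤ x)
  have hx0 : (0 : ℝ) < x := by linarith
  have hR : x ^ 2 ≤ z ^ (4 * k) := by
    have h1 := Nat.pow_le_pow_left hxz 2
    rw [← pow_mul] at h1
    refine h1.trans (le_of_eq ?_)
    congr 1
    ring
  have h1 := Pool.Agent.Y855.bad_sum M x z (4 * k) H hx3 hz hR (fun n hn => (hM n hn).1)
    (fun n hn => (hM n hn).2)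
  refine h1.trans (add_le_add (first_part k x z hz (by omega) hxz) ?_)
  set l : ℝ := (Nat.log 2 x : ℝ) + 1 with hl
  have h2 : ∀ r ∈ Icc 2 (4 * k), ((Exc x r M).card : ℝ) ≤
      12 * k * (5 * ((m₀ : ℝ) + 1)) ^ (4 * k) * l * (x : ℝ) ^ (1 - 1 / (4 * (k : ℝ))) := by
    intro r hr
    rw [mem_Icc] at hr
    exact exc_bound k m₀ hk x r (by omega) hr.1 hr.2 M (fun n hn => (hM n hn).1) hMI H hH1 hHx
      (fun n hn => (hM n hn).2) hMc
  have h3 := Finset.sum_le_card_nsmul _ _ _ h2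
  rw [nsmul_eq_mul, Nat.card_Icc] at h3
  have h4 : ((4 * k + 1 - 2 : ℕ) : ℝ) ≤ 4 * k := by exact_mod_cast (by omega : 4 * k + 1 - 2 ≤ 4 * k)
  have hB0 : 0 ≤ 12 * k * (5 * ((m₀ : ℝ) + 1)) ^ (4 * k) * l *
      (x : ℝ) ^ (1 - 1 / (4 * (k : ℝ))) := by positivity
  have h5 : ∑ r ∈ Icc 2 (4 * k), ((Exc x r M).card : ℝ) ≤ 4 * k *
      (12 * k * (5 * ((m₀ : ℝ) + 1)) ^ (4 * k) * l * (x : ℝ) ^ (1 - 1 / (4 * (k : ℝ)))) :=
    h3.trans (mul_le_mul_of_nonneg_right h4 hB0)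
  have h6 : (M.card : ℝ) ≤ m₀ := by exact_mod_cast hMc
  have h7 : (M.card : ℝ) * ∑ r ∈ Icc 2 (4 * k), ((Exc x r M).card : ℝ) ≤ m₀ * (4 * k *
      (12 * k * (5 * ((m₀ : ℝ) + 1)) ^ (4 * k) * l * (x : ℝ) ^ (1 - 1 / (4 * (k : ℝ))))) :=
    mul_le_mul h6 h5 (Finset.sum_nonneg fun _ _ => Nat.cast_nonneg _) (Nat.cast_nonneg _)
  refine h7.trans ?_
  have h8 := log_part k x hk (by omega)
  rw [← hl] at h8
  -- the size of `x`
  have h9 : (C : ℝ) ≤ (x : ℝ) ^ (1 / (16 * (k : ℝ))) := by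
    have e1 : ((C : ℝ) ^ (16 * k)) ^ (1 / (16 * (k : ℝ))) = C := by
      have e2 : (1 / (16 * (k : ℝ))) = (((16 * k : ℕ) : ℝ))⁻¹ := by
        push_cast
        rw [one_div]
      rw [e2]
      exact Real.pow_rpow_inv_natCast (Nat.cast_nonneg _) (by omega)
    rw [← e1]
    refine Real.rpow_le_rpow (by positivity) ?_ (by positivity)
    exact_mod_cast hxC
  have hsplit : (x : ℝ) ^ (1 - 1 / (8 * (k : ℝ))) =
      (x : ℝ) ^ (1 / (16 * (k : ℝ))) * (x : ℝ) ^ (1 / (16 * (k : ℝ))) *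
        (x : ℝ) ^ (1 - 1 / (4 * (k : ℝ))) := by
    rw [← Real.rpow_add hx0, ← Real.rpow_add hx0]
    congr 1
    field_simp
    ring
  rw [hsplit]
  set X := (x : ℝ) ^ (1 / (16 * (k : ℝ))) with hX
  set Y := (x : ℝ) ^ (1 - 1 / (4 * (k : ℝ))) with hY
  have hX0 : 0 ≤ X := by positivity
  have hY0 : 0 ≤ Y := by positivity
  have h10 : (C : ℝ) = m₀ * (4 * k * (12 * k * (5 * ((m₀ : ℝ) + 1)) ^ (4 * k))) * (32 * k + 1) := by
    rw [hC]
    push_cast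
    ring
  calc (m₀ : ℝ) * (4 * k * (12 * k * (5 * ((m₀ : ℝ) + 1)) ^ (4 * k) * l * Y))
      ≤ (m₀ : ℝ) * (4 * k * (12 * k * (5 * ((m₀ : ℝ) + 1)) ^ (4 * k) *
        ((32 * k + 1) * X) * Y)) := by gcongr
    _ = C * X * Y := by rw [h10]; ring
    _ ≤ X * X * Y := by gcongr

end Pool.Agent.H482.AP
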