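import Pool.Agent.H482.AP.Stm

/-! # Project AP (helper482), task IND (helper166) -/

set_option autoImplicit false

namespace Pool.Agent.H482.AP

open Finset

open Pool.Agent.Helper112 (ee)

namespace Ind

theorem red_one : red 1 = {0} := by
  unfold red
  decide

theorem ee_nat_add (n : ℕ) (s t : ℝ) : ee ((n : ℝ) * (s + t)) = ee ((n : ℝ) * s) * ee ((n : ℝ) * t) := by
  rw [mul_add, Pool.Agent.Helper112.ls_ee_add]

/-- splitting off one prime -/
theorem split (h2 : S_TWO) (N p M : ℕ) (b : ℕ → ℂ) (hp : 1 ≤ p) (hM : 1 ≤ M)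
    (hc : p.Coprime M) :
    AS N b (p * M) = ∑ d ∈ red M, AS N (fun n => b n * ee ((n : ℝ) * ((d : ℝ) / M))) p := by
  have hF : ∀ t : ℝ, (fun t : ℝ => ‖∑ n ∈ Icc 1 N, b n * ee ((n : ℝ) * t)‖ ^ 2) (t + 1) =
      (fun t : ℝ => ‖∑ n ∈ Icc 1 N, b n * ee ((n : ℝ) * t)‖ ^ 2) t := by
    intro t
    simp only
    congr 2
    refine sum_congr rfl (fun n _ => ?_)
    rw [ee_nat_add, mul_one, Pool.Agent.Helper112.ls_ee_nat, mul_one]
  have h := h2 (fun t : ℝ => ‖∑ n ∈ Icc 1 N, b n * ee ((n : ℝ) * t)‖ ^ 2) hF p M hp hM hc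
  have h1 : AS N b (p * M) = ∑ a ∈ red (p * M),
      ‖∑ n ∈ Icc 1 N, b n * ee ((n : ℝ) * ((a : ℝ) / ((p * M : ℕ) : ℝ)))‖ ^ 2 := by
    unfold AS
    refine sum_congr rfl (fun a _ => ?_)
    congr 2
    refine sum_congr rfl (fun n _ => ?_)
    rw [mul_div_assoc]
  rw [h1, h, sum_comm]
  refine sum_congr rfl (fun d _ => ?_)
  unfold AS
  refine sum_congr rfl (fun c _ => ?_)
  congr 2
  refine sum_congr rfl (fun n _ => ?_)
  rw [ee_nat_add, mul_assoc, mul_div_assoc]
  congr 1
  rw [mul_comm]

theorem jac_norm_factor (n p D : ℕ) (hp : p ≠ 0) (hD : D ≠ 0) :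
    ((jacobiSym n (p * D) : ℤ) : ℂ) = ((jacobiSym n p : ℤ) : ℂ) * ((jacobiSym n D : ℤ) : ℂ) := by
  have : NeZero p := ⟨hp⟩
  have : NeZero D := ⟨hD⟩
  rw [jacobiSym.mul_right]
  push_cast
  rfl

theorem g_mul (p m : ℕ) (hp : p.Prime) (hc : p.Coprime m) (hm : m ≠ 0) :
    g (p * m) = 2 / ((p : ℝ) - 2) * g m := by
  unfold g
  rw [Nat.primeFactors_mul hp.ne_zero hm, hp.primeFactors, prod_union, prod_singleton]
  rw [disjoint_singleton_left]
  intro h
  have := Nat.dvd_of_mem_primeFactors h
  exact hp.one_lt.ne' (Nat.eq_one_of_dvd_coprimes hc dvd_rfl this)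

end Ind

open Ind in
theorem ind (h2 : S_TWO) (hM : S_MON) (hL : S_LEG) : S_IND := by
  intro D m N b
  induction hk : D * m using Nat.strong_induction_on generalizing D m b with
  | _ k ih =>
    intro hD hDo hm hmo hDm hb
    rw [← hk]
    have hD0 : D ≠ 0 := hD.ne_zero
    have hm0 : m ≠ 0 := hm.ne_zero
    by_cases hm1 : m = 1
    · subst hm1
      by_cases hD1 : D = 1
      · subst hD1
        unfold g AS
        rw [Nat.primeFactors_one, prod_empty, one_mul, mul_one, red_one, sum_singleton]
        apply le_of_eq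
        congr 2
        refine sum_congr rfl (fun n _ => ?_)
        rw [jacobiSym.one_right]
        simp [Pool.Agent.Helper112.ls_ee_zero]
      · -- split a prime of D
        have hp : (D.minFac).Prime := Nat.minFac_prime hD1
        obtain ⟨p, hpd⟩ : ∃ p, p = D.minFac := ⟨_, rfl⟩
        obtain ⟨D', hD'⟩ : ∃ D', D = p * D' := by
          rw [hpd]
          exact Nat.minFac_dvd D
        rw [← hpd] at hp
        clear hpd
        subst hD'
        have hD'0 : D' ≠ 0 := right_ne_zero_of_mul hD0
        have hsq := (Nat.squarefree_mul_iff).1 hD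
        have hpo : Odd p := (Nat.odd_mul.1 hDo).1
        have hp3 : 3 ≤ p := by
          have := hp.two_le
          rcases Nat.lt_or_ge p 3 with h | h
          · have : p = 2 := by omega
            rw [this] at hpo
            exact absurd hpo (by decide)
          · exact h
        have e1 : p * D' * 1 = p * D' := mul_one _
        rw [e1, split h2 N p D' b (by omega) (by omega) hsq.1]
        have e2 : ∀ d ∈ red D', ‖∑ n ∈ Icc 1 N, (b n * ((jacobiSym n p : ℤ) : ℂ)) *
            ee ((n : ℝ) * d / D')‖ ^ 2 ≤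
            AS N (fun n => b n * ee ((n : ℝ) * ((d : ℝ) / D'))) p := by
          intro d _
          have h3 := hL p N (fun n => b n * ee ((n : ℝ) * ((d : ℝ) / D'))) hp hp3
          refine le_trans (le_of_eq ?_) h3
          congr 2
          refine sum_congr rfl (fun n _ => ?_)
          rw [mul_div_assoc]
          ring
        refine le_trans ?_ (sum_le_sum e2)
        have h4 := ih (D' * 1) (by
          rw [← hk, mul_one, mul_one]
          have : D' * 1 < D' * p := Nat.mul_lt_mul_of_pos_left (by omega) (by omega)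
          rw [mul_one, mul_comm D' p] at this
          exact this) D' 1 (fun n => b n * ((jacobiSym n p : ℤ) : ℂ)) rfl hsq.2.2
          (Nat.odd_mul.1 hDo).2 squarefree_one odd_one (Nat.coprime_one_right D')
          (by intro q hq; simp at hq)
        rw [mul_one] at h4
        refine le_trans (le_of_eq ?_) h4
        congr 3
        refine sum_congr rfl (fun n _ => ?_)
        rw [jac_norm_factor n p D' hp.ne_zero hD'0]
        ring
    · have hp : (m.minFac).Prime := Nat.minFac_prime hm1
      obtain ⟨p, hpd⟩ : ∃ p, p = m.minFac := ⟨_, rfl⟩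
      obtain ⟨m', hm'⟩ : ∃ m', m = p * m' := by
        rw [hpd]
        exact Nat.minFac_dvd m
      rw [← hpd] at hp
      clear hpd
      subst hm'
      have hm'0 : m' ≠ 0 := right_ne_zero_of_mul hm0
      have hsq := (Nat.squarefree_mul_iff).1 hm
      have hpo : Odd p := (Nat.odd_mul.1 hmo).1
      have hp3 : 3 ≤ p := by
        have := hp.two_le
        rcases Nat.lt_or_ge p 3 with h | h
        · have : p = 2 := by omega
          rw [this] at hpo
          exact absurd hpo (by decide)
        · exact h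
      have hDp : D.Coprime p := hDm.coprime_mul_right_right
      have hDm' : D.Coprime m' := hDm.coprime_mul_left_right
      have e1 : D * (p * m') = p * (D * m') := by ring
      have hcM : p.Coprime (D * m') := Nat.Coprime.mul_right hDp.symm hsq.1
      have hM1 : 1 ≤ D * m' := Nat.one_le_iff_ne_zero.2 (mul_ne_zero hD0 hm'0)
      rw [e1, split h2 N p (D * m') b (by omega) hM1 hcM]
      have hp2 : (0 : ℝ) ≤ 2 / ((p : ℝ) - 2) := by
        have : (3 : ℝ) ≤ p := by exact_mod_cast hp3
        apply div_nonneg (by norm_num)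
        linarith
      have hbp : ∀ n ∈ Icc 1 N, (n % p = 0 ∨ n % p = 1) → b n = 0 :=
        hb p (Nat.mem_primeFactors.2 ⟨hp, dvd_mul_right p m', hm0⟩)
      have e2 : ∀ d ∈ red (D * m'), 2 / ((p : ℝ) - 2) * ‖∑ n ∈ Icc 1 N, b n *
          ee ((n : ℝ) * d / ((D * m' : ℕ) : ℝ))‖ ^ 2 ≤
          AS N (fun n => b n * ee ((n : ℝ) * ((d : ℝ) / ((D * m' : ℕ) : ℝ)))) p := by
        intro d _
        have h3 := hM p N (fun n => b n * ee ((n : ℝ) * ((d : ℝ) / ((D * m' : ℕ) : ℝ)))) hp hp3
          (fun n hn h => by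
            rw [hbp n hn h, zero_mul])
        refine le_trans (le_of_eq ?_) h3
        congr 3
        refine sum_congr rfl (fun n _ => ?_)
        rw [mul_div_assoc]
      refine le_trans ?_ (sum_le_sum e2)
      rw [← mul_sum, g_mul p m' hp hsq.1 hm'0, mul_assoc]
      apply mul_le_mul_of_nonneg_left _ hp2
      have h4 := ih (D * m') (by
        rw [← hk, e1]
        have : 1 * (D * m') < p * (D * m') := Nat.mul_lt_mul_of_pos_right (by omega) (by omega)
        rw [one_mul] at this
        exact this) D m' b rfl hD hDo hsq.2.2 (Nat.odd_mul.1 hmo).2 hDm'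
        (fun q hq => hb q (by
          rw [Nat.primeFactors_mul hp.ne_zero hm'0]
          exact mem_union_right _ hq))
      exact h4

end Pool.Agent.H482.AP
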