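import Pool.Agent.H482.AP.Stm
import Pool.Graph.R_seed8.Helper112.MultLS

set_option autoImplicit false

namespace Pool.Agent.H482.AP

open Finset

open Pool.Agent.Helper112 (ee)

/-- the quadratic character modulo `p`, with complex values -/
noncomputable def legchi (p : ℕ) [Fact p.Prime] : DirichletCharacter ℂ p :=
  (quadraticChar (ZMod p)).ringHomComp (Int.castRingHom ℂ)

theorem legchi_apply (p : ℕ) [Fact p.Prime] (n : ℕ) :
    legchi p (n : ZMod p) = ((jacobiSym n p : ℤ) : ℂ) := by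
  unfold legchi
  rw [MulChar.ringHomComp_apply, ← jacobiSym.legendreSym.to_jacobiSym]
  unfold legendreSym
  push_cast
  rfl

theorem legchi_prim (p : ℕ) [Fact p.Prime] (hp : 3 ≤ p) : (legchi p).IsPrimitive := by
  have hne : legchi p ≠ 1 := by
    unfold legchi
    rw [MulChar.ringHomComp_ne_one_iff Int.cast_injective]
    apply quadraticChar_ne_one
    rw [ZMod.ringChar_zmod_n]
    omega
  rw [DirichletCharacter.isPrimitive_def]
  have hd : (legchi p).conductor ∣ p := (legchi p).conductor_dvd_level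
  rcases (Nat.dvd_prime (Fact.out : p.Prime)).1 hd with h | h
  · exfalso
    apply hne
    exact DirichletCharacter.eq_one_iff_conductor_eq_one.2 h
  · exact h

theorem leg : S_LEG := by
  classical
  intro p N b hp hp3
  have : Fact p.Prime := ⟨hp⟩
  have : NeZero p := ⟨hp.ne_zero⟩
  have h1 := Pool.Agent.Helper112.MLS.prim_bound p N b
  have h2 := Pool.Agent.Helper112.MLS.sum_units p N b
  have h3 : AS N b p = ∑ a : (ZMod p)ˣ, ‖Pool.Agent.Helper112.MLS.T p N b a‖ ^ 2 := by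
    rw [h2]
    rfl
  rw [h3]
  refine le_trans ?_ h1
  have h4 : ‖∑ n ∈ Icc 1 N, b n * ((jacobiSym n p : ℤ) : ℂ)‖ ^ 2 ≤
      ∑ χ ∈ (univ : Finset (DirichletCharacter ℂ p)).filter (fun χ => χ.IsPrimitive),
        ‖∑ n ∈ Icc 1 N, b n * χ (n : ZMod p)‖ ^ 2 := by
    have h5 : ‖∑ n ∈ Icc 1 N, b n * ((jacobiSym n p : ℤ) : ℂ)‖ ^ 2 =
        ‖∑ n ∈ Icc 1 N, b n * (legchi p) (n : ZMod p)‖ ^ 2 := by
      congr 2
      exact sum_congr rfl fun n _ => by rw [legchi_apply]
    rw [h5]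
    refine single_le_sum (f := fun χ : DirichletCharacter ℂ p =>
      ‖∑ n ∈ Icc 1 N, b n * χ (n : ZMod p)‖ ^ 2) (fun χ _ => by positivity) ?_
    rw [mem_filter]
    exact ⟨mem_univ _, legchi_prim p hp3⟩
  have h6 : (1 : ℝ) ≤ (p : ℝ) / (Nat.totient p : ℝ) := by
    have h7 : 0 < Nat.totient p := Nat.totient_pos.2 hp.pos
    rw [one_le_div (by exact_mod_cast h7)]
    exact_mod_cast Nat.totient_le p
  have h8 : 0 ≤ ∑ χ ∈ (univ : Finset (DirichletCharacter ℂ p)).filter (fun χ => χ.IsPrimitive),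
        ‖∑ n ∈ Icc 1 N, b n * χ (n : ZMod p)‖ ^ 2 := sum_nonneg fun χ _ => by positivity
  calc _ ≤ 1 * ∑ χ ∈ (univ : Finset (DirichletCharacter ℂ p)).filter (fun χ => χ.IsPrimitive),
        ‖∑ n ∈ Icc 1 N, b n * χ (n : ZMod p)‖ ^ 2 := by rw [one_mul]; exact h4
    _ ≤ _ := mul_le_mul_of_nonneg_right h6 h8

end Pool.Agent.H482.AP
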