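import Mathlib
import Pool.Agent.H482.AP.Stm

set_option autoImplicit false

namespace Pool.Agent.H482.AP

open Finset

open Pool.Agent.Helper112 (ee)

namespace LSAx

theorem AS_nonneg (N : ℕ) (b : ℕ → ℂ) (f : ℕ) : 0 ≤ AS N b f :=
  Finset.sum_nonneg fun _ _ => by positivity

theorem ALS (N Q : ℕ) (a : ℕ → ℂ) :
    ∑ f ∈ Icc 1 Q, AS N a f ≤ 6 * (N + (Q : ℝ) ^ 2) * ∑ n ∈ Icc 1 N, ‖a n‖ ^ 2 := by
  have h := Pool.Agent.Helper112.additive_large_sieve N Q a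
  unfold AS red
  exact h

end LSAx

open LSAx in
theorem lsa (h : S_IND) : S_LSA := by
  classical
  intro N Q R S a hS hsift
  set W := ∏ D ∈ S, D with hW
  set Ms := (Icc 1 R).filter (fun m => Squarefree m ∧ Nat.Coprime (2 * W) m) with hMs
  have hdvd : ∀ D ∈ S, D ∣ W := fun D hD => Finset.dvd_prod_of_mem _ hD
  have hm : ∀ m ∈ Ms, (1 ≤ m ∧ m ≤ R) ∧ Squarefree m ∧ Odd m ∧ Nat.Coprime m W := by
    intro m hm
    rw [hMs, Finset.mem_filter, Finset.mem_Icc] at hm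
    refine ⟨hm.1, hm.2.1, ?_, ?_⟩
    · have h1 := Nat.Coprime.coprime_mul_right hm.2.2
      exact (Nat.coprime_two_left).1 h1
    · exact (Nat.Coprime.coprime_mul_left hm.2.2).symm
  have h1 : ∀ m ∈ Ms, ∀ D ∈ S,
      g m * ‖∑ n ∈ Icc 1 N, a n * ((jacobiSym n D : ℤ) : ℂ)‖ ^ 2 ≤ AS N a (D * m) := by
    intro m hmm D hD
    obtain ⟨⟨h2, h3⟩, h4, h5, h6⟩ := hm m hmm
    obtain ⟨h7, h8, h9⟩ := hS D hD
    refine h D m N a h7 h8 h4 h5 ((h6.coprime_dvd_right (hdvd D hD)).symm) ?_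
    intro p hp n hn hpn
    have hpp := Nat.prime_of_mem_primeFactors hp
    have hpd := Nat.dvd_of_mem_primeFactors hp
    have hp2 : p ≠ 2 := by
      rintro rfl
      exact (Nat.not_even_iff_odd.2 h5) (even_iff_two_dvd.2 hpd)
    have hp3 : 3 ≤ p := by
      have := hpp.two_le
      omega
    exact hsift p hpp hp3 ((Nat.le_of_dvd h2 hpd).trans h3) n hn hpn
  have h2 : (∑ m ∈ Ms, g m) *
      ∑ D ∈ S, ‖∑ n ∈ Icc 1 N, a n * ((jacobiSym n D : ℤ) : ℂ)‖ ^ 2 ≤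
      ∑ x ∈ Ms ×ˢ S, AS N a (x.2 * x.1) := by
    rw [Finset.sum_mul_sum, Finset.sum_product]
    exact Finset.sum_le_sum fun m hmm => Finset.sum_le_sum fun D hD => h1 m hmm D hD
  have hinj : Set.InjOn (fun x : ℕ × ℕ => x.2 * x.1) (Ms ×ˢ S : Finset (ℕ × ℕ)) := by
    rintro ⟨m, D⟩ hx ⟨m', D'⟩ hx' hxx
    rw [Finset.mem_coe, Finset.mem_product] at hx hx'
    simp only at hx hx' hxx
    obtain ⟨-, -, -, h6⟩ := hm m hx.1
    obtain ⟨-, -, -, h6'⟩ := hm m' hx'.1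
    have e1 : Nat.gcd (D * m) W = D := by
      rw [Nat.Coprime.gcd_mul_right_cancel D h6]
      exact Nat.gcd_eq_left (hdvd D hx.2)
    have e2 : Nat.gcd (D' * m') W = D' := by
      rw [Nat.Coprime.gcd_mul_right_cancel D' h6']
      exact Nat.gcd_eq_left (hdvd D' hx'.2)
    have e3 : D = D' := by rw [← e1, ← e2, hxx]
    have hD0 : 0 < D := Nat.pos_of_ne_zero (hS D hx.2).1.ne_zero
    subst e3
    have e4 : m = m' := Nat.eq_of_mul_eq_mul_left hD0 hxx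
    rw [e4]
  have h3 : ∑ x ∈ Ms ×ˢ S, AS N a (x.2 * x.1) =
      ∑ f ∈ (Ms ×ˢ S).image (fun x : ℕ × ℕ => x.2 * x.1), AS N a f :=
    (Finset.sum_image hinj).symm
  have h4 : (Ms ×ˢ S).image (fun x : ℕ × ℕ => x.2 * x.1) ⊆ Icc 1 (Q * R) := by
    intro f hf
    rw [Finset.mem_image] at hf
    obtain ⟨⟨m, D⟩, hx, rfl⟩ := hf
    rw [Finset.mem_product] at hx
    obtain ⟨⟨h5, h6⟩, -, -, -⟩ := hm m hx.1
    obtain ⟨h7, -, h9⟩ := hS D hx.2
    have hD0 : 0 < D := Nat.pos_of_ne_zero h7.ne_zero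
    rw [Finset.mem_Icc]
    exact ⟨Nat.mul_pos hD0 h5, Nat.mul_le_mul h9 h6⟩
  refine h2.trans ?_
  rw [h3]
  exact (Finset.sum_le_sum_of_subset_of_nonneg h4 fun f _ _ => AS_nonneg N a f).trans
    (ALS N (Q * R) a)

end Pool.Agent.H482.AP
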