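import Pool.Agent.H482.AP.Stm
import Pool.Graph.R_seed8.Helper112.MultLS

/-! Project AP (helper482): task MON (helper997). -/

set_option autoImplicit false

namespace Pool.Agent.H482.AP

open Finset

open Pool.Agent.Helper112 (ee)

lemma mon_std (p : ℕ) [NeZero p] (a n : ℕ) :
    (ZMod.stdAddChar ((a : ZMod p) * (n : ZMod p)) : ℂ) = ee (n * a / p) := by
  have h := ZMod.stdAddChar_coe (N := p) ((a * n : ℕ) : ℤ)
  push_cast at h
  rw [h]
  unfold ee
  congr 1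
  push_cast
  ring

lemma mon_range (p : ℕ) [NeZero p] (G : ZMod p → ℝ) :
    ∑ n : ZMod p, G n = ∑ a ∈ range p, G (a : ZMod p) := by
  symm
  refine Finset.sum_nbij' (fun a => (a : ZMod p)) ZMod.val (fun _ _ => mem_univ _)
    (fun a _ => mem_range.2 (ZMod.val_lt a)) (fun a ha => ?_) (fun a _ => ?_) (fun _ _ => rfl)
  · exact ZMod.val_natCast_of_lt (mem_range.1 ha)
  · exact ZMod.natCast_zmod_val a

/-- task MON -/
theorem mon : S_MON := by
  intro p N b hp hp3 hb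
  have : NeZero p := ⟨hp.ne_zero⟩
  have : Fact p.Prime := ⟨hp⟩
  classical
  obtain ⟨Φ, hΦ⟩ : ∃ Φ : ZMod p → ℂ,
      ∀ c, Φ c = ∑ n ∈ (Icc 1 N).filter (fun n : ℕ => (n : ZMod p) = c), b n := ⟨_, fun _ => rfl⟩
  have h1 : ∀ a : ℕ, ∑ c : ZMod p, Φ c * ZMod.stdAddChar ((a : ZMod p) * c) =
      ∑ n ∈ Icc 1 N, b n * ee (n * a / p) := by
    intro a
    rw [← Finset.sum_fiberwise (Icc 1 N) (fun n : ℕ => (n : ZMod p))]
    refine Finset.sum_congr rfl fun c _ => ?_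
    rw [hΦ, Finset.sum_mul]
    refine Finset.sum_congr rfl fun n hn => ?_
    rw [← (Finset.mem_filter.1 hn).2, mon_std]
  have h2 := Pool.Agent.Helper112.MLS.parseval p Φ
  rw [mon_range] at h2
  simp only [h1] at h2
  have h3 : range p = insert 0 (red p) := by
    ext a
    unfold red
    rw [mem_insert, mem_filter, mem_range]
    constructor
    · intro ha
      rcases Nat.eq_zero_or_pos a with h | h
      · exact Or.inl h
      · exact Or.inr ⟨ha, ((Nat.Prime.coprime_iff_not_dvd hp).2 fun hd => absurd (Nat.le_of_dvd h hd) (not_le.2 ha)).symm⟩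
    · rintro (rfl | h)
      · exact hp.pos
      · exact h.1
  have h4 : (0 : ℕ) ∉ red p := by
    unfold red
    rw [mem_filter, Nat.coprime_zero_left]
    intro h
    exact hp.one_lt.ne' h.2
  rw [h3, sum_insert h4] at h2
  have h5 : ∑ n ∈ Icc 1 N, b n * ee (n * ((0 : ℕ) : ℝ) / p) = ∑ n ∈ Icc 1 N, b n := by
    refine Finset.sum_congr rfl fun n _ => ?_
    rw [Nat.cast_zero, mul_zero, zero_div, Pool.Agent.Helper112.ls_ee_zero, mul_one]
  rw [h5] at h2
  have h6 : ∑ c : ZMod p, Φ c = ∑ n ∈ Icc 1 N, b n := by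
    rw [← Finset.sum_fiberwise (Icc 1 N) (fun n : ℕ => (n : ZMod p))]
    exact Finset.sum_congr rfl fun c _ => hΦ c
  have h01 : (0 : ZMod p) ≠ 1 := zero_ne_one
  have h7 : Φ 0 = 0 := by
    rw [hΦ]
    refine Finset.sum_eq_zero fun n hn => ?_
    rw [mem_filter, ZMod.natCast_eq_zero_iff] at hn
    exact hb n hn.1 (Or.inl (Nat.mod_eq_zero_of_dvd hn.2))
  have h8 : Φ 1 = 0 := by
    rw [hΦ]
    refine Finset.sum_eq_zero fun n hn => ?_
    have h9 : ((n : ZMod p)) = ((1 : ℕ) : ZMod p) := by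
      rw [Nat.cast_one]
      exact (mem_filter.1 hn).2
    rw [ZMod.natCast_eq_natCast_iff, Nat.ModEq, Nat.mod_eq_of_lt hp.one_lt] at h9
    exact hb n (mem_filter.1 hn).1 (Or.inr h9)
  have h9 : ‖∑ n ∈ Icc 1 N, b n‖ ^ 2 ≤ ((p : ℝ) - 2) * ∑ c : ZMod p, ‖Φ c‖ ^ 2 := by
    have h10 : ∑ c : ZMod p, Φ c = ∑ c ∈ (univ \ {0, 1} : Finset (ZMod p)), Φ c := by
      rw [← Finset.sum_sdiff (Finset.subset_univ ({0, 1} : Finset (ZMod p))),
        Finset.sum_pair h01, h7, h8, add_zero, add_zero]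
    have h11 : ((univ \ {0, 1} : Finset (ZMod p)).card : ℝ) = (p : ℝ) - 2 := by
      rw [Finset.card_sdiff_of_subset (Finset.subset_univ _), Finset.card_univ, ZMod.card,
        Finset.card_pair h01, Nat.cast_sub (by omega)]
      norm_num
    rw [← h6, h10, ← h11]
    calc ‖∑ c ∈ (univ \ {0, 1} : Finset (ZMod p)), Φ c‖ ^ 2
        ≤ (∑ c ∈ (univ \ {0, 1} : Finset (ZMod p)), ‖Φ c‖) ^ 2 :=
          pow_le_pow_left₀ (norm_nonneg _) (norm_sum_le _ _) 2
      _ ≤ ((univ \ {0, 1} : Finset (ZMod p)).card : ℝ) *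
          ∑ c ∈ (univ \ {0, 1} : Finset (ZMod p)), ‖Φ c‖ ^ 2 := sq_sum_le_card_mul_sum_sq
      _ ≤ ((univ \ {0, 1} : Finset (ZMod p)).card : ℝ) * ∑ c : ZMod p, ‖Φ c‖ ^ 2 := by
          refine mul_le_mul_of_nonneg_left ?_ (Nat.cast_nonneg _)
          exact Finset.sum_le_sum_of_subset_of_nonneg (Finset.subset_univ _)
            fun _ _ _ => by positivity
  have hp2 : (0 : ℝ) < (p : ℝ) - 2 := by
    have : (3 : ℝ) ≤ p := by exact_mod_cast hp3
    linarith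
  have h12 : AS N b p = (p : ℝ) * ∑ c : ZMod p, ‖Φ c‖ ^ 2 - ‖∑ n ∈ Icc 1 N, b n‖ ^ 2 := by
    rw [← h2, add_sub_cancel_left]
    rfl
  rw [h12, div_mul_eq_mul_div, div_le_iff₀ hp2]
  have hp0 : (0 : ℝ) ≤ p := Nat.cast_nonneg _
  nlinarith [mul_le_mul_of_nonneg_left h9 hp0]

end Pool.Agent.H482.AP
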