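import Mathlib
import Pool.Agent.H482.MR.M9

/-! Numerical facts for large `x`. -/

set_option autoImplicit false

namespace Pool.Agent.H482.AP

open Finset Filter

open Pool.Agent.H482.MR (zz zz_spec)

theorem num_fact (k : ℕ) (hk : 1 ≤ k) (ρ K₁ e : ℝ) (hρ : 0 < ρ) (hρk : ρ ≤ 1 / (k : ℝ))
    (hρ2 : ρ ≤ 1 / 2) (hK₁ : 0 < K₁) (he : 0 < e) :
    ∃ X : ℕ, 3 ≤ X ∧ ∀ x : ℕ, X ≤ x → 1 ≤ Real.log x ∧
      (Nat.sqrt x : ℝ) ≤ e * (x / (K₁ * (Real.log x) ^ 2)) ∧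
      (x : ℝ) ^ (1 - 1 / (8 * (k : ℝ))) ≤ x / (K₁ * (Real.log x) ^ 2) ∧
      1 ≤ ⌊(x : ℝ) ^ (ρ / 2)⌋₊ ∧
      ρ / 4 * Real.log x ≤ Real.log (⌊(x : ℝ) ^ (ρ / 2)⌋₊ : ℕ) ∧
      ⌊(x : ℝ) ^ (ρ / 2)⌋₊ * ⌊(x : ℝ) ^ (ρ / 2)⌋₊ ≤ ⌊(x : ℝ) ^ ρ⌋₊ ∧
      ⌊(x : ℝ) ^ ρ⌋₊ ≤ zz k x ∧ ⌊(x : ℝ) ^ ρ⌋₊ ≤ Nat.sqrt x ∧ 2 ≤ Nat.sqrt x := by
  have hk0 : (0 : ℝ) < k := by exact_mod_cast hk
  have hlog : ∀ c C : ℝ, 0 < c → 0 < C → ∀ᶠ t : ℝ in atTop, C * (Real.log t) ^ 2 ≤ t ^ c := by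
    intro c C hc hC
    have h1 : ∀ᶠ t : ℝ in atTop, ‖Real.log t‖ ≤ 1 * ‖t ^ (c / 4)‖ :=
      (isLittleO_log_rpow_atTop (by positivity : 0 < c / 4)).bound one_pos
    have h2 : ∀ᶠ t : ℝ in atTop, C ≤ t ^ (c / 2) :=
      (tendsto_rpow_atTop (by positivity : 0 < c / 2)).eventually_ge_atTop _
    filter_upwards [h1, h2, eventually_ge_atTop 1] with t a1 a2 a3
    have ht0 : 0 < t := by linarith
    have hl0 : 0 ≤ Real.log t := Real.log_nonneg a3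
    rw [one_mul, Real.norm_of_nonneg hl0, Real.norm_of_nonneg (by positivity)] at a1
    calc C * (Real.log t) ^ 2 ≤ t ^ (c / 2) * (t ^ (c / 4)) ^ 2 :=
          mul_le_mul a2 (pow_le_pow_left₀ hl0 a1 2) (by positivity) (by positivity)
      _ = t ^ c := by
          rw [← Real.rpow_natCast, ← Real.rpow_mul ht0.le, ← Real.rpow_add ht0]
          congr 1
          push_cast
          ring
  have e1 := hlog (1 / 2) (K₁ / e) (by norm_num) (by positivity)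
  have e2 := hlog (1 / (8 * (k : ℝ))) K₁ (by positivity) hK₁
  have e3 : ∀ᶠ t : ℝ in atTop, 2 ≤ t ^ (ρ / 4) :=
    (tendsto_rpow_atTop (by positivity : 0 < ρ / 4)).eventually_ge_atTop _
  have e4 : ∀ᶠ t : ℝ in atTop, 1 ≤ Real.log t := Real.tendsto_log_atTop.eventually_ge_atTop _
  obtain ⟨X₁, hX₁⟩ := eventually_atTop.1
    (tendsto_natCast_atTop_atTop.eventually (e1.and (e2.and (e3.and e4))))
  refine ⟨max X₁ 4, by omega, fun x hx => ?_⟩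
  obtain ⟨a1, a2, a3, a4⟩ := hX₁ x ((le_max_left _ _).trans hx)
  have hx4 : 4 ≤ x := (le_max_right _ _).trans hx
  have hx0 : (0 : ℝ) < x := by exact_mod_cast (by omega : 0 < x)
  have hx1 : (1 : ℝ) ≤ x := by exact_mod_cast (by omega : 1 ≤ x)
  have hsq : (Nat.sqrt x : ℝ) ≤ (x : ℝ) ^ (1 / 2 : ℝ) := by
    rw [← Real.sqrt_eq_rpow]
    exact Real.nat_sqrt_le_real_sqrt
  have hL2 : 0 < (Real.log x) ^ 2 := by positivity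
  have hs4 : 2 ≤ Nat.sqrt x := by
    rw [Nat.le_sqrt]
    omega
  have hfl : (x : ℝ) ^ (ρ / 4) ≤ ⌊(x : ℝ) ^ (ρ / 2)⌋₊ := by
    have h1 := Nat.lt_floor_add_one ((x : ℝ) ^ (ρ / 2))
    have h2 : (x : ℝ) ^ (ρ / 2) = (x : ℝ) ^ (ρ / 4) * (x : ℝ) ^ (ρ / 4) := by
      rw [← Real.rpow_add hx0]
      congr 1
      ring
    nlinarith
  refine ⟨a4, ?_, ?_, ?_, ?_, ?_, ?_, ?_, hs4⟩
  · refine hsq.trans ?_
    rw [mul_div_assoc', le_div_iff₀ (by positivity)]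
    have h1 : K₁ * (Real.log x) ^ 2 ≤ e * (x : ℝ) ^ (1 / 2 : ℝ) := by
      have h2 := mul_le_mul_of_nonneg_left a1 he.le
      have h3 : e * (K₁ / e * Real.log x ^ 2) = K₁ * (Real.log x) ^ 2 := by field_simp
      rw [h3] at h2
      exact h2
    calc (x : ℝ) ^ (1 / 2 : ℝ) * (K₁ * Real.log x ^ 2)
        ≤ (x : ℝ) ^ (1 / 2 : ℝ) * (e * (x : ℝ) ^ (1 / 2 : ℝ)) :=
          mul_le_mul_of_nonneg_left h1 (by positivity)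
      _ = e * ((x : ℝ) ^ (1 / 2 : ℝ) * (x : ℝ) ^ (1 / 2 : ℝ)) := by ring
      _ = e * x := by
          rw [← Real.rpow_add hx0]
          norm_num
  · rw [le_div_iff₀ (by positivity)]
    calc (x : ℝ) ^ (1 - 1 / (8 * (k : ℝ))) * (K₁ * Real.log x ^ 2)
        ≤ (x : ℝ) ^ (1 - 1 / (8 * (k : ℝ))) * (x : ℝ) ^ (1 / (8 * (k : ℝ))) :=
          mul_le_mul_of_nonneg_left a2 (by positivity)
      _ = x := by
          rw [← Real.rpow_add hx0, sub_add_cancel, Real.rpow_one]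
  · have h1 : (1 : ℝ) ≤ ⌊(x : ℝ) ^ (ρ / 2)⌋₊ := by linarith
    exact_mod_cast h1
  · have h1 := Real.log_le_log (by positivity) hfl
    rwa [Real.log_rpow hx0] at h1
  · apply Nat.le_floor
    push_cast
    have h1 := Nat.floor_le (by positivity : 0 ≤ (x : ℝ) ^ (ρ / 2))
    calc ((⌊(x : ℝ) ^ (ρ / 2)⌋₊ : ℕ) : ℝ) * ⌊(x : ℝ) ^ (ρ / 2)⌋₊
        ≤ (x : ℝ) ^ (ρ / 2) * (x : ℝ) ^ (ρ / 2) := mul_le_mul h1 h1 (Nat.cast_nonneg _) (by positivity)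
      _ = (x : ℝ) ^ ρ := by rw [← Real.rpow_add hx0]; congr 1; ring
  · unfold zz
    exact Nat.floor_le_floor (Real.rpow_le_rpow_of_exponent_le hx1 hρk)
  · rw [Nat.le_sqrt]
    have h1 := Nat.floor_le (by positivity : 0 ≤ (x : ℝ) ^ ρ)
    have h2 : ((⌊(x : ℝ) ^ ρ⌋₊ * ⌊(x : ℝ) ^ ρ⌋₊ : ℕ) : ℝ) ≤ x := by
      push_cast
      calc ((⌊(x : ℝ) ^ ρ⌋₊ : ℕ) : ℝ) * ⌊(x : ℝ) ^ ρ⌋₊ ≤ (x : ℝ) ^ ρ * (x : ℝ) ^ ρ :=
            mul_le_mul h1 h1 (Nat.cast_nonneg _) (by positivity)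
        _ = (x : ℝ) ^ (ρ + ρ) := by rw [← Real.rpow_add hx0]
        _ ≤ (x : ℝ) ^ (1 : ℝ) := Real.rpow_le_rpow_of_exponent_le hx1 (by linarith)
        _ = x := Real.rpow_one _
    exact_mod_cast h2

end Pool.Agent.H482.AP
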