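import Pool.Agent.H482.AP.Stm

set_option autoImplicit false

namespace Pool.Agent.H482.AP

open Finset

theorem two_mem_red (f a : ℕ) : a ∈ red f ↔ a < f ∧ a.Coprime f := by
  unfold red
  rw [Finset.mem_filter, Finset.mem_range]

theorem two_card_red (f : ℕ) : (red f).card = Nat.totient f := by
  unfold red Nat.totient
  congr 1
  refine Finset.filter_congr fun a _ => ?_
  exact Nat.coprime_comm

theorem two_coprime (m n c d : ℕ) (hmn : m.Coprime n) (hc : c.Coprime m) :
    (c * n + d * m).Coprime m := by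
  rw [Nat.coprime_add_mul_right_left]
  exact Nat.Coprime.mul_left hc hmn.symm

theorem two_inj (m n c d c' d' : ℕ) (hmn : m.Coprime n) (hc : c < m) (hc' : c' < m)
    (h : (c * n + d * m) ≡ (c' * n + d' * m) [MOD m]) : c = c' := by
  have h1 : c * n ≡ c' * n [MOD m] := by
    have h2 : c * n + d * m ≡ c * n [MOD m] := by
      unfold Nat.ModEq
      rw [Nat.add_mul_mod_self_right]
    have h3 : c' * n + d' * m ≡ c' * n [MOD m] := by
      unfold Nat.ModEq
      rw [Nat.add_mul_mod_self_right]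
    exact h2.symm.trans (h.trans h3)
  have h4 : c ≡ c' [MOD m] := Nat.ModEq.cancel_right_of_coprime hmn h1
  exact Nat.ModEq.eq_of_lt_of_lt h4 hc hc'

theorem two : S_TWO := by
  intro F hF m n hm hn hmn
  have hk : ∀ (k : ℕ) (t : ℝ), F (t + k) = F t := by
    intro k
    induction k with
    | zero => intro t; rw [Nat.cast_zero, add_zero]
    | succ k ih => intro t; rw [Nat.cast_succ, ← add_assoc, hF, ih]
  have hmn0 : 0 < m * n := Nat.mul_pos hm hn
  have hinj : Set.InjOn (fun p : ℕ × ℕ => (p.1 * n + p.2 * m) % (m * n))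
      ((red m ×ˢ red n : Finset (ℕ × ℕ)) : Set (ℕ × ℕ)) := by
    rintro ⟨c, d⟩ h1 ⟨c', d'⟩ h2 h3
    rw [Finset.mem_coe, Finset.mem_product, two_mem_red, two_mem_red] at h1 h2
    have h4 : c * n + d * m ≡ c' * n + d' * m [MOD m * n] := h3
    have h5 : c = c' := two_inj m n c d c' d' hmn h1.1.1 h2.1.1
      (h4.of_mul_right n)
    have h6 : d = d' := by
      have h7 : d * m + c * n ≡ d' * m + c' * n [MOD n] := by
        rw [add_comm (d * m), add_comm (d' * m)]
        exact h4.of_mul_left m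
      exact two_inj n m d c d' c' hmn.symm h1.2.1 h2.2.1 h7
    rw [h5, h6]
  have hmaps : ∀ p ∈ red m ×ˢ red n, (p.1 * n + p.2 * m) % (m * n) ∈ red (m * n) := by
    rintro ⟨c, d⟩ h1
    rw [Finset.mem_product, two_mem_red, two_mem_red] at h1
    rw [two_mem_red]
    refine ⟨Nat.mod_lt _ hmn0, ?_⟩
    have h2 : Nat.Coprime (c * n + d * m) (m * n) := by
      refine Nat.Coprime.mul_right (two_coprime m n c d hmn h1.1.2) ?_
      rw [add_comm]
      exact two_coprime n m d c hmn.symm h1.2.2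
    have h3 := (Nat.mod_modEq (c * n + d * m) (m * n)).gcd_eq
    show Nat.gcd ((c * n + d * m) % (m * n)) (m * n) = 1
    rw [h3]
    exact h2
  have hsurj : Set.SurjOn (fun p : ℕ × ℕ => (p.1 * n + p.2 * m) % (m * n))
      ((red m ×ˢ red n : Finset (ℕ × ℕ)) : Set (ℕ × ℕ)) ((red (m * n) : Finset ℕ) : Set ℕ) := by
    refine Finset.surjOn_of_injOn_of_card_le _ (fun p hp => hmaps p hp) hinj ?_
    rw [Finset.card_product, two_card_red, two_card_red, two_card_red, Nat.totient_mul hmn]
  rw [← Finset.sum_product']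
  symm
  refine Finset.sum_nbij (fun p : ℕ × ℕ => (p.1 * n + p.2 * m) % (m * n)) hmaps hinj hsurj ?_
  rintro ⟨c, d⟩ _
  have hm' : (m : ℝ) ≠ 0 := by
    have : m ≠ 0 := by omega
    exact_mod_cast this
  have hn' : (n : ℝ) ≠ 0 := by
    have : n ≠ 0 := by omega
    exact_mod_cast this
  have h1 : ((c : ℝ) / m + (d : ℝ) / n) =
      (((c * n + d * m) % (m * n) : ℕ) : ℝ) / ((m * n : ℕ) : ℝ) +
        (((c * n + d * m) / (m * n) : ℕ) : ℝ) := by
    have h2 : (((c * n + d * m) % (m * n) : ℕ) : ℝ) +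
        ((m * n : ℕ) : ℝ) * (((c * n + d * m) / (m * n) : ℕ) : ℝ) = (c : ℝ) * n + d * m := by
      have h3 := Nat.mod_add_div (c * n + d * m) (m * n)
      exact_mod_cast h3
    have h4 : (((c * n + d * m) % (m * n) : ℕ) : ℝ) = (c : ℝ) * n + d * m -
        ((m * n : ℕ) : ℝ) * (((c * n + d * m) / (m * n) : ℕ) : ℝ) := by linarith
    rw [h4]
    push_cast
    field_simp
    ring
  show F ((c : ℝ) / m + (d : ℝ) / n) = _
  rw [h1, hk]

end Pool.Agent.H482.AP
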