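import Mathlib
import Pool.Agent.H482.AP.Two
import Pool.Agent.H482.AP.Mon
import Pool.Agent.H482.AP.Leg
import Pool.Agent.H482.AP.Ind
import Pool.Agent.H482.AP.Lsa
import Pool.Agent.H482.AP.Gsu
import Pool.Agent.H482.AP.Hbp
import Pool.Agent.H482.AP.Cnt
import Pool.Agent.H482.AP.Few
import Pool.Agent.H482.AP.Num
import Pool.Agent.H482.MR.M8

/-! All but a bounded number of primes: assembly. -/

set_option autoImplicit false

namespace Pool.Agent.H482.AP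

open Finset

open Pool.Agent.Y855 (TT MI Bad)
open Pool.Agent.H482.MR (Tf mem_TT zz zz_spec mainA MI_primes)

theorem lsaT : S_LSA := lsa (ind two mon leg)

/-- the elements of `Tf` above `H` are not `0`, `1` modulo the small odd primes -/
theorem supp (x z c H R : ℕ) (hRz : R ≤ z) (hRH : R ≤ H) (n : ℕ)
    (hn : n ∈ (Tf x z c).filter (fun p => H < p)) (l : ℕ) (hl : l.Prime) (hl3 : 3 ≤ l) (hlR : l ≤ R) :
    n % l ≠ 0 ∧ n % l ≠ 1 := by
  rw [mem_filter] at hn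
  obtain ⟨h1, h2⟩ := hn
  unfold Tf at h1
  rw [mem_filter, mem_TT] at h1
  obtain ⟨⟨h3, h4, h5⟩, -⟩ := h1
  constructor
  · intro h
    have h6 : l ∣ n := Nat.dvd_of_mod_eq_zero h
    have h7 := (Nat.prime_dvd_prime_iff_eq hl h4).1 h6
    omega
  · intro h
    refine h5 l ?_ ?_
    · rw [Pool.Agent.Y855.mem_OP]
      exact ⟨hl, by omega, by omega⟩
    · exact (Nat.modEq_iff_dvd' h3.1).1 (by
        unfold Nat.ModEq
        rw [h, Nat.mod_eq_of_lt (by omega)])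

theorem Tf_sub (x z c H : ℕ) : (Tf x z c).filter (fun p => H < p) ⊆ Icc 1 x := by
  intro p hp
  rw [mem_filter] at hp
  unfold Tf at hp
  rw [mem_filter, mem_TT] at hp
  exact mem_Icc.2 hp.1.1.1

theorem Tf_card_TT (x z c : ℕ) : (Tf x z c).card ≤ (TT x z).card := by
  unfold Tf
  exact card_le_card (filter_subset _ _)

theorem below (x z c H : ℕ) : ((Tf x z c).card : ℝ) ≤
    (((Tf x z c).filter (fun p => H < p)).card : ℝ) + H := by
  classical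
  have h1 : (Tf x z c).card ≤ ((Tf x z c).filter (fun p => H < p)).card + H := by
    rw [← card_filter_add_card_filter_not (s := Tf x z c) (fun p => H < p)]
    apply Nat.add_le_add_left
    have h2 : (Tf x z c).filter (fun p => ¬ H < p) ⊆ Icc 1 H := by
      intro p hp
      rw [mem_filter] at hp
      unfold Tf at hp
      rw [mem_filter, mem_TT] at hp
      exact mem_Icc.2 ⟨hp.1.1.1.1, by omega⟩
    have h3 := card_le_card h2
    rwa [Nat.card_Icc, Nat.add_sub_cancel] at h3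
  exact_mod_cast h1

/-- the bases which are often power residues of large order -/
theorem few_B (k m₀ : ℕ) (hk : 1 ≤ k) (η : ℝ) (hη : 0 < η) (hm₀ : (8 * (k : ℝ) ^ 2 + 1) / η < m₀) :
    ∃ x₀ : ℕ, ∀ x : ℕ, x₀ ≤ x → ∀ z : ℕ, 2 ≤ z → x ≤ z ^ (2 * k) → ∀ H : ℕ, 1 ≤ H → H ≤ x →
    0 < ((TT x z).card : ℝ) → (x : ℝ) ^ (1 - 1 / (8 * (k : ℝ))) ≤ ((TT x z).card : ℝ) →
    ((Icc 2 H).filter (fun q : ℕ => q.Prime ∧
      η * ((TT x z).card : ℝ) < ((Bad ((q : ℕ) : ℤ) x z H).card : ℝ))).card < m₀ := by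
  classical
  obtain ⟨x₀, -, h⟩ := hbp k m₀ hk
  refine ⟨x₀, fun x hx z hz hxz H hH hHx hT0 hTx => ?_⟩
  by_contra hcon
  push Not at hcon
  obtain ⟨F, hF, hFc⟩ := exists_subset_card_eq hcon
  have hFp : ∀ q ∈ F, q.Prime := fun q hq => (mem_filter.1 (hF hq)).2.1
  have hinj : ∀ a ∈ F, ∀ b ∈ F, ((a : ℕ) : ℤ) = ((b : ℕ) : ℤ) → a = b :=
    fun a _ b _ h => by exact_mod_cast h
  have h1 := h x hx z hz hxz H hH hHx (F.image (fun q : ℕ => (q : ℤ))) (by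
    intro n hn
    rw [mem_image] at hn
    obtain ⟨q, hq, rfl⟩ := hn
    have h2 := mem_filter.1 (hF hq)
    rw [mem_Icc] at h2
    refine ⟨by have := (hFp q hq).ne_zero; exact_mod_cast this, ?_⟩
    rw [Int.natAbs_natCast]
    exact h2.1.2) (MI_primes F hFp) (by
      rw [card_image_of_injOn (fun a ha b hb h => hinj a ha b hb h), hFc])
  rw [sum_image hinj] at h1
  have h3 : (m₀ : ℝ) * (η * ((TT x z).card : ℝ)) ≤
      ∑ q ∈ F, ((Bad ((q : ℕ) : ℤ) x z H).card : ℝ) := by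
    rw [← hFc, ← nsmul_eq_mul, ← sum_const]
    exact sum_le_sum fun q hq => (mem_filter.1 (hF hq)).2.2.le
  rw [div_lt_iff₀ hη] at hm₀
  have h4 : (8 * (k : ℝ) ^ 2 + 1) * ((TT x z).card : ℝ) < m₀ * η * ((TT x z).card : ℝ) :=
    mul_lt_mul_of_pos_right hm₀ hT0
  linarith

theorem alg_D (ρ L M ε t x K₁ u : ℝ) (hL : 0 < L) (ht : 0 < t) (hu : u = x / (K₁ * L ^ 2))
    (hut : u ≤ t) (hK : 0 < K₁) (h : (ρ / 16 * L) ^ 2 * (M * (ε * t) ^ 2) ≤ 12 * x * t) :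
    M * (ρ ^ 2 * ε ^ 2) ≤ 3072 * K₁ := by
  have hx : x ≤ t * (K₁ * L ^ 2) := by
    rw [hu, div_le_iff₀ (by positivity)] at hut
    exact hut
  have h1 : 12 * x * t ≤ 12 * (t * (K₁ * L ^ 2)) * t := by
    apply mul_le_mul_of_nonneg_right _ ht.le
    linarith
  have h2 : M * (ρ ^ 2 * ε ^ 2) * (L ^ 2 * t ^ 2) ≤ 3072 * K₁ * (L ^ 2 * t ^ 2) := by
    have e1 : M * (ρ ^ 2 * ε ^ 2) * (L ^ 2 * t ^ 2) =
        256 * ((ρ / 16 * L) ^ 2 * (M * (ε * t) ^ 2)) := by ring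
    have e2 : 3072 * K₁ * (L ^ 2 * t ^ 2) = 256 * (12 * (t * (K₁ * L ^ 2)) * t) := by ring
    rw [e1, e2]
    linarith
  exact le_of_mul_le_mul_right h2 (by positivity)

set_option maxHeartbeats 1000000 in
theorem main_one : ∃ k₀ : ℕ, 1 ≤ k₀ ∧ ∃ K₁ : ℝ, 1 ≤ K₁ ∧ ∀ k : ℕ, k₀ ≤ k → ∀ (r : ℕ) (ε δ : ℝ),
    0 < ε → 0 < δ → ∃ K x₀ : ℕ, 3 ≤ x₀ ∧ ∀ x : ℕ, x₀ ≤ x →
    (∀ c : ℕ, c = 1 ∨ c = 3 → (x : ℝ) / (K₁ * (Real.log x) ^ 2) ≤ (Tf x (zz k x) c).card) ∧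
    ∃ E : Finset ℕ, E.card ≤ K ∧ (∀ m ∈ E, 2 ≤ m) ∧
      ∀ A : Finset ℕ, A.card ≤ r → (∀ q ∈ A, q.Prime) →
      ((∏ q ∈ A, q : ℕ) : ℝ) ≤ (x : ℝ) ^ (1 / 2 - δ) → (∀ B ⊆ A, ∏ q ∈ B, q ∉ E) →
      ∀ c : ℕ, c = 1 ∨ c = 3 →
      |(((Tf x (zz k x) c).filter (fun p : ℕ => ∀ q ∈ A, orderOf ((q : ℕ) : ZMod p) = p - 1)).card : ℝ) -
        (1 / 2) ^ A.card * ((Tf x (zz k x) c).card : ℝ)| ≤ ε * ((Tf x (zz k x) c).card : ℝ) := by
  classical
  obtain ⟨K₁, hK₁, xA, -, hA⟩ := mainA 0 1 one_pos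
  have hK₁0 : 0 < K₁ := by linarith
  refine ⟨⌈K₁⌉₊ + 1, by omega, K₁, by linarith, ?_⟩
  intro k hk r ε δ hε hδ
  have hkK : K₁ ≤ k := (Nat.le_ceil K₁).trans (by exact_mod_cast (by omega : ⌈K₁⌉₊ ≤ k))
  have hk1 : 1 ≤ k := by omega
  have hk1r : (1 : ℝ) ≤ k := by exact_mod_cast hk1
  have hk0 : (0 : ℝ) < k := by linarith
  obtain ⟨ρ, hρd⟩ : ∃ ρ : ℝ, ρ = min (min δ (1 / (k : ℝ))) (1 / 2) := ⟨_, rfl⟩
  have hρ : 0 < ρ := by
    rw [hρd]
    exact lt_min (lt_min hδ (by positivity)) (by norm_num)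
  have hρδ : ρ ≤ δ := by rw [hρd]; exact (min_le_left _ _).trans (min_le_left _ _)
  have hρk : ρ ≤ 1 / (k : ℝ) := by rw [hρd]; exact (min_le_left _ _).trans (min_le_right _ _)
  have hρ2 : ρ ≤ 1 / 2 := by rw [hρd]; exact min_le_right _ _
  obtain ⟨ε₁, hε₁⟩ : ∃ ε₁ : ℝ, ε₁ = ε / 4 := ⟨_, rfl⟩
  have hε₁0 : 0 < ε₁ := by rw [hε₁]; positivity
  obtain ⟨η, hη⟩ : ∃ η : ℝ, η = ε / (16 * ((r : ℝ) + 1)) := ⟨_, rfl⟩
  have hr0 : (0 : ℝ) ≤ r := Nat.cast_nonneg r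
  have hη0 : 0 < η := by rw [hη]; positivity
  obtain ⟨m₀, hm₀⟩ : ∃ m₀ : ℕ, m₀ = ⌈(8 * (k : ℝ) ^ 2 + 1) / η⌉₊ + 1 := ⟨_, rfl⟩
  have hm₀' : (8 * (k : ℝ) ^ 2 + 1) / η < m₀ := by
    rw [hm₀]
    push_cast
    have := Nat.le_ceil ((8 * (k : ℝ) ^ 2 + 1) / η)
    linarith
  obtain ⟨M₀, hM₀⟩ : ∃ M₀ : ℕ, M₀ = ⌈3072 * K₁ / (ρ ^ 2 * ε₁ ^ 2)⌉₊ + 1 := ⟨_, rfl⟩
  have hM₀' : 3072 * K₁ / (ρ ^ 2 * ε₁ ^ 2) < M₀ := by
    rw [hM₀]
    push_cast
    have := Nat.le_ceil (3072 * K₁ / (ρ ^ 2 * ε₁ ^ 2))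
    linarith
  obtain ⟨Y, hY⟩ : ∃ Y : ℕ, Y = 2 * (r * M₀) + 2 := ⟨_, rfl⟩
  obtain ⟨xB, hB⟩ := few_B k m₀ hk1 η hη0 hm₀'
  obtain ⟨X₁, hX₁3, hX₁⟩ := zz_spec k hk1r 2 1
  obtain ⟨X₂, hX₂3, hX₂⟩ := num_fact k hk1 ρ K₁ (ε / 8) hρ hρk hρ2 hK₁0 (by positivity)
  refine ⟨2 * M₀ + m₀ + Y, max (max xA xB) (max X₁ X₂), ?_, ?_⟩
  · exact hX₁3.trans ((le_max_left _ _).trans (le_max_right _ _))
  intro x hx
  have hxA : xA ≤ x := ((le_max_left _ _).trans (le_max_left _ _)).trans hx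
  have hxB : xB ≤ x := ((le_max_right _ _).trans (le_max_left _ _)).trans hx
  have hxX₁ : X₁ ≤ x := ((le_max_left _ _).trans (le_max_right _ _)).trans hx
  have hxX₂ : X₂ ≤ x := ((le_max_right _ _).trans (le_max_right _ _)).trans hx
  have hx3 : 3 ≤ x := hX₁3.trans hxX₁
  have hx0 : (0 : ℝ) < x := by exact_mod_cast (by omega : 0 < x)
  have hx1 : (1 : ℝ) ≤ x := by exact_mod_cast (by omega : 1 ≤ x)
  obtain ⟨z, hz⟩ : ∃ z : ℕ, z = zz k x := ⟨_, rfl⟩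
  obtain ⟨b1, b2, b3, b4, -⟩ := hX₁ x hxX₁
  rw [← hz] at b1 b2 b3 b4
  obtain ⟨d1, d2, d3, d4, d5, d6, d7, d8, d9⟩ := hX₂ x hxX₂
  rw [← hz] at d7
  have hz2 : 2 ≤ z := by exact_mod_cast b4
  have hz1 : (1 : ℝ) ≤ z := by linarith
  have hL0 : 0 < Real.log x := by linarith
  have hlz0 : 0 < Real.log z := Real.log_pos (by linarith)
  have hLL : 0 ≤ Real.log x * Real.log (Real.log x) := mul_nonneg hL0.le (Real.log_nonneg d1)
  have hcond1 : K₁ * (Real.log x * Real.log (Real.log x)) ≤ (Real.log z) ^ 2 :=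
    (mul_le_mul_of_nonneg_right hkK hLL).trans b1
  have hcond2 : (z : ℝ) ^ K₁ ≤ x := (Real.rpow_le_rpow_of_exponent_le hz1 hkK).trans b2
  have hzx : (z : ℝ) ≤ x := by
    calc (z : ℝ) = (z : ℝ) ^ (1 : ℝ) := (Real.rpow_one _).symm
      _ ≤ (z : ℝ) ^ (k : ℝ) := Real.rpow_le_rpow_of_exponent_le hz1 hk1r
      _ ≤ x := b2
  have hlzx : Real.log z ≤ Real.log x := Real.log_le_log (by linarith) hzx
  have hmain := (hA x hxA z hcond1 hcond2).1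
  have hlow : ∀ c : ℕ, c = 1 ∨ c = 3 → (x : ℝ) / (K₁ * (Real.log x) ^ 2) ≤ (Tf x z c).card := by
    intro c hc
    refine le_trans ?_ (hmain c hc).1
    apply div_le_div_of_nonneg_left hx0.le (by positivity)
    rw [pow_two]
    exact mul_le_mul_of_nonneg_left (mul_le_mul_of_nonneg_left hlzx hL0.le) hK₁0.le
  rw [← hz]
  refine ⟨hlow, ?_⟩
  obtain ⟨u, hu⟩ : ∃ u : ℝ, u = (x : ℝ) / (K₁ * (Real.log x) ^ 2) := ⟨_, rfl⟩
  rw [← hu] at d2 d3 hlow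
  have hu0 : 0 < u := by rw [hu]; positivity
  obtain ⟨H, hH⟩ : ∃ H : ℕ, H = Nat.sqrt x := ⟨_, rfl⟩
  rw [← hH] at d2 d8 d9
  obtain ⟨R, hR⟩ : ∃ R : ℕ, R = ⌊(x : ℝ) ^ ρ⌋₊ := ⟨_, rfl⟩
  rw [← hR] at d6 d7 d8
  obtain ⟨s, hs⟩ : ∃ s : ℕ, s = ⌊(x : ℝ) ^ (ρ / 2)⌋₊ := ⟨_, rfl⟩
  rw [← hs] at d4 d5 d6
  obtain ⟨Q, hQ⟩ : ∃ Q : ℕ, Q = ⌊(x : ℝ) ^ (1 / 2 - δ)⌋₊ := ⟨_, rfl⟩
  have hHx : H ≤ x := by rw [hH]; exact Nat.sqrt_le_self x
  have hQR : (Q * R) ^ 2 ≤ x := by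
    have h1 : (Q : ℝ) ≤ (x : ℝ) ^ (1 / 2 - δ) := by rw [hQ]; exact Nat.floor_le (by positivity)
    have h2 : (R : ℝ) ≤ (x : ℝ) ^ ρ := by rw [hR]; exact Nat.floor_le (by positivity)
    have h3 : (Q : ℝ) * R ≤ (x : ℝ) ^ (1 / 2 : ℝ) := by
      calc (Q : ℝ) * R ≤ (x : ℝ) ^ (1 / 2 - δ) * (x : ℝ) ^ ρ :=
            mul_le_mul h1 h2 (Nat.cast_nonneg _) (by positivity)
        _ = (x : ℝ) ^ (1 / 2 - δ + ρ) := (Real.rpow_add hx0 _ _).symm
        _ ≤ (x : ℝ) ^ (1 / 2 : ℝ) := Real.rpow_le_rpow_of_exponent_le hx1 (by linarith)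
    have h4 : ((Q : ℝ) * R) ^ 2 ≤ x := by
      calc ((Q : ℝ) * R) ^ 2 ≤ ((x : ℝ) ^ (1 / 2 : ℝ)) ^ 2 := pow_le_pow_left₀ (by positivity) h3 2
        _ = x := by rw [← Real.rpow_natCast, ← Real.rpow_mul hx0.le]; norm_num
    exact_mod_cast h4
  have hQH : Q ≤ H := by
    rw [hH, Nat.le_sqrt, hQ]
    have h1 := Nat.floor_le (by positivity : 0 ≤ (x : ℝ) ^ (1 / 2 - δ))
    have h2 : (x : ℝ) ^ (1 / 2 - δ) ≤ (x : ℝ) ^ (1 / 2 : ℝ) :=
      Real.rpow_le_rpow_of_exponent_le hx1 (by linarith)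
    have h3 : ((⌊(x : ℝ) ^ (1 / 2 - δ)⌋₊ * ⌊(x : ℝ) ^ (1 / 2 - δ)⌋₊ : ℕ) : ℝ) ≤ x := by
      push_cast
      calc ((⌊(x : ℝ) ^ (1 / 2 - δ)⌋₊ : ℕ) : ℝ) * ⌊(x : ℝ) ^ (1 / 2 - δ)⌋₊
          ≤ (x : ℝ) ^ (1 / 2 : ℝ) * (x : ℝ) ^ (1 / 2 : ℝ) :=
            mul_le_mul (h1.trans h2) (h1.trans h2) (Nat.cast_nonneg _) (by positivity)
        _ = x := by rw [← Real.rpow_add hx0]; norm_num
    exact_mod_cast h3
  -- the moduli with a large character sum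
  obtain ⟨SS, hSS⟩ : ∃ SS : ℕ → Finset ℕ, SS = fun c => (Icc 2 Q).filter (fun D => Squarefree D ∧
      Odd D ∧ D.primeFactors.card ≤ r ∧ (∀ p ∈ D.primeFactors, Y < p) ∧
      ε₁ * ((Tf x z c).card : ℝ) ≤
        |∑ p ∈ (Tf x z c).filter (fun p => H < p), ((jacobiSym p D : ℤ) : ℝ)|) := ⟨_, rfl⟩
  have hSSc : ∀ c : ℕ, c = 1 ∨ c = 3 → (SS c).card < M₀ := by
    intro c hc
    by_contra hcon
    push Not at hcon
    obtain ⟨S, hS, hScard⟩ := exists_subset_card_eq hcon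
    have ht0 : 0 < ((Tf x z c).card : ℝ) := lt_of_lt_of_le hu0 (hlow c hc)
    have h1 := few_D lsaT gsu x Q R s M₀ Y r ((Tf x z c).filter (fun p => H < p))
      ((Tf x z c).card : ℝ) ε₁ (Tf_sub x z c H) (fun n hn l hl hl3 hlR =>
        supp x z c H R d7 d8 n hn l hl hl3 hlR) hQR d4 d6 S (by
        intro D hD
        have h2 := hS hD
        rw [hSS] at h2
        simp only [mem_filter, mem_Icc] at h2
        exact ⟨h2.2.1, h2.2.2.1, h2.1.2, h2.2.2.2.1, h2.2.2.2.2.1⟩) hScard.le (by omega) (by omega)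
      (by exact_mod_cast card_le_card (filter_subset _ _)) ht0.le hε₁0.le (by
        intro D hD
        have h2 := hS hD
        rw [hSS] at h2
        simp only [mem_filter, mem_Icc] at h2
        exact h2.2.2.2.2.2)
    rw [hScard] at h1
    have h5 : (ρ / 16 * Real.log x) ^ 2 ≤ (1 / 4 * Real.log s) ^ 2 := by
      apply pow_le_pow_left₀ (by positivity)
      linarith
    have h6 : (ρ / 16 * Real.log x) ^ 2 * (M₀ * (ε₁ * ((Tf x z c).card : ℝ)) ^ 2) ≤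
        12 * x * ((Tf x z c).card : ℝ) :=
      (mul_le_mul_of_nonneg_right h5 (by positivity)).trans h1
    have h9 := alg_D ρ (Real.log x) M₀ ε₁ ((Tf x z c).card : ℝ) x K₁ u hL0 ht0 hu (hlow c hc) hK₁0 h6
    rw [div_lt_iff₀ (by positivity)] at hM₀'
    linarith
  -- the bases which are often power residues
  have hxz : x ≤ z ^ (2 * k) := by
    have h1 : Real.log x ≤ 2 * k * Real.log z := by
      rw [div_le_iff₀ hlz0] at b3
      exact b3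
    have h2 : (x : ℝ) ≤ (z : ℝ) ^ (2 * k) := by
      rw [← Real.log_le_log_iff hx0 (by positivity), Real.log_pow]
      push_cast
      exact h1
    exact_mod_cast h2
  have hTT : ∀ c : ℕ, c = 1 ∨ c = 3 → ((TT x z).card : ℝ) ≤ 4 * ((Tf x z c).card : ℝ) := by
    intro c hc
    have := (hmain c hc).2
    linarith
  have hTTu : u ≤ ((TT x z).card : ℝ) :=
    (hlow 1 (Or.inl rfl)).trans (by exact_mod_cast Tf_card_TT x z 1)
  obtain ⟨EB, hEB⟩ : ∃ EB : Finset ℕ, EB = (Icc 2 H).filter (fun q : ℕ => q.Prime ∧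
      η * ((TT x z).card : ℝ) < ((Bad ((q : ℕ) : ℤ) x z H).card : ℝ)) := ⟨_, rfl⟩
  have hEBc : EB.card < m₀ := by
    rw [hEB]
    exact hB x hxB z hz2 hxz H (by omega) hHx (by linarith) (d3.trans hTTu)
  refine ⟨SS 1 ∪ SS 3 ∪ EB ∪ Icc 2 Y, ?_, ?_, ?_⟩
  · have c1 := card_union_le (SS 1 ∪ SS 3 ∪ EB) (Icc 2 Y)
    have c2 := card_union_le (SS 1 ∪ SS 3) EB
    have c3 := card_union_le (SS 1) (SS 3)
    have c4 := hSSc 1 (Or.inl rfl)
    have c5 := hSSc 3 (Or.inr rfl)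
    have c6 : (Icc 2 Y).card ≤ Y := by rw [Nat.card_Icc]; omega
    omega
  · intro m hm
    rw [mem_union, mem_union, mem_union] at hm
    rcases hm with ((h | h) | h) | h
    · rw [hSS] at h
      exact (mem_Icc.1 (mem_filter.1 h).1).1
    · rw [hSS] at h
      exact (mem_Icc.1 (mem_filter.1 h).1).1
    · rw [hEB] at h
      exact (mem_Icc.1 (mem_filter.1 h).1).1
    · exact (mem_Icc.1 h).1
  intro A hAr hAp hAx hAE c hc
  have hAQ : ∏ q ∈ A, q ≤ Q := by rw [hQ]; exact Nat.le_floor hAx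
  have hprod0 : ∏ q ∈ A, q ≠ 0 := prod_ne_zero_iff.2 fun q hq => (hAp q hq).ne_zero
  have hqQ : ∀ q ∈ A, q ≤ Q := fun q hq =>
    (Nat.le_of_dvd (Nat.pos_of_ne_zero hprod0) (dvd_prod_of_mem _ hq)).trans hAQ
  have hnot : ∀ q ∈ A, q ∉ SS 1 ∪ SS 3 ∪ EB ∪ Icc 2 Y := by
    intro q hq
    have h1 := hAE {q} (singleton_subset_iff.2 hq)
    rwa [prod_singleton] at h1
  have hYq : ∀ q ∈ A, Y < q := by
    intro q hq
    by_contra hcon
    apply hnot q hq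
    rw [mem_union]
    exact Or.inr (mem_Icc.2 ⟨(hAp q hq).two_le, by omega⟩)
  have hbad : ∀ q ∈ A, ((Bad ((q : ℕ) : ℤ) x z H).card : ℝ) ≤ η * ((TT x z).card : ℝ) := by
    intro q hq
    by_contra hcon
    push Not at hcon
    apply hnot q hq
    rw [mem_union, mem_union]
    left; right
    rw [hEB, mem_filter]
    exact ⟨mem_Icc.2 ⟨(hAp q hq).two_le, (hqQ q hq).trans hQH⟩, hAp q hq, hcon⟩
  have ht0 : 0 < ((Tf x z c).card : ℝ) := lt_of_lt_of_le hu0 (hlow c hc)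
  have hX : ∀ B ⊆ A, B.Nonempty →
      |∑ p ∈ (Tf x z c).filter (fun p => H < p), ((jacobiSym p (∏ q ∈ B, q) : ℤ) : ℝ)| ≤
        ε₁ * ((Tf x z c).card : ℝ) := by
    intro B hBA hBn
    by_contra hcon
    push Not at hcon
    apply hAE B hBA
    have hBp : ∀ q ∈ B, q.Prime := fun q hq => hAp q (hBA hq)
    have hD0 : ∏ q ∈ B, q ≠ 0 := prod_ne_zero_iff.2 fun q hq => (hBp q hq).ne_zero
    have hpf : (∏ q ∈ B, q).primeFactors = B := Nat.primeFactors_prod hBp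
    have hsqf : Squarefree (∏ q ∈ B, q) := by
      refine Finset.squarefree_prod_of_pairwise_isCoprime (fun a ha b hb hab ↦ ?_) fun p hp => ?_
      · exact Nat.coprime_iff_isRelPrime.mp ((Nat.coprime_primes (hBp a ha) (hBp b hb)).mpr hab)
      · exact (hBp p hp).squarefree
    have hodd : Odd (∏ q ∈ B, q) := by
      apply Finset.prod_induction _ Odd (fun a b ha hb => ha.mul hb) odd_one
      intro q hq
      have h1 := hYq q (hBA hq)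
      exact (hBp q hq).odd_of_ne_two (by omega)
    have hle : ∏ q ∈ B, q ≤ Q := by
      refine le_trans ?_ hAQ
      exact Nat.le_of_dvd (Nat.pos_of_ne_zero hprod0) (prod_dvd_prod_of_subset _ _ _ hBA)
    have h2le : 2 ≤ ∏ q ∈ B, q := by
      obtain ⟨q, hq⟩ := hBn
      exact (hBp q hq).two_le.trans (Nat.le_of_dvd (Nat.pos_of_ne_zero hD0) (dvd_prod_of_mem _ hq))
    have hmem : ∏ q ∈ B, q ∈ SS c := by
      rw [hSS]
      simp only [mem_filter, mem_Icc]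
      rw [hpf]
      exact ⟨⟨h2le, hle⟩, hsqf, hodd, (card_le_card hBA).trans hAr, fun p hp => hYq p (hBA hp),
        hcon.le⟩
    rw [mem_union, mem_union, mem_union]
    left; left
    rcases hc with rfl | rfl
    · exact Or.inl hmem
    · exact Or.inr hmem
  have hHq : ∀ q ∈ A, q ≤ H := fun q hq => (hqQ q hq).trans hQH
  have hA2 : ∀ q ∈ A, q.Prime ∧ 2 < q := fun q hq => ⟨hAp q hq, by
    have := hYq q hq
    omega⟩
  have hcm := count_main A hA2 ((Tf x z c).filter (fun p => H < p)) c hc (by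
    intro p hp
    rw [mem_filter] at hp
    have hp' := hp.1
    unfold Tf at hp'
    rw [mem_filter, mem_TT] at hp'
    refine ⟨hp'.1.2.1, by omega, hp'.2, fun q hq => ?_⟩
    have := hHq q hq
    omega) (ε₁ * ((Tf x z c).card : ℝ)) (by positivity) hX
  have hrc := root_count A hA2 x z H c hHq d9
  have hsumB : ∑ q ∈ A, ((Bad ((q : ℕ) : ℤ) x z H).card : ℝ) ≤ ε / 4 * ((Tf x z c).card : ℝ) := by
    calc ∑ q ∈ A, ((Bad ((q : ℕ) : ℤ) x z H).card : ℝ) ≤ ∑ _q ∈ A, η * ((TT x z).card : ℝ) :=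
          sum_le_sum hbad
      _ = A.card * (η * ((TT x z).card : ℝ)) := by rw [sum_const, nsmul_eq_mul]
      _ ≤ r * (η * (4 * ((Tf x z c).card : ℝ))) := by
          have h1 : (A.card : ℝ) ≤ r := by exact_mod_cast hAr
          exact mul_le_mul h1 (mul_le_mul_of_nonneg_left (hTT c hc) hη0.le) (by positivity) hr0
      _ ≤ ε / 4 * ((Tf x z c).card : ℝ) := by
          have h1 : (r : ℝ) * (η * 4) ≤ ε / 4 := by
            rw [hη]
            rw [show (r : ℝ) * (ε / (16 * ((r : ℝ) + 1)) * 4) = (r / (r + 1)) * (ε / 4) by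
              field_simp
              ring]
            have h2 : (r : ℝ) / (r + 1) ≤ 1 := by
              rw [div_le_one (by positivity)]
              linarith
            calc (r : ℝ) / (r + 1) * (ε / 4) ≤ 1 * (ε / 4) :=
                  mul_le_mul_of_nonneg_right h2 (by positivity)
              _ = ε / 4 := one_mul _
          calc (r : ℝ) * (η * (4 * ((Tf x z c).card : ℝ))) = r * (η * 4) * ((Tf x z c).card : ℝ) := by
                ring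
            _ ≤ _ := mul_le_mul_of_nonneg_right h1 ht0.le
  have hHt : (H : ℝ) ≤ ε / 8 * ((Tf x z c).card : ℝ) :=
    d2.trans (mul_le_mul_of_nonneg_left (hlow c hc) (by positivity))
  have hbel := below x z c H
  have hsub : (((Tf x z c).filter (fun p => H < p)).card : ℝ) ≤ ((Tf x z c).card : ℝ) := by
    exact_mod_cast card_le_card (filter_subset _ _)
  have hpow : (0 : ℝ) ≤ (1 / 2) ^ A.card ∧ ((1 : ℝ) / 2) ^ A.card ≤ 1 :=
    ⟨by positivity, pow_le_one₀ (by norm_num) (by norm_num)⟩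
  have hH0 : (0 : ℝ) ≤ H := Nat.cast_nonneg H
  have hlast : |(1 / 2) ^ A.card * (((Tf x z c).filter (fun p => H < p)).card : ℝ) -
      (1 / 2) ^ A.card * ((Tf x z c).card : ℝ)| ≤ H := by
    rw [← mul_sub, abs_mul, abs_of_nonneg hpow.1]
    have h1 : |(((Tf x z c).filter (fun p => H < p)).card : ℝ) - ((Tf x z c).card : ℝ)| ≤ H := by
      rw [abs_le]
      constructor <;> linarith
    calc ((1 : ℝ) / 2) ^ A.card *
          |(((Tf x z c).filter (fun p => H < p)).card : ℝ) - ((Tf x z c).card : ℝ)|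
        ≤ 1 * H := mul_le_mul hpow.2 h1 (abs_nonneg _) (by norm_num)
      _ = H := one_mul _
  have hd1 := abs_le.1 hcm
  have hd2 := abs_le.1 hrc
  have hd3 := abs_le.1 hlast
  have hεt : 0 < ε * ((Tf x z c).card : ℝ) := mul_pos hε ht0
  rw [hε₁] at hd1
  rw [abs_le]
  constructor <;> linarith

end Pool.Agent.H482.AP
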