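import Mathlib
import Pool.Agent.H482.AP.Fin

/-! The least prime with a given primitive root. -/

set_option autoImplicit false

namespace Pool.Agent.H482.AP

open Finset Filter

open Pool.Agent.Y855 (TT MI Bad)
open Pool.Agent.H482.MR (Tf mem_TT zz zz_spec)

/-- the number of the primes `p ≤ y` with the primitive root `q` -/
noncomputable def Pn (q y : ℕ) : ℕ :=
  ((Icc 1 y).filter (fun p => p.Prime ∧ orderOf ((q : ℕ) : ZMod p) = p - 1)).card

theorem Pn_mono (q : ℕ) {y y' : ℕ} (h : y ≤ y') : Pn q y ≤ Pn q y' := by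
  unfold Pn
  apply card_le_card
  intro p hp
  rw [mem_filter, mem_Icc] at hp ⊢
  exact ⟨⟨hp.1.1, hp.1.2.trans h⟩, hp.2⟩

theorem Pn_ge (q x z c : ℕ) :
    ((Tf x z c).filter (fun p : ℕ => ∀ q' ∈ ({q} : Finset ℕ),
      orderOf ((q' : ℕ) : ZMod p) = p - 1)).card ≤ Pn q x := by
  unfold Pn
  apply card_le_card
  intro p hp
  rw [mem_filter] at hp
  have h1 := hp.1
  unfold Tf at h1
  rw [mem_filter, mem_TT] at h1
  rw [mem_filter, mem_Icc]
  exact ⟨h1.1.1, h1.1.2.1, hp.2 q (mem_singleton_self q)⟩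

/-- numerical facts -/
theorem num_y (δ K₁ X : ℝ) (hδ : 0 < δ) (hK₁ : 0 < K₁) : ∃ y₀ : ℝ, 2 ≤ y₀ ∧ ∀ y : ℝ, y₀ ≤ y →
    X ≤ y ^ (2 + δ) - 1 ∧ 1 ≤ Real.log y ∧
    y ^ (1 + δ / 8) ≤ (⌊y ^ (2 + δ)⌋₊ : ℝ) ^ (1 / 2 - δ / (4 * (2 + δ))) ∧
    y ^ (2 + δ / 2) ≤ 1 / 4 * ((⌊y ^ (2 + δ)⌋₊ : ℝ) /
      (K₁ * (Real.log (⌊y ^ (2 + δ)⌋₊ : ℕ)) ^ 2)) := by
  have e0 : ∀ᶠ y : ℝ in atTop, X + 1 ≤ y ^ (2 + δ) :=
    (tendsto_rpow_atTop (by positivity : 0 < 2 + δ)).eventually_ge_atTop _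
  have e1 : ∀ᶠ y : ℝ in atTop, 1 ≤ Real.log y := Real.tendsto_log_atTop.eventually_ge_atTop _
  have e2 : ∀ᶠ y : ℝ in atTop, 2 ≤ y ^ (δ / 8) :=
    (tendsto_rpow_atTop (by positivity : 0 < δ / 8)).eventually_ge_atTop _
  have e3 : ∀ᶠ y : ℝ in atTop, 8 * K₁ * (2 + δ) ^ 2 ≤ y ^ (δ / 4) :=
    (tendsto_rpow_atTop (by positivity : 0 < δ / 4)).eventually_ge_atTop _
  have e4 : ∀ᶠ y : ℝ in atTop, ‖Real.log y‖ ≤ 1 * ‖y ^ (δ / 8)‖ :=
    (isLittleO_log_rpow_atTop (by positivity : 0 < δ / 8)).bound one_pos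
  obtain ⟨y₁, hy₁⟩ := eventually_atTop.1 (e0.and (e1.and (e2.and (e3.and (e4.and
    (eventually_ge_atTop (2 : ℝ)))))))
  refine ⟨max y₁ 2, le_max_right _ _, fun y hy => ?_⟩
  obtain ⟨a0, a1, a2, a3, a4, a5⟩ := hy₁ y ((le_max_left _ _).trans hy)
  have hy0 : 0 < y := by linarith
  have hy1 : 1 ≤ y := by linarith
  have hl0 : 0 ≤ Real.log y := by linarith
  rw [one_mul, Real.norm_of_nonneg hl0, Real.norm_of_nonneg (by positivity)] at a4
  obtain ⟨w, hw⟩ : ∃ w : ℝ, w = y ^ (2 + δ) := ⟨_, rfl⟩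
  have hw4 : 4 ≤ w := by
    calc (4 : ℝ) = 2 ^ (2 : ℝ) := by norm_num
      _ ≤ y ^ (2 : ℝ) := Real.rpow_le_rpow (by norm_num) a5 (by norm_num)
      _ ≤ w := by rw [hw]; exact Real.rpow_le_rpow_of_exponent_le hy1 (by linarith)
  rw [← hw] at a0 ⊢
  have hfl1 : (⌊w⌋₊ : ℝ) ≤ w := Nat.floor_le (by linarith)
  have hfl2 : w / 2 ≤ (⌊w⌋₊ : ℝ) := by
    have := Nat.lt_floor_add_one w
    linarith
  have hflp : (0 : ℝ) < (⌊w⌋₊ : ℝ) := by linarith
  have hexp : 0 ≤ 1 / 2 - δ / (4 * (2 + δ)) := by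
    have : δ / (4 * (2 + δ)) ≤ 1 / 4 := by
      rw [div_le_div_iff₀ (by positivity) (by norm_num)]
      linarith
    linarith
  have hexp1 : 1 / 2 - δ / (4 * (2 + δ)) ≤ 1 := by
    have : 0 ≤ δ / (4 * (2 + δ)) := by positivity
    linarith
  refine ⟨by linarith, a1, ?_, ?_⟩
  · have h1 : (w / 2) ^ (1 / 2 - δ / (4 * (2 + δ))) ≤ (⌊w⌋₊ : ℝ) ^ (1 / 2 - δ / (4 * (2 + δ))) :=
      Real.rpow_le_rpow (by linarith) hfl2 hexp
    refine le_trans ?_ h1
    rw [Real.div_rpow (by linarith) (by norm_num), le_div_iff₀ (by positivity)]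
    have h2 : (2 : ℝ) ^ (1 / 2 - δ / (4 * (2 + δ))) ≤ 2 := by
      calc (2 : ℝ) ^ (1 / 2 - δ / (4 * (2 + δ))) ≤ 2 ^ (1 : ℝ) :=
            Real.rpow_le_rpow_of_exponent_le (by norm_num) hexp1
        _ = 2 := Real.rpow_one _
    calc y ^ (1 + δ / 8) * (2 : ℝ) ^ (1 / 2 - δ / (4 * (2 + δ)))
        ≤ y ^ (1 + δ / 8) * y ^ (δ / 8) :=
          mul_le_mul_of_nonneg_left (h2.trans a2) (by positivity)
      _ = y ^ (1 + δ / 4) := by rw [← Real.rpow_add hy0]; congr 1; ring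
      _ = w ^ (1 / 2 - δ / (4 * (2 + δ))) := by
          rw [hw, ← Real.rpow_mul hy0.le]
          congr 1
          field_simp
          ring
  · have hlogw : Real.log (⌊w⌋₊ : ℕ) ≤ (2 + δ) * Real.log y := by
      have h1 := Real.log_le_log hflp hfl1
      rwa [hw, Real.log_rpow hy0, ← hw] at h1
    have hlogp : 0 < Real.log (⌊w⌋₊ : ℕ) := Real.log_pos (by linarith)
    have h2 : K₁ * (Real.log (⌊w⌋₊ : ℕ)) ^ 2 ≤ K₁ * ((2 + δ) ^ 2 * (y ^ (δ / 8)) ^ 2) := by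
      apply mul_le_mul_of_nonneg_left _ hK₁.le
      rw [← mul_pow]
      apply pow_le_pow_left₀ hlogp.le
      exact hlogw.trans (mul_le_mul_of_nonneg_left a4 (by positivity))
    rw [mul_div_assoc', le_div_iff₀ (by positivity)]
    have h3 : (y ^ (δ / 8)) ^ 2 = y ^ (δ / 4) := by
      rw [← Real.rpow_natCast, ← Real.rpow_mul hy0.le]
      congr 1
      push_cast
      ring
    rw [h3] at h2
    calc y ^ (2 + δ / 2) * (K₁ * Real.log (⌊w⌋₊ : ℕ) ^ 2)
        ≤ y ^ (2 + δ / 2) * (K₁ * ((2 + δ) ^ 2 * y ^ (δ / 4))) :=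
          mul_le_mul_of_nonneg_left h2 (by positivity)
      _ = 1 / 8 * ((8 * K₁ * (2 + δ) ^ 2) * (y ^ (2 + δ / 2) * y ^ (δ / 4))) := by ring
      _ ≤ 1 / 8 * (y ^ (δ / 4) * (y ^ (2 + δ / 2) * y ^ (δ / 4))) := by
          apply mul_le_mul_of_nonneg_left _ (by norm_num)
          exact mul_le_mul_of_nonneg_right a3 (by positivity)
      _ = 1 / 8 * w := by
          rw [hw, ← Real.rpow_add hy0, ← Real.rpow_add hy0]
          congr 2
          ring
      _ ≤ 1 / 4 * (⌊w⌋₊ : ℝ) := by linarith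

/-- few exceptions in `[y, y ^ (1 + δ / 8)]` -/
theorem one_scale (δ : ℝ) (hδ : 0 < δ) : ∃ (K : ℕ) (y₀ : ℝ), 2 ≤ y₀ ∧ ∀ y : ℝ, y₀ ≤ y →
    ∀ S : Finset ℕ, (∀ q ∈ S, q.Prime ∧ y ≤ (q : ℝ) ∧ (q : ℝ) ≤ y ^ (1 + δ / 8) ∧
      (Pn q ⌊(q : ℝ) ^ (2 + δ)⌋₊ : ℝ) < (q : ℝ) ^ 2) → S.card ≤ K := by
  classical
  obtain ⟨k₀, hk₀, K₁, hK₁, h⟩ := main_one
  obtain ⟨K, x₀, hx₀3, hx₀⟩ := h k₀ le_rfl 1 (1 / 4) (δ / (4 * (2 + δ))) (by norm_num) (by positivity)
  obtain ⟨y₀, hy₀2, hy₀⟩ := num_y δ K₁ x₀ hδ (by linarith)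
  refine ⟨K, y₀, hy₀2, fun y hy S hS => ?_⟩
  obtain ⟨a0, a1, a2, a3⟩ := hy₀ y hy
  have hy0 : 0 < y := by linarith
  have hy1 : 1 ≤ y := by linarith
  obtain ⟨x, hx⟩ : ∃ x : ℕ, x = ⌊y ^ (2 + δ)⌋₊ := ⟨_, rfl⟩
  have hxx₀ : x₀ ≤ x := by
    rw [hx]
    apply Nat.le_floor
    linarith
  rw [← hx] at a2 a3
  obtain ⟨b1, E, b2, b3, b4⟩ := hx₀ x hxx₀
  by_contra hcon
  push Not at hcon
  have hSE : ¬ S ⊆ E := fun hsub => by
    have := card_le_card hsub
    omega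
  rw [not_subset] at hSE
  obtain ⟨q, hqS, hqE⟩ := hSE
  obtain ⟨c1, c2, c3, c4⟩ := hS q hqS
  have h2 := b4 {q} (by rw [card_singleton]) (by
    intro p hp
    rw [mem_singleton] at hp
    rw [hp]
    exact c1) (by
    rw [prod_singleton]
    exact c3.trans a2) (by
    intro B hB
    rcases subset_singleton_iff.1 hB with rfl | rfl
    · rw [prod_empty]
      intro h1
      have := b3 1 h1
      omega
    · rw [prod_singleton]
      exact hqE) 1 (Or.inl rfl)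
  have h3 := b1 1 (Or.inl rfl)
  rw [card_singleton, pow_one] at h2
  have h4 := (abs_le.1 h2).1
  have h5 : ((((Tf x (zz k₀ x) 1).filter (fun p : ℕ => ∀ q' ∈ ({q} : Finset ℕ),
      orderOf ((q' : ℕ) : ZMod p) = p - 1)).card : ℕ) : ℝ) ≤ Pn q x := by
    exact_mod_cast Pn_ge q x (zz k₀ x) 1
  have h6 : (Pn q x : ℝ) ≤ Pn q ⌊(q : ℝ) ^ (2 + δ)⌋₊ := by
    have : Pn q x ≤ Pn q ⌊(q : ℝ) ^ (2 + δ)⌋₊ := by
      apply Pn_mono
      rw [hx]
      exact Nat.floor_le_floor (Real.rpow_le_rpow hy0.le c2 (by linarith))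
    exact_mod_cast this
  have h7 : (q : ℝ) ^ 2 ≤ y ^ (2 + δ / 2) := by
    have hq0 : (0 : ℝ) ≤ q := Nat.cast_nonneg q
    calc (q : ℝ) ^ 2 ≤ (y ^ (1 + δ / 8)) ^ 2 := pow_le_pow_left₀ hq0 c3 2
      _ = y ^ (2 + δ / 4) := by
          rw [← Real.rpow_natCast, ← Real.rpow_mul hy0.le]
          congr 1
          push_cast
          ring
      _ ≤ y ^ (2 + δ / 2) := Real.rpow_le_rpow_of_exponent_le hy1 (by linarith)
  linarith

/-- a set with few elements in every interval `[y, y ^ (1 + a)]` -/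
theorem cover (a : ℝ) (ha : 0 < a) (K : ℕ) (y₀ : ℝ) (hy₀ : 2 ≤ y₀) (B : ℕ → Prop) [DecidablePred B]
    (h : ∀ y : ℝ, y₀ ≤ y → ∀ S : Finset ℕ, (∀ q ∈ S, B q ∧ y ≤ (q : ℝ) ∧ (q : ℝ) ≤ y ^ (1 + a)) →
      S.card ≤ K) : ∃ C : ℝ, ∀ N : ℕ, 3 ≤ N →
    (((Icc 1 N).filter B).card : ℝ) ≤ C * (1 + Real.log (Real.log N)) := by
  have hla : 0 < Real.log (1 + a) := Real.log_pos (by linarith)
  have hly : 0 < Real.log y₀ := Real.log_pos (by linarith)
  obtain ⟨C, hC⟩ : ∃ C : ℝ, C = ⌈y₀⌉₊ + K * (1 + (1 + |Real.log (Real.log y₀)|) / Real.log (1 + a)) :=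
    ⟨_, rfl⟩
  refine ⟨C, fun N hN => ?_⟩
  have hN3 : (3 : ℝ) ≤ N := by exact_mod_cast hN
  have hlN : 1 ≤ Real.log N := by
    rw [Real.le_log_iff_exp_le (by linarith)]
    have := Real.exp_one_lt_d9
    linarith
  have hllN : 0 ≤ Real.log (Real.log N) := Real.log_nonneg hlN
  set F := (Icc 1 N).filter B with hF
  set F₁ := F.filter (fun q : ℕ => (q : ℝ) < y₀) with hF₁
  set F₂ := F.filter (fun q : ℕ => ¬ (q : ℝ) < y₀) with hF₂
  have hcard : F.card = F₁.card + F₂.card := by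
    rw [hF₁, hF₂, card_filter_add_card_filter_not]
  have h1 : F₁.card ≤ ⌈y₀⌉₊ := by
    have h2 : F₁ ⊆ range ⌈y₀⌉₊ := by
      intro q hq
      rw [hF₁, mem_filter] at hq
      rw [mem_range, Nat.lt_ceil]
      exact hq.2
    have h3 := card_le_card h2
    rwa [card_range] at h3
  set idx : ℕ → ℕ := fun q => ⌊Real.log (Real.log q / Real.log y₀) / Real.log (1 + a)⌋₊ with hidx
  set J : ℕ := ⌊(Real.log (Real.log N) + |Real.log (Real.log y₀)|) / Real.log (1 + a)⌋₊ with hJ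
  have hfib : ∀ j ∈ F₂.image idx, (F₂.filter (fun q => idx q = j)).card ≤ K := by
    intro j _
    apply h (y₀ ^ ((1 + a) ^ j))
    · calc y₀ = y₀ ^ (1 : ℝ) := (Real.rpow_one _).symm
        _ ≤ y₀ ^ ((1 + a) ^ j) :=
          Real.rpow_le_rpow_of_exponent_le (by linarith) (one_le_pow₀ (by linarith))
    · intro q hq
      rw [mem_filter, hF₂, mem_filter, hF, mem_filter] at hq
      obtain ⟨⟨⟨hq1, hq2⟩, hq3⟩, hq4⟩ := hq
      push Not at hq3
      refine ⟨hq2, ?_⟩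
      have hq0 : (0 : ℝ) < q := by linarith
      have hv1 : 1 ≤ Real.log q / Real.log y₀ := by
        rw [le_div_iff₀ hly, one_mul]
        exact Real.log_le_log (by linarith) hq3
      have ht0 : 0 ≤ Real.log (Real.log q / Real.log y₀) / Real.log (1 + a) :=
        div_nonneg (Real.log_nonneg hv1) hla.le
      have hj1 := Nat.floor_le ht0
      have hj2 := Nat.lt_floor_add_one (Real.log (Real.log q / Real.log y₀) / Real.log (1 + a))
      simp only [hidx] at hq4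
      rw [hq4] at hj1 hj2
      rw [le_div_iff₀ hla] at hj1
      rw [div_lt_iff₀ hla] at hj2
      have hv0 : 0 < Real.log q / Real.log y₀ := by linarith
      have e1 : (1 + a) ^ j ≤ Real.log q / Real.log y₀ := by
        rw [← Real.log_le_log_iff (by positivity) hv0, Real.log_pow]
        exact hj1
      have e2 : Real.log q / Real.log y₀ ≤ (1 + a) ^ (j + 1) := by
        rw [← Real.log_le_log_iff hv0 (by positivity), Real.log_pow]
        push_cast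
        exact hj2.le
      rw [le_div_iff₀ hly] at e1
      rw [div_le_iff₀ hly] at e2
      constructor
      · rw [← Real.log_le_log_iff (by positivity) hq0, Real.log_rpow (by linarith)]
        exact e1
      · rw [← Real.log_le_log_iff hq0 (by positivity), ← Real.rpow_mul (by linarith),
          Real.log_rpow (by linarith), ← pow_succ]
        exact e2
  have himg : (F₂.image idx).card ≤ J + 1 := by
    have h2 : F₂.image idx ⊆ range (J + 1) := by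
      intro j hj
      rw [mem_image] at hj
      obtain ⟨q, hq, rfl⟩ := hj
      rw [hF₂, mem_filter, hF, mem_filter, mem_Icc] at hq
      obtain ⟨⟨⟨hq1, hqN⟩, hq2⟩, hq3⟩ := hq
      push Not at hq3
      rw [mem_range]
      apply Nat.lt_succ_of_le
      simp only [hidx]
      rw [hJ]
      apply Nat.floor_le_floor
      apply div_le_div_of_nonneg_right _ hla.le
      have hq0 : (0 : ℝ) < q := by linarith
      have hlq : 0 < Real.log q := lt_of_lt_of_le hly (Real.log_le_log (by linarith) hq3)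
      rw [Real.log_div hlq.ne' hly.ne']
      have h3 : Real.log (Real.log q) ≤ Real.log (Real.log N) := by
        apply Real.log_le_log hlq
        apply Real.log_le_log hq0
        exact_mod_cast hqN
      have h4 := neg_abs_le (Real.log (Real.log y₀))
      linarith
    have h3 := card_le_card h2
    rwa [card_range] at h3
  have h2 : F₂.card ≤ K * (J + 1) :=
    (card_le_mul_card_image F₂ K hfib).trans (Nat.mul_le_mul_left K himg)
  have hJle : (J : ℝ) ≤ (Real.log (Real.log N) + |Real.log (Real.log y₀)|) / Real.log (1 + a) :=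
    Nat.floor_le (div_nonneg (add_nonneg hllN (abs_nonneg _)) hla.le)
  have h3 : (F.card : ℝ) ≤ ⌈y₀⌉₊ + K * (J + 1) := by
    have : F.card ≤ ⌈y₀⌉₊ + K * (J + 1) := by omega
    exact_mod_cast this
  refine h3.trans ?_
  have hK0 : (0 : ℝ) ≤ K := Nat.cast_nonneg K
  have hc0 : (0 : ℝ) ≤ ⌈y₀⌉₊ := Nat.cast_nonneg _
  have habs := abs_nonneg (Real.log (Real.log y₀))
  have h4 : (J : ℝ) + 1 ≤ (1 + (1 + |Real.log (Real.log y₀)|) / Real.log (1 + a)) *
      (1 + Real.log (Real.log N)) := by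
    have h5 : (Real.log (Real.log N) + |Real.log (Real.log y₀)|) / Real.log (1 + a) ≤
        (1 + |Real.log (Real.log y₀)|) / Real.log (1 + a) * (1 + Real.log (Real.log N)) := by
      rw [div_mul_eq_mul_div]
      apply div_le_div_of_nonneg_right _ hla.le
      nlinarith [mul_nonneg habs hllN]
    nlinarith
  calc (⌈y₀⌉₊ : ℝ) + K * (J + 1) ≤ ⌈y₀⌉₊ * (1 + Real.log (Real.log N)) +
        K * ((1 + (1 + |Real.log (Real.log y₀)|) / Real.log (1 + a)) *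
      (1 + Real.log (Real.log N))) := by
        apply add_le_add
        · nlinarith [mul_nonneg hc0 hllN]
        · exact mul_le_mul_of_nonneg_left h4 hK0
    _ = C * (1 + Real.log (Real.log N)) := by rw [hC]; ring

open Classical in
theorem main_two (δ : ℝ) (hδ : 0 < δ) : ∃ C : ℝ, ∀ N : ℕ, 3 ≤ N →
    (((Icc 1 N).filter (fun q : ℕ => q.Prime ∧
      (Pn q ⌊(q : ℝ) ^ (2 + δ)⌋₊ : ℝ) < (q : ℝ) ^ 2)).card : ℝ) ≤
      C * (1 + Real.log (Real.log N)) := by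
  obtain ⟨K, y₀, hy₀, h⟩ := one_scale δ hδ
  exact cover (δ / 8) (by positivity) K y₀ hy₀ _ fun y hy S hS => h y hy S fun q hq =>
    ⟨(hS q hq).1.1, (hS q hq).2.1, (hS q hq).2.2, (hS q hq).1.2⟩

end Pool.Agent.H482.AP
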