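import Mathlib
import Pool.Agent.H482.AP.Cor

/-! Classes modulo large primes: the second moment. -/

set_option autoImplicit false

namespace Pool.Agent.H482.AP

open Finset

open Pool.Agent.Helper112 (ee)
open Pool.Agent.Y855 (TT MI Bad)
open Pool.Agent.H482.MR (Tf mem_TT zz zz_spec BadP root_iff jac_pm)

/-- the indicator function -/
noncomputable def ind1 (T' : Finset ℕ) : ℕ → ℂ := fun n => if n ∈ T' then 1 else 0

theorem sum_ind1 (T' : Finset ℕ) (x : ℕ) (hT : T' ⊆ Icc 1 x) :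
    ∑ n ∈ Icc 1 x, ind1 T' n = (T'.card : ℂ) := by
  unfold ind1
  rw [← sum_filter, filter_mem_eq_inter, inter_eq_right.2 hT]
  simp

/-- the number of elements in a set of residue classes -/
theorem class_count (q x : ℕ) (hq : q.Prime) (T' : Finset ℕ) (hT : T' ⊆ Icc 1 x) (C : Finset ℕ)
    (hC : C ⊆ range q) :
    ((((T'.filter (fun p => p % q ∈ C)).card : ℝ)) - (C.card : ℝ) / q * (T'.card : ℝ)) ^ 2 ≤
      AS x (ind1 T') q := by
  have : NeZero q := ⟨hq.ne_zero⟩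
  have : Fact q.Prime := ⟨hq⟩
  classical
  set b := ind1 T' with hb
  obtain ⟨Φ, hΦ⟩ : ∃ Φ : ZMod q → ℂ,
      ∀ c, Φ c = ∑ n ∈ (Icc 1 x).filter (fun n : ℕ => (n : ZMod q) = c), b n := ⟨_, fun _ => rfl⟩
  have h1 : ∀ a : ℕ, ∑ c : ZMod q, Φ c * ZMod.stdAddChar ((a : ZMod q) * c) =
      ∑ n ∈ Icc 1 x, b n * ee (n * a / q) := by
    intro a
    rw [← Finset.sum_fiberwise (Icc 1 x) (fun n : ℕ => (n : ZMod q))]
    refine Finset.sum_congr rfl fun c _ => ?_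
    rw [hΦ, Finset.sum_mul]
    refine Finset.sum_congr rfl fun n hn => ?_
    rw [← (Finset.mem_filter.1 hn).2, mon_std]
  have h2 := Pool.Agent.Helper112.MLS.parseval q Φ
  rw [mon_range] at h2
  simp only [h1] at h2
  have h3 : range q = insert 0 (red q) := by
    ext a
    unfold red
    rw [mem_insert, mem_filter, mem_range]
    constructor
    · intro ha
      rcases Nat.eq_zero_or_pos a with h | h
      · exact Or.inl h
      · exact Or.inr ⟨ha, ((Nat.Prime.coprime_iff_not_dvd hq).2 fun hd => absurd (Nat.le_of_dvd h hd) (not_le.2 ha)).symm⟩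
    · rintro (rfl | h)
      · exact hq.pos
      · exact h.1
  have h4 : (0 : ℕ) ∉ red q := by
    unfold red
    rw [mem_filter, Nat.coprime_zero_left]
    intro h
    exact hq.one_lt.ne' h.2
  rw [h3, sum_insert h4] at h2
  have h5 : ∑ n ∈ Icc 1 x, b n * ee (n * ((0 : ℕ) : ℝ) / q) = (T'.card : ℂ) := by
    rw [← sum_ind1 T' x hT]
    refine Finset.sum_congr rfl fun n _ => ?_
    rw [Nat.cast_zero, mul_zero, zero_div, Pool.Agent.Helper112.ls_ee_zero, mul_one]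
  rw [h5] at h2
  have hAS : AS x b q = (q : ℝ) * ∑ c : ZMod q, ‖Φ c‖ ^ 2 - (T'.card : ℝ) ^ 2 := by
    rw [← h2, Complex.norm_natCast, add_sub_cancel_left]
    rfl
  -- the numbers of elements of the classes
  obtain ⟨Nc, hNc⟩ : ∃ Nc : ZMod q → ℝ,
      ∀ c, Nc c = ((T'.filter (fun n : ℕ => (n : ZMod q) = c)).card : ℝ) := ⟨_, fun _ => rfl⟩
  have hΦN : ∀ c, Φ c = (Nc c : ℂ) := by
    intro c
    rw [hΦ, hNc, hb]
    unfold ind1
    rw [sum_ite, sum_const_zero, add_zero, sum_const, nsmul_eq_mul, mul_one, filter_filter]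
    have : (Icc 1 x).filter (fun n : ℕ => (n : ZMod q) = c ∧ n ∈ T') =
        T'.filter (fun n : ℕ => (n : ZMod q) = c) := by
      ext n
      rw [mem_filter, mem_filter]
      constructor
      · rintro ⟨-, h6, h7⟩
        exact ⟨h7, h6⟩
      · rintro ⟨h6, h7⟩
        exact ⟨hT h6, h7, h6⟩
    rw [this]
    push_cast
    rfl
  have hnorm : ∀ c, ‖Φ c‖ ^ 2 = Nc c ^ 2 := by
    intro c
    rw [hΦN, Complex.norm_real, Real.norm_eq_abs, sq_abs]
  rw [sum_congr rfl (fun c _ => hnorm c)] at hAS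
  have htot : ∑ c : ZMod q, Nc c = (T'.card : ℝ) := by
    have h6 := card_eq_sum_card_fiberwise (s := T') (t := (univ : Finset (ZMod q)))
      (f := fun n : ℕ => (n : ZMod q)) (fun _ _ => mem_coe.2 (mem_univ _))
    rw [h6]
    push_cast
    exact sum_congr rfl fun c _ => hNc c
  set C' : Finset (ZMod q) := C.image (fun u : ℕ => (u : ZMod q)) with hC'
  have hinjC : Set.InjOn (fun u : ℕ => (u : ZMod q)) (C : Set ℕ) := by
    intro u hu v hv huv
    have hu' := mem_range.1 (hC hu)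
    have hv' := mem_range.1 (hC hv)
    simp only at huv
    rw [ZMod.natCast_eq_natCast_iff] at huv
    exact Nat.ModEq.eq_of_lt_of_lt huv hu' hv'
  have hC'c : C'.card = C.card := card_image_of_injOn hinjC
  have hcnt : ((T'.filter (fun p => p % q ∈ C)).card : ℝ) = ∑ c ∈ C', Nc c := by
    have h6 : (T'.filter (fun p => p % q ∈ C)).card =
        ∑ c ∈ C', ((T'.filter (fun p => p % q ∈ C)).filter (fun n : ℕ => (n : ZMod q) = c)).card := by
      apply card_eq_sum_card_fiberwise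
      intro n hn
      rw [mem_coe, mem_filter] at hn
      rw [hC', mem_coe, mem_image]
      exact ⟨n % q, hn.2, by rw [ZMod.natCast_mod]⟩
    rw [h6]
    push_cast
    apply sum_congr rfl
    intro c hc
    rw [hNc]
    congr 2
    ext n
    rw [mem_filter, mem_filter, mem_filter]
    constructor
    · rintro ⟨⟨h7, -⟩, h8⟩
      exact ⟨h7, h8⟩
    · rintro ⟨h7, h8⟩
      refine ⟨⟨h7, ?_⟩, h8⟩
      rw [hC', mem_image] at hc
      obtain ⟨u, hu, huc⟩ := hc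
      have h9 : n % q = u := by
        have h10 : ((n : ℕ) : ZMod q) = ((u : ℕ) : ZMod q) := by rw [h8, huc]
        rw [ZMod.natCast_eq_natCast_iff] at h10
        have h11 := mem_range.1 (hC hu)
        unfold Nat.ModEq at h10
        rw [h10, Nat.mod_eq_of_lt h11]
      rw [h9]
      exact hu
  have hq0 : (0 : ℝ) < q := by exact_mod_cast hq.pos
  obtain ⟨t, ht⟩ : ∃ t : ℝ, t = (T'.card : ℝ) := ⟨_, rfl⟩
  rw [← ht] at hAS htot ⊢
  have hdiff : ((T'.filter (fun p => p % q ∈ C)).card : ℝ) - (C.card : ℝ) / q * t =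
      ∑ c ∈ C', (Nc c - t / q) := by
    rw [sum_sub_distrib, ← hcnt, sum_const, nsmul_eq_mul, hC'c]
    ring
  rw [hdiff]
  have hcs : (∑ c ∈ C', (Nc c - t / q)) ^ 2 ≤ (C'.card : ℝ) * ∑ c ∈ C', (Nc c - t / q) ^ 2 :=
    sq_sum_le_card_mul_sum_sq
  have hCq : (C'.card : ℝ) ≤ q := by
    have h6 := card_le_univ C'
    rw [ZMod.card] at h6
    exact_mod_cast h6
  have hsub : ∑ c ∈ C', (Nc c - t / q) ^ 2 ≤ ∑ c : ZMod q, (Nc c - t / q) ^ 2 :=
    sum_le_sum_of_subset_of_nonneg (subset_univ _) fun _ _ _ => by positivity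
  have hall : ∑ c : ZMod q, (Nc c - t / q) ^ 2 = ∑ c : ZMod q, Nc c ^ 2 - t ^ 2 / q := by
    have h6 : ∀ c : ZMod q, (Nc c - t / q) ^ 2 = Nc c ^ 2 - 2 * (t / q) * Nc c + (t / q) ^ 2 :=
      fun c => by ring
    rw [sum_congr rfl (fun c _ => h6 c), sum_add_distrib, sum_sub_distrib, ← mul_sum, htot,
      sum_const, nsmul_eq_mul, card_univ, ZMod.card]
    field_simp
    ring
  calc (∑ c ∈ C', (Nc c - t / q)) ^ 2 ≤ (C'.card : ℝ) * ∑ c ∈ C', (Nc c - t / q) ^ 2 := hcs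
    _ ≤ (q : ℝ) * ∑ c : ZMod q, (Nc c - t / q) ^ 2 :=
      mul_le_mul hCq hsub (sum_nonneg fun _ _ => by positivity) hq0.le
    _ = AS x b q := by
      rw [hall, hAS, mul_sub]
      congr 1
      field_simp

/-- the large sieve for all classes modulo primes -/
theorem lsq (N Q R : ℕ) (S : Finset ℕ) (a : ℕ → ℂ) (hS : ∀ q ∈ S, q.Prime ∧ Odd q ∧ q ≤ Q)
    (ha : ∀ p : ℕ, p.Prime → 3 ≤ p → p ≤ R → ∀ n ∈ Icc 1 N, (n % p = 0 ∨ n % p = 1) → a n = 0) :
    (∑ m ∈ (Icc 1 R).filter (fun m => Squarefree m ∧ Nat.Coprime (2 * ∏ D ∈ S, D) m), g m) *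
      ∑ q ∈ S, AS N a q ≤ 6 * (N + ((Q * R : ℕ) : ℝ) ^ 2) * ∑ n ∈ Icc 1 N, ‖a n‖ ^ 2 := by
  classical
  have hind := ind two mon leg
  set W := ∏ D ∈ S, D with hW
  set Ms := (Icc 1 R).filter (fun m => Squarefree m ∧ Nat.Coprime (2 * W) m) with hMs
  have hdvd : ∀ D ∈ S, D ∣ W := fun D hD => Finset.dvd_prod_of_mem _ hD
  have hm : ∀ m ∈ Ms, (1 ≤ m ∧ m ≤ R) ∧ Squarefree m ∧ Odd m ∧ Nat.Coprime m W := by
    intro m hm
    rw [hMs, Finset.mem_filter, Finset.mem_Icc] at hm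
    refine ⟨hm.1, hm.2.1, ?_, ?_⟩
    · have h1 := Nat.Coprime.coprime_mul_right hm.2.2
      exact (Nat.coprime_two_left).1 h1
    · exact (Nat.Coprime.coprime_mul_left hm.2.2).symm
  have h1 : ∀ m ∈ Ms, ∀ q ∈ S, g m * AS N a q ≤ AS N a (m * q) := by
    intro m hmm q hq
    obtain ⟨⟨h2, h3⟩, h4, h5, h6⟩ := hm m hmm
    have hcop : m.Coprime q := h6.coprime_dvd_right (hdvd q hq)
    rw [Ind.split two N m q a h2 (hS q hq).1.one_le hcop]
    unfold AS
    rw [mul_sum]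
    apply sum_le_sum
    intro d _
    have h7 := hind 1 m N (fun n => a n * ee ((n : ℝ) * ((d : ℝ) / q))) squarefree_one odd_one h4 h5
      (Nat.coprime_one_left m) (by
      intro p hp n hn hpn
      have hpp := Nat.prime_of_mem_primeFactors hp
      have hpd := Nat.dvd_of_mem_primeFactors hp
      have hp2 : p ≠ 2 := by
        rintro rfl
        exact (Nat.not_even_iff_odd.2 h5) (even_iff_two_dvd.2 hpd)
      have hp3 : 3 ≤ p := by
        have := hpp.two_le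
        omega
      rw [ha p hpp hp3 ((Nat.le_of_dvd h2 hpd).trans h3) n hn hpn, zero_mul])
    rw [one_mul] at h7
    refine le_trans (le_of_eq ?_) h7
    congr 3
    apply sum_congr rfl
    intro n _
    rw [jacobiSym.one_right, Int.cast_one, mul_one, mul_div_assoc]
  have h2 : (∑ m ∈ Ms, g m) * ∑ q ∈ S, AS N a q ≤ ∑ x ∈ Ms ×ˢ S, AS N a (x.1 * x.2) := by
    rw [Finset.sum_mul_sum, Finset.sum_product]
    exact Finset.sum_le_sum fun m hmm => Finset.sum_le_sum fun D hD => h1 m hmm D hD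
  have hinj : Set.InjOn (fun x : ℕ × ℕ => x.1 * x.2) (Ms ×ˢ S : Finset (ℕ × ℕ)) := by
    rintro ⟨m, q⟩ hx ⟨m', q'⟩ hx' heq
    rw [mem_coe, mem_product] at hx hx'
    simp only at heq hx hx'
    have c1 := (hm m hx.1).2.2.2
    have c2 := (hm m' hx'.1).2.2.2
    have c3 := (hm m hx.1).1.1
    have e1 : Nat.gcd (m * q) W = q := by
      rw [Nat.Coprime.gcd_mul_left_cancel q c1]
      exact Nat.gcd_eq_left (hdvd q hx.2)
    have e2 : Nat.gcd (m' * q') W = q' := by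
      rw [Nat.Coprime.gcd_mul_left_cancel q' c2]
      exact Nat.gcd_eq_left (hdvd q' hx'.2)
    have e3 : q = q' := by rw [← e1, heq, e2]
    subst e3
    have e4 : m = m' := Nat.eq_of_mul_eq_mul_right (hS q hx.2).1.pos heq
    rw [e4]
  have h3 : ∑ x ∈ Ms ×ˢ S, AS N a (x.1 * x.2) =
      ∑ f ∈ (Ms ×ˢ S).image (fun x : ℕ × ℕ => x.1 * x.2), AS N a f := by
    rw [sum_image hinj]
  have h4 : (Ms ×ˢ S).image (fun x : ℕ × ℕ => x.1 * x.2) ⊆ Icc 1 (Q * R) := by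
    intro f hf
    rw [mem_image] at hf
    obtain ⟨⟨m, q⟩, hx, rfl⟩ := hf
    rw [mem_product] at hx
    have c1 := (hm m hx.1).1
    have c2 := (hS q hx.2)
    rw [mem_Icc]
    refine ⟨Nat.mul_pos c1.1 c2.1.pos, ?_⟩
    simp only
    rw [Nat.mul_comm Q R]
    exact Nat.mul_le_mul c1.2 c2.2.2
  calc (∑ m ∈ Ms, g m) * ∑ q ∈ S, AS N a q ≤ ∑ x ∈ Ms ×ˢ S, AS N a (x.1 * x.2) := h2
    _ = ∑ f ∈ (Ms ×ˢ S).image (fun x : ℕ × ℕ => x.1 * x.2), AS N a f := h3
    _ ≤ ∑ f ∈ Icc 1 (Q * R), AS N a f :=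
      sum_le_sum_of_subset_of_nonneg h4 fun f _ _ => LSAx.AS_nonneg N a f
    _ ≤ _ := by
      have := LSAx.ALS N (Q * R) a
      exact this

/-- few primes with a large second moment -/
theorem few_Q (x Q R s M₀ Y : ℕ) (T' : Finset ℕ) (t ε : ℝ)
    (hT1 : T' ⊆ Icc 1 x) (hT2 : ∀ n ∈ T', ∀ l : ℕ, l.Prime → 3 ≤ l → l ≤ R → n % l ≠ 0 ∧ n % l ≠ 1)
    (hQR : (Q * R) ^ 2 ≤ x) (hs : 1 ≤ s) (hsR : s * s ≤ R) (S : Finset ℕ)
    (hS : ∀ q ∈ S, q.Prime ∧ q ≤ Q ∧ Y < q)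
    (hSM : S.card ≤ M₀) (hY : 2 * M₀ ≤ Y) (hY2 : 2 ≤ Y) (hTt : (T'.card : ℝ) ≤ t) (_ht : 0 ≤ t)
    (hbig : ∀ q ∈ S, (ε * t) ^ 2 ≤ AS x (ind1 T') q) :
    (1 / 4 * Real.log s) ^ 2 * (S.card * (ε * t) ^ 2) ≤ 12 * x * t := by
  classical
  have h1 := lsq x Q R S (ind1 T') (fun q hq => ⟨(hS q hq).1, (hS q hq).1.odd_of_ne_two (by
      have := (hS q hq).2.2
      omega), (hS q hq).2.1⟩) (by
    intro p hp hp3 hpR n _ hn01
    unfold ind1
    rw [if_neg]
    intro hn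
    have := hT2 n hn p hp hp3 hpR
    tauto)
  obtain ⟨hq0, hqc, hqY⟩ := prod_factors S 1 Y (fun q hq => ⟨(hS q hq).1.ne_zero, by
      rw [(hS q hq).1.primeFactors, card_singleton], fun p hp => by
      rw [(hS q hq).1.primeFactors, mem_singleton] at hp
      rw [hp]
      exact (hS q hq).2.2⟩)
  have hq1 : 1 ≤ ∏ D ∈ S, D := Nat.pos_of_ne_zero hq0
  have h2 := gsu (∏ D ∈ S, D) s R hq1 hs hsR
  have hd := dens (∏ D ∈ S, D) M₀ Y hq0 (by omega) hqY hY hY2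
  have hlogs : 0 ≤ Real.log s := Real.log_natCast_nonneg s
  have h3 : (1 / 4 * Real.log s) ^ 2 ≤ ∑ m ∈ (Icc 1 R).filter
      (fun m => Squarefree m ∧ Nat.Coprime (2 * ∏ D ∈ S, D) m), g m := by
    refine le_trans ?_ h2
    apply pow_le_pow_left₀ (by positivity)
    exact mul_le_mul_of_nonneg_right hd hlogs
  have h4 : (S.card : ℝ) * (ε * t) ^ 2 ≤ ∑ q ∈ S, AS x (ind1 T') q := by
    rw [← nsmul_eq_mul, ← sum_const]
    exact sum_le_sum hbig
  have h5 : ∑ n ∈ Icc 1 x, ‖ind1 T' n‖ ^ 2 = T'.card := by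
    have : ∀ n ∈ Icc 1 x, ‖ind1 T' n‖ ^ 2 = if n ∈ T' then (1 : ℝ) else 0 := by
      intro n _
      unfold ind1
      split_ifs <;> simp
    rw [sum_congr rfl this, ← sum_filter, filter_mem_eq_inter, inter_eq_right.2 hT1]
    simp
  rw [h5] at h1
  have h6 : (((Q * R : ℕ) : ℝ)) ^ 2 ≤ x := by exact_mod_cast hQR
  have h0 : 0 ≤ (S.card : ℝ) * (ε * t) ^ 2 := by positivity
  calc (1 / 4 * Real.log s) ^ 2 * (S.card * (ε * t) ^ 2)
      ≤ (∑ m ∈ (Icc 1 R).filter (fun m => Squarefree m ∧ Nat.Coprime (2 * ∏ D ∈ S, D) m), g m) *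
        ∑ q ∈ S, AS x (ind1 T') q :=
        mul_le_mul h3 h4 h0 (le_trans (by positivity) h3)
    _ ≤ 6 * (x + ((Q * R : ℕ) : ℝ) ^ 2) * T'.card := h1
    _ ≤ 12 * x * t := by
        have h7 : 6 * ((x : ℝ) + ((Q * R : ℕ) : ℝ) ^ 2) ≤ 12 * x := by linarith
        exact mul_le_mul h7 hTt (Nat.cast_nonneg _) (by positivity)

end Pool.Agent.H482.AP
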