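import Mathlib
import Pool.Agent.H482.AP.Joi

/-! Primes with the primitive root `q` in arbitrary sets of classes modulo `q`. -/

set_option autoImplicit false

namespace Pool.Agent.H482.AP

open Finset

open Pool.Agent.Y855 (TT MI Bad)
open Pool.Agent.H482.MR (Tf mem_TT zz zz_spec mainA MI_primes root_iff jac_pm)

/-- the symbol of a class which is admissible by the reciprocity law -/
def Adm (c q u : ℕ) : Prop := jacobiSym u q = if c = 3 ∧ q % 4 = 3 then 1 else -1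

open Classical in
theorem root_class (q : ℕ) (hq : q.Prime) (hq2 : 2 < q) (x z H c : ℕ) (hc : c = 1 ∨ c = 3)
    (hqH : q ≤ H) (C : Finset ℕ) :
    |(((Tf x z c).filter (fun p : ℕ => orderOf ((q : ℕ) : ZMod p) = p - 1 ∧ p % q ∈ C)).card : ℝ) -
      ((((Tf x z c).filter (fun p => H < p)).filter
        (fun p : ℕ => p % q ∈ C.filter (fun u => Adm c q u))).card : ℝ)| ≤
      H + ((Bad ((q : ℕ) : ℤ) x z H).card : ℝ) := by
  set T := Tf x z c with hT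
  set U := Bad ((q : ℕ) : ℤ) x z H with hU
  set V := T.filter (fun p => p ≤ H) with hV
  have hVc : V.card ≤ H := by
    have h1 : V ⊆ Icc 1 H := by
      intro p hp
      rw [hV, mem_filter, hT] at hp
      unfold Tf at hp
      rw [mem_filter, mem_TT] at hp
      exact mem_Icc.2 ⟨hp.1.1.1.1, hp.2⟩
    have h2 := card_le_card h1
    rwa [Nat.card_Icc, Nat.add_sub_cancel] at h2
  have hkey : ∀ p ∈ T, H < p → p ∉ U →
      (orderOf ((q : ℕ) : ZMod p) = p - 1 ↔ Adm c q (p % q)) := by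
    intro p hp hpH hpU
    have hp' := hp
    rw [hT] at hp'
    unfold Tf at hp'
    rw [mem_filter] at hp'
    have hpp := (mem_TT.1 hp'.1).2.1
    have h1 : orderOf ((q : ℕ) : ZMod p) = p - 1 ↔ jacobiSym q p = -1 := by
      apply root_iff hq hpp (by omega)
      rintro (h | ⟨l, h1, h2, h3, h4⟩)
      · omega
      · apply hpU
        rw [hU]
        unfold Bad
        rw [mem_filter]
        refine ⟨hp'.1, hpH, l, h1, h2, h3, ?_⟩
        rw [Int.cast_natCast]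
        exact h4
    rw [h1, jac_sg hpp hq (by omega) hq2 hc hp'.2]
    unfold Adm sg
    have h2 : jacobiSym ((p % q : ℕ) : ℤ) q = jacobiSym p q := by
      rw [jacobiSym.mod_left (p : ℤ) q, Int.natCast_mod]
    rw [h2]
    split_ifs
    · constructor
      · intro h; linarith
      · intro h; linarith
    · rw [one_mul]
  have c1 : (T.filter (fun p : ℕ => orderOf ((q : ℕ) : ZMod p) = p - 1 ∧ p % q ∈ C)).card ≤
      ((T.filter (fun p => H < p)).filter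
        (fun p : ℕ => p % q ∈ C.filter (fun u => Adm c q u))).card + V.card + U.card := by
    refine (card_le_card ?_).trans ((card_union_le _ _).trans (Nat.add_le_add_right
      (card_union_le ((T.filter (fun p => H < p)).filter
        (fun p : ℕ => p % q ∈ C.filter (fun u => Adm c q u))) V) U.card))
    intro p hp
    rw [mem_filter] at hp
    rw [mem_union, mem_union]
    by_cases h1 : p ∈ U
    · exact Or.inr h1
    · by_cases h2 : H < p
      · left; left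
        rw [mem_filter, mem_filter, mem_filter]
        exact ⟨⟨hp.1, h2⟩, hp.2.2, (hkey p hp.1 h2 h1).1 hp.2.1⟩
      · left; right
        rw [hV, mem_filter]
        exact ⟨hp.1, by omega⟩
  have c2 : ((T.filter (fun p => H < p)).filter
      (fun p : ℕ => p % q ∈ C.filter (fun u => Adm c q u))).card ≤
      (T.filter (fun p : ℕ => orderOf ((q : ℕ) : ZMod p) = p - 1 ∧ p % q ∈ C)).card + U.card := by
    refine (card_le_card ?_).trans (card_union_le _ _)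
    intro p hp
    rw [mem_filter, mem_filter, mem_filter] at hp
    rw [mem_union]
    by_cases h1 : p ∈ U
    · exact Or.inr h1
    · left
      rw [mem_filter]
      exact ⟨hp.1.1, (hkey p hp.1.1 hp.1.2 h1).2 hp.2.2, hp.2.1⟩
  have c1' : ((T.filter (fun p : ℕ => orderOf ((q : ℕ) : ZMod p) = p - 1 ∧ p % q ∈ C)).card : ℝ) ≤
      (((T.filter (fun p => H < p)).filter
        (fun p : ℕ => p % q ∈ C.filter (fun u => Adm c q u))).card : ℝ) + V.card + U.card := by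
    exact_mod_cast c1
  have c2' : (((T.filter (fun p => H < p)).filter
      (fun p : ℕ => p % q ∈ C.filter (fun u => Adm c q u))).card : ℝ) ≤
      ((T.filter (fun p : ℕ => orderOf ((q : ℕ) : ZMod p) = p - 1 ∧ p % q ∈ C)).card : ℝ) +
        U.card := by
    exact_mod_cast c2
  have hVc' : (V.card : ℝ) ≤ H := by exact_mod_cast hVc
  have hV0 : (0 : ℝ) ≤ V.card := Nat.cast_nonneg _
  rw [abs_le]
  constructor <;> linarith

set_option maxHeartbeats 1000000 in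
open Classical in
theorem main_join : ∃ k₀ : ℕ, 1 ≤ k₀ ∧ ∃ K₁ : ℝ, 1 ≤ K₁ ∧ ∀ k : ℕ, k₀ ≤ k → ∀ (ε δ : ℝ),
    0 < ε → 0 < δ → ∃ K x₀ : ℕ, 3 ≤ x₀ ∧ ∀ x : ℕ, x₀ ≤ x →
    (∀ c : ℕ, c = 1 ∨ c = 3 → (x : ℝ) / (K₁ * (Real.log x) ^ 2) ≤ (Tf x (zz k x) c).card) ∧
    ∃ E : Finset ℕ, E.card ≤ K ∧ ∀ q : ℕ, q.Prime → (q : ℝ) ≤ (x : ℝ) ^ (1 / 2 - δ) → q ∉ E →
      ∀ c : ℕ, c = 1 ∨ c = 3 → ∀ C ⊆ range q,
      |(((Tf x (zz k x) c).filter
          (fun p : ℕ => orderOf ((q : ℕ) : ZMod p) = p - 1 ∧ p % q ∈ C)).card : ℝ) -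
        ((C.filter (fun u => Adm c q u)).card : ℝ) / q * ((Tf x (zz k x) c).card : ℝ)| ≤
          ε * ((Tf x (zz k x) c).card : ℝ) := by
  obtain ⟨K₁, hK₁, xA, -, hA⟩ := mainA 0 1 one_pos
  have hK₁0 : 0 < K₁ := by linarith
  refine ⟨⌈K₁⌉₊ + 1, by omega, K₁, by linarith, ?_⟩
  intro k hk ε δ hε hδ
  have hkK : K₁ ≤ k := (Nat.le_ceil K₁).trans (by exact_mod_cast (by omega : ⌈K₁⌉₊ ≤ k))
  have hk1 : 1 ≤ k := by omega
  have hk1r : (1 : ℝ) ≤ k := by exact_mod_cast hk1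
  have hk0 : (0 : ℝ) < k := by linarith
  obtain ⟨ρ, hρd⟩ : ∃ ρ : ℝ, ρ = min (min δ (1 / (k : ℝ))) (1 / 2) := ⟨_, rfl⟩
  have hρ : 0 < ρ := by
    rw [hρd]
    exact lt_min (lt_min hδ (by positivity)) (by norm_num)
  have hρδ : ρ ≤ δ := by rw [hρd]; exact (min_le_left _ _).trans (min_le_left _ _)
  have hρk : ρ ≤ 1 / (k : ℝ) := by rw [hρd]; exact (min_le_left _ _).trans (min_le_right _ _)
  have hρ2 : ρ ≤ 1 / 2 := by rw [hρd]; exact min_le_right _ _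
  obtain ⟨ε₁, hε₁⟩ : ∃ ε₁ : ℝ, ε₁ = ε / 4 := ⟨_, rfl⟩
  have hε₁0 : 0 < ε₁ := by rw [hε₁]; positivity
  obtain ⟨η, hη⟩ : ∃ η : ℝ, η = ε / 16 := ⟨_, rfl⟩
  have hη0 : 0 < η := by rw [hη]; positivity
  obtain ⟨m₀, hm₀⟩ : ∃ m₀ : ℕ, m₀ = ⌈(8 * (k : ℝ) ^ 2 + 1) / η⌉₊ + 1 := ⟨_, rfl⟩
  have hm₀' : (8 * (k : ℝ) ^ 2 + 1) / η < m₀ := by
    rw [hm₀]
    push_cast
    have := Nat.le_ceil ((8 * (k : ℝ) ^ 2 + 1) / η)
    linarith
  obtain ⟨M₀, hM₀⟩ : ∃ M₀ : ℕ, M₀ = ⌈3072 * K₁ / (ρ ^ 2 * ε₁ ^ 2)⌉₊ + 1 := ⟨_, rfl⟩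
  have hM₀' : 3072 * K₁ / (ρ ^ 2 * ε₁ ^ 2) < M₀ := by
    rw [hM₀]
    push_cast
    have := Nat.le_ceil (3072 * K₁ / (ρ ^ 2 * ε₁ ^ 2))
    linarith
  obtain ⟨Y, hY⟩ : ∃ Y : ℕ, Y = 2 * M₀ + 2 := ⟨_, rfl⟩
  obtain ⟨xB, hB⟩ := few_B k m₀ hk1 η hη0 hm₀'
  obtain ⟨X₁, hX₁3, hX₁⟩ := zz_spec k hk1r 2 1
  obtain ⟨X₂, hX₂3, hX₂⟩ := num_fact k hk1 ρ K₁ (ε / 8) hρ hρk hρ2 hK₁0 (by positivity)
  refine ⟨2 * M₀ + m₀ + Y, max (max xA xB) (max X₁ X₂), ?_, ?_⟩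
  · exact hX₁3.trans ((le_max_left _ _).trans (le_max_right _ _))
  intro x hx
  have hxA : xA ≤ x := ((le_max_left _ _).trans (le_max_left _ _)).trans hx
  have hxB : xB ≤ x := ((le_max_right _ _).trans (le_max_left _ _)).trans hx
  have hxX₁ : X₁ ≤ x := ((le_max_left _ _).trans (le_max_right _ _)).trans hx
  have hxX₂ : X₂ ≤ x := ((le_max_right _ _).trans (le_max_right _ _)).trans hx
  have hx3 : 3 ≤ x := hX₁3.trans hxX₁
  have hx0 : (0 : ℝ) < x := by exact_mod_cast (by omega : 0 < x)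
  have hx1 : (1 : ℝ) ≤ x := by exact_mod_cast (by omega : 1 ≤ x)
  obtain ⟨z, hz⟩ : ∃ z : ℕ, z = zz k x := ⟨_, rfl⟩
  obtain ⟨b1, b2, b3, b4, -⟩ := hX₁ x hxX₁
  rw [← hz] at b1 b2 b3 b4
  obtain ⟨d1, d2, d3, d4, d5, d6, d7, d8, d9⟩ := hX₂ x hxX₂
  rw [← hz] at d7
  have hz2 : 2 ≤ z := by exact_mod_cast b4
  have hz1 : (1 : ℝ) ≤ z := by linarith
  have hL0 : 0 < Real.log x := by linarith
  have hlz0 : 0 < Real.log z := Real.log_pos (by linarith)
  have hLL : 0 ≤ Real.log x * Real.log (Real.log x) := mul_nonneg hL0.le (Real.log_nonneg d1)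
  have hcond1 : K₁ * (Real.log x * Real.log (Real.log x)) ≤ (Real.log z) ^ 2 :=
    (mul_le_mul_of_nonneg_right hkK hLL).trans b1
  have hcond2 : (z : ℝ) ^ K₁ ≤ x := (Real.rpow_le_rpow_of_exponent_le hz1 hkK).trans b2
  have hzx : (z : ℝ) ≤ x := by
    calc (z : ℝ) = (z : ℝ) ^ (1 : ℝ) := (Real.rpow_one _).symm
      _ ≤ (z : ℝ) ^ (k : ℝ) := Real.rpow_le_rpow_of_exponent_le hz1 hk1r
      _ ≤ x := b2
  have hlzx : Real.log z ≤ Real.log x := Real.log_le_log (by linarith) hzx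
  have hmain := (hA x hxA z hcond1 hcond2).1
  have hlow : ∀ c : ℕ, c = 1 ∨ c = 3 → (x : ℝ) / (K₁ * (Real.log x) ^ 2) ≤ (Tf x z c).card := by
    intro c hc
    refine le_trans ?_ (hmain c hc).1
    apply div_le_div_of_nonneg_left hx0.le (by positivity)
    rw [pow_two]
    exact mul_le_mul_of_nonneg_left (mul_le_mul_of_nonneg_left hlzx hL0.le) hK₁0.le
  rw [← hz]
  refine ⟨hlow, ?_⟩
  obtain ⟨u, hu⟩ : ∃ u : ℝ, u = (x : ℝ) / (K₁ * (Real.log x) ^ 2) := ⟨_, rfl⟩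
  rw [← hu] at d2 d3 hlow
  have hu0 : 0 < u := by rw [hu]; positivity
  obtain ⟨H, hH⟩ : ∃ H : ℕ, H = Nat.sqrt x := ⟨_, rfl⟩
  rw [← hH] at d2 d8 d9
  obtain ⟨R, hR⟩ : ∃ R : ℕ, R = ⌊(x : ℝ) ^ ρ⌋₊ := ⟨_, rfl⟩
  rw [← hR] at d6 d7 d8
  obtain ⟨s, hs⟩ : ∃ s : ℕ, s = ⌊(x : ℝ) ^ (ρ / 2)⌋₊ := ⟨_, rfl⟩
  rw [← hs] at d4 d5 d6
  obtain ⟨Q, hQ⟩ : ∃ Q : ℕ, Q = ⌊(x : ℝ) ^ (1 / 2 - δ)⌋₊ := ⟨_, rfl⟩
  have hHx : H ≤ x := by rw [hH]; exact Nat.sqrt_le_self x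
  have hQR : (Q * R) ^ 2 ≤ x := by
    have h1 : (Q : ℝ) ≤ (x : ℝ) ^ (1 / 2 - δ) := by rw [hQ]; exact Nat.floor_le (by positivity)
    have h2 : (R : ℝ) ≤ (x : ℝ) ^ ρ := by rw [hR]; exact Nat.floor_le (by positivity)
    have h3 : (Q : ℝ) * R ≤ (x : ℝ) ^ (1 / 2 : ℝ) := by
      calc (Q : ℝ) * R ≤ (x : ℝ) ^ (1 / 2 - δ) * (x : ℝ) ^ ρ :=
            mul_le_mul h1 h2 (Nat.cast_nonneg _) (by positivity)
        _ = (x : ℝ) ^ (1 / 2 - δ + ρ) := (Real.rpow_add hx0 _ _).symm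
        _ ≤ (x : ℝ) ^ (1 / 2 : ℝ) := Real.rpow_le_rpow_of_exponent_le hx1 (by linarith)
    have h4 : ((Q : ℝ) * R) ^ 2 ≤ x := by
      calc ((Q : ℝ) * R) ^ 2 ≤ ((x : ℝ) ^ (1 / 2 : ℝ)) ^ 2 := pow_le_pow_left₀ (by positivity) h3 2
        _ = x := by rw [← Real.rpow_natCast, ← Real.rpow_mul hx0.le]; norm_num
    exact_mod_cast h4
  have hQH : Q ≤ H := by
    rw [hH, Nat.le_sqrt, hQ]
    have h1 := Nat.floor_le (by positivity : 0 ≤ (x : ℝ) ^ (1 / 2 - δ))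
    have h2 : (x : ℝ) ^ (1 / 2 - δ) ≤ (x : ℝ) ^ (1 / 2 : ℝ) :=
      Real.rpow_le_rpow_of_exponent_le hx1 (by linarith)
    have h3 : ((⌊(x : ℝ) ^ (1 / 2 - δ)⌋₊ * ⌊(x : ℝ) ^ (1 / 2 - δ)⌋₊ : ℕ) : ℝ) ≤ x := by
      push_cast
      calc ((⌊(x : ℝ) ^ (1 / 2 - δ)⌋₊ : ℕ) : ℝ) * ⌊(x : ℝ) ^ (1 / 2 - δ)⌋₊
          ≤ (x : ℝ) ^ (1 / 2 : ℝ) * (x : ℝ) ^ (1 / 2 : ℝ) :=
            mul_le_mul (h1.trans h2) (h1.trans h2) (Nat.cast_nonneg _) (by positivity)
        _ = x := by rw [← Real.rpow_add hx0]; norm_num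
    exact_mod_cast h3
  -- the primes with a large second moment
  obtain ⟨SS, hSS⟩ : ∃ SS : ℕ → Finset ℕ, SS = fun c => (Icc 2 Q).filter (fun q => q.Prime ∧ Y < q ∧
      (ε₁ * ((Tf x z c).card : ℝ)) ^ 2 ≤
        AS x (ind1 ((Tf x z c).filter (fun p => H < p))) q) := ⟨_, rfl⟩
  have hSSc : ∀ c : ℕ, c = 1 ∨ c = 3 → (SS c).card < M₀ := by
    intro c hc
    by_contra hcon
    push Not at hcon
    obtain ⟨S, hS, hScard⟩ := exists_subset_card_eq hcon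
    have ht0 : 0 < ((Tf x z c).card : ℝ) := lt_of_lt_of_le hu0 (hlow c hc)
    have h1 := few_Q x Q R s M₀ Y ((Tf x z c).filter (fun p => H < p))
      ((Tf x z c).card : ℝ) ε₁ (Tf_sub x z c H) (fun n hn l hl hl3 hlR =>
        supp x z c H R d7 d8 n hn l hl hl3 hlR) hQR d4 d6 S (by
        intro D hD
        have h2 := hS hD
        rw [hSS] at h2
        simp only [mem_filter, mem_Icc] at h2
        exact ⟨h2.2.1, h2.1.2, h2.2.2.1⟩) hScard.le (by omega) (by omega)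
      (by exact_mod_cast card_le_card (filter_subset _ _)) ht0.le (by
        intro D hD
        have h2 := hS hD
        rw [hSS] at h2
        simp only [mem_filter, mem_Icc] at h2
        exact h2.2.2.2)
    rw [hScard] at h1
    have h5 : (ρ / 16 * Real.log x) ^ 2 ≤ (1 / 4 * Real.log s) ^ 2 := by
      apply pow_le_pow_left₀ (by positivity)
      linarith
    have h6 : (ρ / 16 * Real.log x) ^ 2 * (M₀ * (ε₁ * ((Tf x z c).card : ℝ)) ^ 2) ≤
        12 * x * ((Tf x z c).card : ℝ) :=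
      (mul_le_mul_of_nonneg_right h5 (by positivity)).trans h1
    have h9 := alg_D ρ (Real.log x) M₀ ε₁ ((Tf x z c).card : ℝ) x K₁ u hL0 ht0 hu (hlow c hc) hK₁0 h6
    rw [div_lt_iff₀ (by positivity)] at hM₀'
    linarith
  -- the bases which are often power residues
  have hxz : x ≤ z ^ (2 * k) := by
    have h1 : Real.log x ≤ 2 * k * Real.log z := by
      rw [div_le_iff₀ hlz0] at b3
      exact b3
    have h2 : (x : ℝ) ≤ (z : ℝ) ^ (2 * k) := by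
      rw [← Real.log_le_log_iff hx0 (by positivity), Real.log_pow]
      push_cast
      exact h1
    exact_mod_cast h2
  have hTT : ∀ c : ℕ, c = 1 ∨ c = 3 → ((TT x z).card : ℝ) ≤ 4 * ((Tf x z c).card : ℝ) := by
    intro c hc
    have := (hmain c hc).2
    linarith
  have hTTu : u ≤ ((TT x z).card : ℝ) :=
    (hlow 1 (Or.inl rfl)).trans (by exact_mod_cast Tf_card_TT x z 1)
  obtain ⟨EB, hEB⟩ : ∃ EB : Finset ℕ, EB = (Icc 2 H).filter (fun q : ℕ => q.Prime ∧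
      η * ((TT x z).card : ℝ) < ((Bad ((q : ℕ) : ℤ) x z H).card : ℝ)) := ⟨_, rfl⟩
  have hEBc : EB.card < m₀ := by
    rw [hEB]
    convert hB x hxB z hz2 hxz H (by omega) hHx (by linarith) (d3.trans hTTu) using 3
  refine ⟨SS 1 ∪ SS 3 ∪ EB ∪ Icc 2 Y, ?_, ?_⟩
  · have c1 := card_union_le (SS 1 ∪ SS 3 ∪ EB) (Icc 2 Y)
    have c2 := card_union_le (SS 1 ∪ SS 3) EB
    have c3 := card_union_le (SS 1) (SS 3)
    have c4 := hSSc 1 (Or.inl rfl)
    have c5 := hSSc 3 (Or.inr rfl)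
    have c6 : (Icc 2 Y).card ≤ Y := by rw [Nat.card_Icc]; omega
    omega
  intro q hqp hqx hqE c hc C hC
  have hqQ : q ≤ Q := by rw [hQ]; exact Nat.le_floor hqx
  have hYq : Y < q := by
    by_contra hcon
    apply hqE
    rw [mem_union]
    exact Or.inr (mem_Icc.2 ⟨hqp.two_le, by omega⟩)
  have hbad : ((Bad ((q : ℕ) : ℤ) x z H).card : ℝ) ≤ η * ((TT x z).card : ℝ) := by
    by_contra hcon
    push Not at hcon
    apply hqE
    rw [mem_union, mem_union]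
    left; right
    rw [hEB, mem_filter]
    exact ⟨mem_Icc.2 ⟨hqp.two_le, hqQ.trans hQH⟩, hqp, hcon⟩
  have ht0 : 0 < ((Tf x z c).card : ℝ) := lt_of_lt_of_le hu0 (hlow c hc)
  have hVq : AS x (ind1 ((Tf x z c).filter (fun p => H < p))) q ≤
      (ε₁ * ((Tf x z c).card : ℝ)) ^ 2 := by
    by_contra hcon
    push Not at hcon
    apply hqE
    have hmem : q ∈ SS c := by
      rw [hSS]
      simp only [mem_filter, mem_Icc]
      exact ⟨⟨hqp.two_le, hqQ⟩, hqp, hYq, hcon.le⟩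
    rw [mem_union, mem_union, mem_union]
    left; left
    rcases hc with rfl | rfl
    · exact Or.inl hmem
    · exact Or.inr hmem
  have hcc := class_count q x hqp ((Tf x z c).filter (fun p => H < p)) (Tf_sub x z c H)
    (C.filter (fun u => Adm c q u)) ((filter_subset _ _).trans hC)
  have hcc2 := abs_le_of_sq_le_sq (hcc.trans hVq) (by positivity)
  have hrc := root_class q hqp (by omega) x z H c hc (hqQ.trans hQH) C
  have hHt : (H : ℝ) ≤ ε / 8 * ((Tf x z c).card : ℝ) :=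
    d2.trans (mul_le_mul_of_nonneg_left (hlow c hc) (by positivity))
  have hbel := below x z c H
  have hsub : (((Tf x z c).filter (fun p => H < p)).card : ℝ) ≤ ((Tf x z c).card : ℝ) := by
    exact_mod_cast card_le_card (filter_subset _ _)
  have hH0 : (0 : ℝ) ≤ H := Nat.cast_nonneg H
  have hq0 : (0 : ℝ) < q := by exact_mod_cast hqp.pos
  obtain ⟨κ, hκ⟩ : ∃ κ : ℝ, κ = ((C.filter (fun u => Adm c q u)).card : ℝ) / q := ⟨_, rfl⟩
  have hκ0 : 0 ≤ κ := by rw [hκ]; positivity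
  have hκ1 : κ ≤ 1 := by
    rw [hκ, div_le_one hq0]
    have h1 := card_le_card ((filter_subset (fun u => Adm c q u) C).trans hC)
    rw [card_range] at h1
    exact_mod_cast h1
  rw [← hκ] at hcc2 ⊢
  have hlast : |κ * (((Tf x z c).filter (fun p => H < p)).card : ℝ) -
      κ * ((Tf x z c).card : ℝ)| ≤ H := by
    rw [← mul_sub, abs_mul, abs_of_nonneg hκ0]
    have h1 : |(((Tf x z c).filter (fun p => H < p)).card : ℝ) - ((Tf x z c).card : ℝ)| ≤ H := by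
      rw [abs_le]
      constructor <;> linarith
    calc κ * |(((Tf x z c).filter (fun p => H < p)).card : ℝ) - ((Tf x z c).card : ℝ)|
        ≤ 1 * H := mul_le_mul hκ1 h1 (abs_nonneg _) (by norm_num)
      _ = H := one_mul _
  have hbad2 : ((Bad ((q : ℕ) : ℤ) x z H).card : ℝ) ≤ ε / 4 * ((Tf x z c).card : ℝ) := by
    refine hbad.trans ?_
    have h1 := mul_le_mul_of_nonneg_left (hTT c hc) hη0.le
    refine h1.trans (le_of_eq ?_)
    rw [hη]
    ring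
  have hd1 := abs_le.1 hcc2
  have hd2 := abs_le.1 hrc
  have hd3 := abs_le.1 hlast
  have hεt : 0 < ε * ((Tf x z c).card : ℝ) := mul_pos hε ht0
  rw [hε₁] at hd1
  rw [abs_le]
  constructor <;> linarith

end Pool.Agent.H482.AP
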