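import Mathlib
import Pool.Agent.H482.AP.Jfin
import Pool.Agent.H482.MR.M12

/-! The least prime joined with a given prime. -/

set_option autoImplicit false

namespace Pool.Agent.H482.AP

open Finset Filter

open Pool.Agent.H482.MR (Tf mem_TT zz zz_spec Gq Gq_card_eq)

open Classical in
/-- the number of the primes `p ≤ y` joined with `q` -/
noncomputable def Jn (q y : ℕ) : ℕ :=
  ((Icc 1 y).filter (fun p => p.Prime ∧ orderOf ((q : ℕ) : ZMod p) = p - 1 ∧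
    orderOf ((p : ℕ) : ZMod q) = q - 1)).card

theorem Jn_mono (q : ℕ) {y y' : ℕ} (h : y ≤ y') : Jn q y ≤ Jn q y' := by
  classical
  unfold Jn
  apply card_le_card
  intro p hp
  rw [mem_filter, mem_Icc] at hp ⊢
  exact ⟨⟨hp.1.1, hp.1.2.trans h⟩, hp.2⟩

open Classical in
theorem Jn_ge (q x z c : ℕ) :
    ((Tf x z c).filter (fun p : ℕ => orderOf ((q : ℕ) : ZMod p) = p - 1 ∧ p % q ∈ Gq q)).card ≤
      Jn q x := by
  unfold Jn
  apply card_le_card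
  intro p hp
  rw [mem_filter] at hp
  obtain ⟨h1, h2, h3⟩ := hp
  unfold Tf at h1
  rw [mem_filter, mem_TT] at h1
  rw [mem_filter, mem_Icc]
  unfold Gq at h3
  rw [mem_filter, ZMod.natCast_mod] at h3
  exact ⟨h1.1.1, h1.1.2.1, h2, h3.2⟩

open Classical in
theorem Gq_adm (q : ℕ) (hq : q.Prime) (hq3 : 3 ≤ q) :
    (Gq q).filter (fun u => Adm 1 q u) = Gq q := by
  have hfact : Fact q.Prime := ⟨hq⟩
  apply filter_true_of_mem
  intro u hu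
  unfold Gq at hu
  rw [mem_filter, mem_range] at hu
  have hu0 : ¬ (q : ℤ) ∣ (u : ℤ) := by
    intro h
    have h1 : ((u : ℕ) : ZMod q) = 0 := by
      rw [ZMod.natCast_eq_zero_iff]
      exact_mod_cast h
    have h2 := hu.2
    rw [h1, orderOf_zero] at h2
    omega
  have h1 := (Pool.Agent.Y855.order_iff' (u : ℤ) q (by omega) hu0).1 (by
    rw [Int.cast_natCast]
    exact hu.2)
  unfold Adm
  rw [if_neg (by omega), ← jacobiSym.legendreSym.to_jacobiSym]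
  exact h1.1

/-- few exceptions in `[y, y ^ (1 + δ / 8)]` -/
theorem one_scaleJ (δ η : ℝ) (hδ : 0 < δ) (hη : 0 < η) : ∃ (K : ℕ) (y₀ : ℝ), 3 ≤ y₀ ∧
    ∀ y : ℝ, y₀ ≤ y →
    ∀ S : Finset ℕ, (∀ q ∈ S, q.Prime ∧ η * q ≤ (Nat.totient (q - 1) : ℝ) ∧ y ≤ (q : ℝ) ∧
      (q : ℝ) ≤ y ^ (1 + δ / 8) ∧ (Jn q ⌊(q : ℝ) ^ (2 + δ)⌋₊ : ℝ) < (q : ℝ) ^ 2) → S.card ≤ K := by
  classical
  obtain ⟨k₀, hk₀, K₁, hK₁, h⟩ := main_join
  obtain ⟨K, x₀, hx₀3, hx₀⟩ := h k₀ le_rfl (η / 2) (δ / (4 * (2 + δ))) (by positivity) (by positivity)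
  have hK₁0 : 0 < K₁ := by linarith
  obtain ⟨y₀, hy₀2, hy₀⟩ := num_y δ (K₁ / (2 * η)) x₀ hδ (by positivity)
  refine ⟨K, max y₀ 3, le_max_right _ _, fun y hy' S hS => ?_⟩
  have hy : y₀ ≤ y := (le_max_left _ _).trans hy'
  have hy3 : 3 ≤ y := (le_max_right _ _).trans hy'
  obtain ⟨a0, a1, a2, a3⟩ := hy₀ y hy
  have hy0 : 0 < y := by linarith
  have hy1 : 1 ≤ y := by linarith
  obtain ⟨x, hx⟩ : ∃ x : ℕ, x = ⌊y ^ (2 + δ)⌋₊ := ⟨_, rfl⟩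
  have hxx₀ : x₀ ≤ x := by
    rw [hx]
    apply Nat.le_floor
    linarith
  rw [← hx] at a2 a3
  obtain ⟨b1, E, b2, b4⟩ := hx₀ x hxx₀
  by_contra hcon
  push Not at hcon
  have hSE : ¬ S ⊆ E := fun hsub => by
    have := card_le_card hsub
    omega
  rw [not_subset] at hSE
  obtain ⟨q, hqS, hqE⟩ := hSE
  obtain ⟨c1, c0, c2, c3, c4⟩ := hS q hqS
  have hq3 : 3 ≤ q := by
    have : (3 : ℝ) ≤ q := hy3.trans c2
    exact_mod_cast this
  have h2 := b4 q c1 (c3.trans a2) hqE 1 (Or.inl rfl) (Gq q) (by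
    unfold Gq
    exact filter_subset _ _)
  have h3 := b1 1 (Or.inl rfl)
  rw [Gq_adm q c1 hq3, Gq_card_eq q c1 hq3] at h2
  have h4 := (abs_le.1 h2).1
  have h5 : ((((Tf x (zz k₀ x) 1).filter (fun p : ℕ => orderOf ((q : ℕ) : ZMod p) = p - 1 ∧
      p % q ∈ Gq q)).card : ℕ) : ℝ) ≤ Jn q x := by
    exact_mod_cast Jn_ge q x (zz k₀ x) 1
  have h6 : (Jn q x : ℝ) ≤ Jn q ⌊(q : ℝ) ^ (2 + δ)⌋₊ := by
    have : Jn q x ≤ Jn q ⌊(q : ℝ) ^ (2 + δ)⌋₊ := by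
      apply Jn_mono
      rw [hx]
      exact Nat.floor_le_floor (Real.rpow_le_rpow hy0.le c2 (by linarith))
    exact_mod_cast this
  have h7 : (q : ℝ) ^ 2 ≤ y ^ (2 + δ / 2) := by
    have hq0 : (0 : ℝ) ≤ q := Nat.cast_nonneg q
    calc (q : ℝ) ^ 2 ≤ (y ^ (1 + δ / 8)) ^ 2 := pow_le_pow_left₀ hq0 c3 2
      _ = y ^ (2 + δ / 4) := by
          rw [← Real.rpow_natCast, ← Real.rpow_mul hy0.le]
          congr 1
          push_cast
          ring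
      _ ≤ y ^ (2 + δ / 2) := Real.rpow_le_rpow_of_exponent_le hy1 (by linarith)
  have hq0 : (0 : ℝ) < q := by linarith
  have h8 : η ≤ (Nat.totient (q - 1) : ℝ) / q := by
    rw [le_div_iff₀ hq0]
    exact c0
  obtain ⟨t, ht⟩ : ∃ t : ℝ, t = ((Tf x (zz k₀ x) 1).card : ℝ) := ⟨_, rfl⟩
  rw [← ht] at h3 h4
  have ht0 : 0 ≤ t := by rw [ht]; positivity
  have h9 : η * t ≤ (Nat.totient (q - 1) : ℝ) / q * t := mul_le_mul_of_nonneg_right h8 ht0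
  have h10 : 1 / 4 * ((x : ℝ) / (K₁ / (2 * η) * (Real.log x) ^ 2)) =
      η / 2 * ((x : ℝ) / (K₁ * (Real.log x) ^ 2)) := by
    rcases eq_or_ne (Real.log x) 0 with h0 | h0
    · rw [h0]; simp
    · field_simp
      ring
  rw [h10] at a3
  have h11 : η / 2 * ((x : ℝ) / (K₁ * (Real.log x) ^ 2)) ≤ η / 2 * t :=
    mul_le_mul_of_nonneg_left h3 (by positivity)
  linarith

open Classical in
theorem main_joined (δ η : ℝ) (hδ : 0 < δ) (hη : 0 < η) : ∃ C : ℝ, ∀ N : ℕ, 3 ≤ N →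
    (((Icc 1 N).filter (fun q : ℕ => q.Prime ∧ η * q ≤ (Nat.totient (q - 1) : ℝ) ∧
      (Jn q ⌊(q : ℝ) ^ (2 + δ)⌋₊ : ℝ) < (q : ℝ) ^ 2)).card : ℝ) ≤
      C * (1 + Real.log (Real.log N)) := by
  obtain ⟨K, y₀, hy₀, h⟩ := one_scaleJ δ η hδ hη
  exact cover (δ / 8) (by positivity) K y₀ (by linarith) _ fun y hy S hS => h y hy S fun q hq =>
    ⟨(hS q hq).1.1, (hS q hq).1.2.1, (hS q hq).2.1, (hS q hq).2.2, (hS q hq).1.2.2⟩

end Pool.Agent.H482.AP
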